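import Pool.Agent.W529.ST.Gram
import Pool.Agent.W353.AB.Govern

/-! The Bessel inequality in natural density. -/

set_option autoImplicit false

namespace Pool.Agent.W529.ST

open Filter Topology NumberField IsDedekindDomain Pool.Agent.H341R2 Pool.Agent.W353.TP
  Pool.Agent.W353.AB
open Pool.Agent.H921R2.TatePole (nm two_le_nm R hc R_eq_hc R_le kerPrime hom_finite C0)
open scoped TensorProduct

theorem tendsto_Av {φ : Nat.Primes → ℝ} {c : ℝ} (h : NN fun p => φ p - c) :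
    Tendsto (fun N => Av N φ) atTop (𝓝 c) := by
  have h1 : Tendsto (fun N => Av N (fun p => φ p - c) + c) atTop (𝓝 (0 + c)) := h.add_const c
  rw [zero_add] at h1
  refine h1.congr' ?_
  have hp : ∀ᶠ N : ℕ in atTop, 0 < (Nat.primeCounting N : ℝ) := pc_atTop.eventually_gt_atTop 0
  filter_upwards [hp] with N hN
  rw [Av_sub]
  have e1 : Av N (fun _ => c) = c := by
    unfold Av
    rw [Finset.sum_const, card_PR, nsmul_eq_mul, mul_comm, mul_div_assoc, div_self hN.ne', mul_one]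
  rw [e1, sub_add_cancel]

/-- A system of real trace functions over `K`: the components are indexed by the finite set `P`, the
component `j` has the coefficients `T j`, and it is twisted by the product of the `d_i` over
`i ∈ A j` when the system is twisted by `d`. -/
structure SN (K : Type) [Field K] [NumberField K] where
  ι : Type
  P : Finset ι
  r : ℕ
  A : ι → Finset (Fin r)
  T : ι → HX K → ℝ
  hT : ∀ x, ∑ j ∈ P, T j x ^ 2 ≤ 1

section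
variable {K : Type} [Field K] [NumberField K]

theorem SN.abs_T (𝒮 : SN K) {j : 𝒮.ι} (hj : j ∈ 𝒮.P) (x : HX K) : |𝒮.T j x| ≤ 1 := by
  have h1 : 𝒮.T j x ^ 2 ≤ ∑ i ∈ 𝒮.P, 𝒮.T i x ^ 2 :=
    Finset.single_le_sum (f := fun i => 𝒮.T i x ^ 2) (fun i _ => sq_nonneg _) hj
  have h2 := h1.trans (𝒮.hT x)
  exact (sq_le_one_iff_abs_le_one _).1 h2

/-- the associated system -/
noncomputable def SN.Y (𝒮 : SN K) : Sy K where
  ι := 𝒮.ι
  P := 𝒮.P
  r := 𝒮.r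
  A := 𝒮.A
  T := fun j x => (𝒮.T j x : ℂ)
  b := fun _ => 1
  hb := fun _ _ => zero_le_one
  hT := fun j hj x => by
    rw [Complex.norm_real, Real.norm_eq_abs]
    exact 𝒮.abs_T hj x

/-- the natural mean of the system twisted by `d`, over the homomorphisms to prime fields -/
noncomputable def corrN (𝒮 : SN K) {F : Type} [Field F] [NumberField F] [Algebra K F]
    (d : Fin 𝒮.r → 𝓞 F) (N : ℕ) : ℝ :=
  ∑ j ∈ 𝒮.P, Av N fun p => ∑ u : 𝓞 K →+* ZMod (p : ℕ),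
    𝒮.T j ⟨p, u⟩ * push K (qh (𝒮.Y.D d j)) ⟨p, u⟩

/-- Cauchy's inequality -/
theorem cs_Av {ι : Type} (P : Finset ι) (N : ℕ) (a b : ι → HX K → ℝ) :
    (∑ j ∈ P, Av N fun p => ∑ u : 𝓞 K →+* ZMod (p : ℕ), a j ⟨p, u⟩ * b j ⟨p, u⟩) ^ 2 ≤
      (Av N fun p => ∑ u : 𝓞 K →+* ZMod (p : ℕ), ∑ j ∈ P, a j ⟨p, u⟩ ^ 2) *
      ∑ j ∈ P, Av N fun p => ∑ u : 𝓞 K →+* ZMod (p : ℕ), b j ⟨p, u⟩ ^ 2 := by
  classical
  have key : ∀ g : ι → HX K → ℝ, (∑ j ∈ P, Av N fun p => ∑ u : 𝓞 K →+* ZMod (p : ℕ), g j ⟨p, u⟩) =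
      (∑ z ∈ P ×ˢ ((PR N).sigma fun p => (Finset.univ : Finset (𝓞 K →+* ZMod (p : ℕ)))),
        g z.1 z.2) / (Nat.primeCounting N : ℝ) := by
    intro g
    unfold Av
    rw [Finset.sum_product, Finset.sum_div]
    refine Finset.sum_congr rfl fun j _ => ?_
    congr 1
    exact (Finset.sum_sigma (PR N) (fun p => (Finset.univ : Finset (𝓞 K →+* ZMod (p : ℕ))))
      (fun x => g j x)).symm
  have k1 := key fun j x => a j x * b j x
  have k2 := key fun j x => a j x ^ 2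
  have k3 := key fun j x => b j x ^ 2
  have e2 : (Av N fun p => ∑ u : 𝓞 K →+* ZMod (p : ℕ), ∑ j ∈ P, a j ⟨p, u⟩ ^ 2) =
      ∑ j ∈ P, Av N fun p => ∑ u : 𝓞 K →+* ZMod (p : ℕ), a j ⟨p, u⟩ ^ 2 := by
    rw [← Av_sum]
    congr 1
    funext p
    exact Finset.sum_comm
  rw [e2]
  have k1' : (∑ j ∈ P, Av N fun p => ∑ u : 𝓞 K →+* ZMod (p : ℕ), a j ⟨p, u⟩ * b j ⟨p, u⟩) = _ := k1
  have k2' : (∑ j ∈ P, Av N fun p => ∑ u : 𝓞 K →+* ZMod (p : ℕ), a j ⟨p, u⟩ ^ 2) = _ := k2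
  have k3' : (∑ j ∈ P, Av N fun p => ∑ u : 𝓞 K →+* ZMod (p : ℕ), b j ⟨p, u⟩ ^ 2) = _ := k3
  rw [k1', k2', k3', div_pow, div_mul_div_comm, ← sq]
  exact div_le_div_of_nonneg_right (Finset.sum_mul_sq_le_sq_mul_sq _ _ _) (sq_nonneg _)

/-- the entries of the Gram matrix -/
noncomputable def GN (𝒮 : SN K) {F F' : Type} [Field F] [NumberField F] [Algebra K F]
    [Field F'] [NumberField F'] [Algebra K F'] (d : Fin 𝒮.r → 𝓞 F) (e : Fin 𝒮.r → 𝓞 F') : ℝ :=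
  ∑ j ∈ 𝒮.P, (inum K F F' ((𝒮.Y.D d j : 𝓞 F) : F) ((𝒮.Y.D e j : 𝓞 F') : F') : ℝ)

/-- **The Bessel inequality in natural density.** -/
theorem bessel (𝒮 : SN K) {κ : Type} (T : Finset κ) (F : κ → Type)
    [∀ k, Field (F k)] [∀ k, NumberField (F k)] [∀ k, Algebra K (F k)]
    (d : ∀ k, Fin 𝒮.r → 𝓞 (F k)) (hd0 : ∀ k ∈ T, ∀ i, d k i ≠ 0) (c : κ → ℝ) {η : ℝ}
    (hη : 0 < η) :
    ∀ᶠ N : ℕ in atTop, (∑ k ∈ T, c k * corrN 𝒮 (d k) N) ^ 2 ≤
      (∑ k ∈ T, ∑ l ∈ T, c k * c l * GN 𝒮 (d k) (d l)) + η := by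
  classical
  set W : 𝒮.ι → HX K → ℝ := fun j x => ∑ k ∈ T, c k * push K (qh (𝒮.Y.D (d k) j)) x with hW
  have hlin : ∀ N, ∑ k ∈ T, c k * corrN 𝒮 (d k) N = ∑ j ∈ 𝒮.P, Av N fun p =>
      ∑ u : 𝓞 K →+* ZMod (p : ℕ), 𝒮.T j ⟨p, u⟩ * W j ⟨p, u⟩ := by
    intro N
    unfold corrN
    simp only [Finset.mul_sum]
    rw [Finset.sum_comm]
    refine Finset.sum_congr rfl fun j _ => ?_
    have e1 : ∀ k ∈ T, c k * Av N (fun p => ∑ u : 𝓞 K →+* ZMod (p : ℕ),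
        𝒮.T j ⟨p, u⟩ * push K (qh (𝒮.Y.D (d k) j)) ⟨p, u⟩) =
        Av N (fun p => c k * ∑ u : 𝓞 K →+* ZMod (p : ℕ),
        𝒮.T j ⟨p, u⟩ * push K (qh (𝒮.Y.D (d k) j)) ⟨p, u⟩) := fun k _ => (Av_mul N _ _).symm
    rw [Finset.sum_congr rfl e1, ← Av_sum]
    congr 1
    funext p
    simp only [Finset.mul_sum]
    rw [Finset.sum_comm]
    refine Finset.sum_congr rfl fun u _ => ?_
    rw [hW]
    simp only
    rw [Finset.mul_sum]
    refine Finset.sum_congr rfl fun k _ => ?_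
    ring
  set Q : ℕ → ℝ := fun N => ∑ j ∈ 𝒮.P, Av N fun p =>
    ∑ u : 𝓞 K →+* ZMod (p : ℕ), W j ⟨p, u⟩ ^ 2 with hQ
  have hQlim : Tendsto Q atTop (𝓝 (∑ k ∈ T, ∑ l ∈ T, c k * c l * GN 𝒮 (d k) (d l))) := by
    have e1 : ∀ N, Q N = ∑ j ∈ 𝒮.P, ∑ k ∈ T, ∑ l ∈ T, (c k * c l) * Av N fun p =>
        ∑ u : 𝓞 K →+* ZMod (p : ℕ), push K (qh (𝒮.Y.D (d k) j)) ⟨p, u⟩ *
          push K (qh (𝒮.Y.D (d l) j)) ⟨p, u⟩ := by
      intro N
      rw [hQ]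
      refine Finset.sum_congr rfl fun j _ => ?_
      have e2 : ∀ k ∈ T, ∀ l ∈ T, (c k * c l) * Av N (fun p =>
        ∑ u : 𝓞 K →+* ZMod (p : ℕ), push K (qh (𝒮.Y.D (d k) j)) ⟨p, u⟩ *
          push K (qh (𝒮.Y.D (d l) j)) ⟨p, u⟩) = Av N (fun p => (c k * c l) *
        ∑ u : 𝓞 K →+* ZMod (p : ℕ), push K (qh (𝒮.Y.D (d k) j)) ⟨p, u⟩ *
          push K (qh (𝒮.Y.D (d l) j)) ⟨p, u⟩) := fun k _ l _ => (Av_mul N _ _).symm
      rw [Finset.sum_congr rfl fun k hk => Finset.sum_congr rfl fun l hl => e2 k hk l hl]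
      rw [Finset.sum_congr rfl fun k _ => (Av_sum N T _).symm, ← Av_sum]
      congr 1
      funext p
      have e3 : ∀ u : 𝓞 K →+* ZMod (p : ℕ), W j ⟨p, u⟩ ^ 2 = ∑ k ∈ T, ∑ l ∈ T, (c k * c l) *
          (push K (qh (𝒮.Y.D (d k) j)) ⟨p, u⟩ * push K (qh (𝒮.Y.D (d l) j)) ⟨p, u⟩) := by
        intro u
        rw [hW]
        simp only
        rw [sq, Finset.sum_mul_sum]
        refine Finset.sum_congr rfl fun k _ => Finset.sum_congr rfl fun l _ => ?_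
        ring
      rw [Finset.sum_congr rfl fun u _ => e3 u, Finset.sum_comm]
      refine Finset.sum_congr rfl fun k _ => ?_
      rw [Finset.sum_comm]
      refine Finset.sum_congr rfl fun l _ => ?_
      rw [Finset.mul_sum]
    have e4 : (∑ k ∈ T, ∑ l ∈ T, c k * c l * GN 𝒮 (d k) (d l)) =
        ∑ j ∈ 𝒮.P, ∑ k ∈ T, ∑ l ∈ T, (c k * c l) *
          (inum K (F k) (F l) ((𝒮.Y.D (d k) j : 𝓞 (F k)) : F k)
            ((𝒮.Y.D (d l) j : 𝓞 (F l)) : F l) : ℝ) := by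
      unfold GN
      simp only [Finset.mul_sum]
      rw [Finset.sum_comm' (s := 𝒮.P) (t := fun _ => T) (t' := T) (s' := fun _ => 𝒮.P)
        (by tauto)]
      refine Finset.sum_congr rfl fun k _ => ?_
      rw [Finset.sum_comm' (s := 𝒮.P) (t := fun _ => T) (t' := T) (s' := fun _ => 𝒮.P)
        (by tauto)]
    rw [e4]
    refine Tendsto.congr (fun N => (e1 N).symm) ?_
    refine tendsto_finsetSum _ fun j _ => tendsto_finsetSum _ fun k hk =>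
      tendsto_finsetSum _ fun l hl => ?_
    refine Tendsto.const_mul _ ?_
    exact tendsto_Av (gramN (𝒮.Y.D_ne (hd0 k hk) j) (𝒮.Y.D_ne (hd0 l hl) j))
  have hHlim : Tendsto (fun N => Av N fun p => (hc (𝓞 K) (p : ℕ) : ℝ)) atTop (𝓝 1) :=
    tendsto_Av (mean_hc K)
  have hlim := hHlim.mul hQlim
  rw [one_mul] at hlim
  have hev := hlim.eventually (gt_mem_nhds (show (∑ k ∈ T, ∑ l ∈ T, c k * c l * GN 𝒮 (d k) (d l)) <
    (∑ k ∈ T, ∑ l ∈ T, c k * c l * GN 𝒮 (d k) (d l)) + η by linarith))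
  filter_upwards [hev] with N hN
  rw [hlin]
  refine (cs_Av 𝒮.P N 𝒮.T W).trans ?_
  refine le_trans ?_ hN.le
  refine mul_le_mul_of_nonneg_right ?_ ?_
  · refine Av_mono fun p => ?_
    refine (Finset.sum_le_sum fun u _ => 𝒮.hT ⟨p, u⟩).trans ?_
    rw [Finset.sum_const, Finset.card_univ, card_hom_eq, R_eq_hc, nsmul_eq_mul, mul_one]
  · refine Finset.sum_nonneg fun j _ => ?_
    unfold Av
    exact div_nonneg (Finset.sum_nonneg fun p _ => Finset.sum_nonneg fun u _ => sq_nonneg _)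
      (Nat.cast_nonneg _)

end

end Pool.Agent.W529.ST
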