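import Pool.Agent.W529.ST.Hyp

/-! Cells of a box, and the number of exceptional twists of a curve. -/

set_option autoImplicit false

namespace Pool.Agent.W529.ST

open Polynomial Pool.Agent.H126T NumberField IsDedekindDomain Filter Topology Pool.Agent.H341R2
  Pool.Agent.W353.TP

/-- the cell of a real number in `[-R, R]`, cells of length `1 / (2 k)` -/
noncomputable def cell1 (R k : ℕ) (y : ℝ) : Fin (4 * R * k + 1) :=
  ⟨min ((⌊2 * k * y⌋ + 2 * R * k).toNat) (4 * R * k), by omega⟩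

/-- the centre of a cell -/
noncomputable def cen1 (R k : ℕ) (c : Fin (4 * R * k + 1)) : ℝ :=
  (((c : ℕ) : ℝ) - 2 * R * k + 1 / 2) / (2 * k)

theorem cell1_spec (R k : ℕ) (hk : 1 ≤ k) {y : ℝ} (hy : |y| ≤ R) :
    |y - cen1 R k (cell1 R k y)| ≤ 1 / (4 * k) := by
  have hkR : (0 : ℝ) < k := by exact_mod_cast hk
  have hy' := abs_le.1 hy
  set z : ℤ := ⌊2 * k * y⌋ with hz
  have h1 : (z : ℝ) ≤ 2 * k * y := Int.floor_le _
  have h2 : 2 * k * y < z + 1 := Int.lt_floor_add_one _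
  have h3 : -(2 * R * k : ℤ) ≤ z := by
    rw [hz, Int.le_floor]
    push_cast
    nlinarith [hy'.1]
  have h4 : z ≤ 2 * R * k := by
    have : (z : ℝ) ≤ ((2 * R * k : ℤ) : ℝ) := by
      push_cast
      nlinarith [hy'.2]
    exact_mod_cast this
  have h5 : ((cell1 R k y : ℕ) : ℤ) = z + 2 * R * k := by
    change ((min ((z + 2 * R * k).toNat) (4 * R * k) : ℕ) : ℤ) = _
    have h6 : (z + 2 * R * k).toNat ≤ 4 * R * k := by
      rw [Int.toNat_le]
      push_cast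
      linarith
    rw [min_eq_left h6, Int.toNat_of_nonneg (by linarith)]
  have h6 : (((cell1 R k y : ℕ) : ℤ) : ℝ) = (z : ℝ) + 2 * R * k := by
    rw [h5]
    push_cast
    rfl
  have h7 : cen1 R k (cell1 R k y) = ((z : ℝ) + 1 / 2) / (2 * k) := by
    unfold cen1
    have : (((cell1 R k y : ℕ) : ℝ)) = (z : ℝ) + 2 * R * k := by exact_mod_cast h6
    rw [this]
    congr 1
    ring
  rw [h7]
  have h8 : y - ((z : ℝ) + 1 / 2) / (2 * k) = (2 * k * y - (z + 1 / 2)) / (2 * k) := by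
    field_simp
  rw [h8, abs_div, abs_of_pos (by positivity : (0 : ℝ) < 2 * k), div_le_iff₀ (by positivity)]
  have h9 : 1 / (4 * (k : ℝ)) * (2 * k) = 1 / 2 := by
    field_simp
    norm_num
  rw [h9, abs_le]
  constructor <;> linarith

/-- cells of the box `[-R, R]^g` -/
theorem exists_cells (g R k : ℕ) (hk : 1 ≤ k) :
    ∃ κ : (Fin g → ℝ) → Fin ((4 * R * k + 1) ^ g), ∀ Φ : (Fin g → ℝ) → ℝ, Test Φ →
      ∃ r : Fin ((4 * R * k + 1) ^ g) → ℝ, (∀ c, |r c| ≤ 1) ∧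
        ∀ y : Fin g → ℝ, (∀ m, |y m| ≤ R) → |Φ y - r (κ y)| ≤ 1 / (4 * k) := by
  have hkR : (0 : ℝ) < k := by exact_mod_cast hk
  let e : (Fin g → Fin (4 * R * k + 1)) ≃ Fin ((4 * R * k + 1) ^ g) := finFunctionFinEquiv
  refine ⟨fun y => e fun m => cell1 R k (y m), fun Φ hΦ => ?_⟩
  refine ⟨fun c => Φ fun m => cen1 R k (e.symm c m), fun c => hΦ.2 _, fun y hy => ?_⟩
  simp only [e.symm_apply_apply]
  have h1 := hΦ.1.dist_le_mul y fun m => cen1 R k (cell1 R k (y m))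
  rw [NNReal.coe_one, one_mul, Real.dist_eq] at h1
  refine h1.trans ?_
  rw [dist_pi_le_iff (by positivity)]
  intro m
  rw [Real.dist_eq]
  exact cell1_spec R k hk (hy m)

section
variable {F : Type} [Field F] [NumberField F]

/-- normalised traces -/
noncomputable def sH (f : (𝓞 F)[X]) (g : ℕ) (d : 𝓞 F) (v : HeightOneSpectrum (𝓞 F)) (m : Fin g) :
    ℝ :=
  (trH v f d (m + 1) : ℝ) / ((Ideal.absNorm v.asIdeal : ℕ) : ℝ) ^ (((m : ℕ) + 1 : ℝ) / 2)

theorem sH_twist (f : (𝓞 F)[X]) (g : ℕ) {d : 𝓞 F} {v : HeightOneSpectrum (𝓞 F)}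
    (h : 2 * d ∉ v.asIdeal) :
    sH f g d v = fun m : Fin g => ch d v ^ ((m : ℕ) + 1) * sH f g 1 v m := by
  funext m
  unfold sH
  rw [trH_twist v f h (Nat.succ_ne_zero _), mul_div_assoc]

theorem sH_bound (f : (𝓞 F)[X]) (g : ℕ) {v : HeightOneSpectrum (𝓞 F)}
    (h : ∀ m : ℕ, m ≠ 0 → |(trH v f 1 m : ℝ)| ≤
        f.natDegree * Real.sqrt ((Ideal.absNorm v.asIdeal : ℝ) ^ m)) (m : Fin g) :
    |sH f g 1 v m| ≤ f.natDegree := by
  have hq : (0 : ℝ) < (Ideal.absNorm v.asIdeal : ℝ) := by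
    have : Ideal.absNorm v.asIdeal ≠ 0 := by
      intro h0
      exact v.ne_bot (Ideal.absNorm_eq_zero_iff.1 h0)
    exact_mod_cast Nat.pos_of_ne_zero this
  unfold sH
  rw [abs_div, abs_of_pos (Real.rpow_pos_of_pos hq _), div_le_iff₀ (Real.rpow_pos_of_pos hq _)]
  refine (h (m + 1) (Nat.succ_ne_zero _)).trans (le_of_eq ?_)
  congr 1
  rw [Real.sqrt_eq_rpow, ← Real.rpow_natCast, ← Real.rpow_mul hq.le]
  congr 1
  push_cast
  ring

open Classical in
/-- **The number of exceptional quadratic twists.** -/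
theorem count_curve (f : (𝓞 F)[X]) (hf : (f.map (algebraMap (𝓞 F) F)).Separable)
    (hn : 1 ≤ f.natDegree) (g R : ℕ) (hR : f.natDegree ≤ R) (T : Finset (𝓞 F))
    (hT : ∀ d ∈ T, d ≠ 0)
    (hT' : ∀ d ∈ T, ∀ d' ∈ T, d ≠ d' → ¬ IsSquare ((d * d' : 𝓞 F) : F)) (k : ℕ) (hk : 1 ≤ k) :
    ∀ᶠ N : ℕ in atTop, (T.filter fun d => ∃ Φ : (Fin g → ℝ) → ℝ, Test Φ ∧
        1 / (k : ℝ) ≤ |mean F (fun v => Φ (sH f g d v)) N -
          mean F (fun v => (Φ (sH f g 1 v) + Φ (inv (sH f g 1 v))) / 2) N|).card ≤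
      16 * (4 * R * k + 1) ^ g * k ^ 2 := by
  obtain ⟨Z, hZ, hgood⟩ := exists_good f hf hn
  obtain ⟨κ, hκ⟩ := exists_cells g R k hk
  filter_upwards [count_classes T hT hT' hZ ((4 * R * k + 1) ^ g) k hk] with N hN
  refine (Finset.card_le_card ?_).trans (hN (Fin g → ℝ) inv κ (sH f g 1) (sH f g) ?_)
  · intro d hd
    obtain ⟨hdT, Φ, hΦ, hge⟩ := Finset.mem_filter.1 hd
    obtain ⟨r, hr, hrep⟩ := hκ Φ hΦ
    refine Finset.mem_filter.2 ⟨hdT, Φ, hΦ.2, ⟨r, hr, fun v hv => ?_⟩, hge⟩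
    have hb : ∀ m, |sH f g 1 v m| ≤ R := fun m =>
      (sH_bound f g (hgood v hv) m).trans (by exact_mod_cast hR)
    refine ⟨hrep _ hb, hrep _ fun m => ?_⟩
    unfold inv
    rw [abs_mul, abs_pow, abs_neg, abs_one, one_pow, one_mul]
    exact hb m
  · intro d _ v _ h2d
    rw [sH_twist f g h2d]
    constructor
    · intro h
      funext m
      rw [h, one_pow, one_mul]
    · intro h
      funext m
      rw [h]
      rfl

end

end Pool.Agent.W529.ST
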