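import Pool.Agent.W529.ST.Box

/-! Uniform convergence over the test functions. -/

set_option autoImplicit false

namespace Pool.Agent.W529.ST

open Polynomial Pool.Agent.H126T NumberField IsDedekindDomain Filter Topology Pool.Agent.H341R2
  Pool.Agent.W353.TP

/-- a finite net of test functions on a box -/
theorem exists_net_box (g R : ℕ) {ε : ℝ} (hε : 0 < ε) :
    ∃ (s : ℕ) (h : Fin s → (Fin g → ℝ) → ℝ), (∀ i, Test (h i)) ∧
      ∀ Φ : (Fin g → ℝ) → ℝ, Test Φ →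
        ∃ i, ∀ y : Fin g → ℝ, (∀ m, |y m| ≤ R) → |Φ y - h i y| ≤ ε := by
  let X : Type := Set.Icc (-(R : ℝ)) R
  have hle : -(R : ℝ) ≤ R := by
    have : (0 : ℝ) ≤ R := Nat.cast_nonneg R
    linarith
  obtain ⟨s, h, hh, hnet⟩ := exists_net (Fin g → Set.Icc (-(R : ℝ)) R) hε
  let pr : (Fin g → ℝ) → (Fin g → Set.Icc (-(R : ℝ)) R) := fun y m => Set.projIcc _ _ hle (y m)
  have hpr : LipschitzWith 1 pr := by
    refine LipschitzWith.of_dist_le_mul fun y z => ?_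
    rw [NNReal.coe_one, one_mul, dist_pi_le_iff dist_nonneg]
    intro m
    have h1 := (LipschitzWith.projIcc hle).dist_le_mul (y m) (z m)
    rw [NNReal.coe_one, one_mul] at h1
    exact h1.trans (dist_le_pi_dist y z m)
  have hin : LipschitzWith 1 (fun (z : Fin g → Set.Icc (-(R : ℝ)) R) (m : Fin g) => (z m : ℝ)) := by
    refine LipschitzWith.of_dist_le_mul fun y z => ?_
    rw [NNReal.coe_one, one_mul, dist_pi_le_iff dist_nonneg]
    intro m
    exact dist_le_pi_dist y z m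
  refine ⟨s, fun i y => h i (pr y), fun i => ⟨?_, fun y => (hh i).2 _⟩, fun Φ hΦ => ?_⟩
  · have := (hh i).1.comp hpr
    rwa [mul_one] at this
  · obtain ⟨i, hi⟩ := hnet (fun z => Φ fun m => (z m : ℝ)) ⟨by
      have := hΦ.1.comp hin
      rwa [mul_one] at this, fun z => hΦ.2 _⟩
    refine ⟨i, fun y hy => ?_⟩
    have h1 := hi (pr y)
    have h2 : (fun m => ((pr y m : Set.Icc (-(R : ℝ)) R) : ℝ)) = y := by
      funext m
      have h3 : y m ∈ Set.Icc (-(R : ℝ)) R := abs_le.1 (hy m)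
      change ((Set.projIcc _ _ hle (y m) : Set.Icc (-(R : ℝ)) R) : ℝ) = y m
      rw [Set.projIcc_of_mem hle h3]
    rw [h2] at h1
    exact h1

section
variable {F : Type} [Field F] [NumberField F]

/-- pointwise convergence of the means is uniform over the test functions -/
theorem unif_conv {g R : ℕ} {Z : Set (HeightOneSpectrum (𝓞 F))} (hZ : Z.Finite)
    {s : HeightOneSpectrum (𝓞 F) → Fin g → ℝ} (hs : ∀ v, v ∉ Z → ∀ m, |s v m| ≤ R)
    (I : ((Fin g → ℝ) → ℝ) → ℝ)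
    (hI : ∀ Φ, Test Φ → Tendsto (mean F fun v => Φ (s v)) atTop (𝓝 (I Φ))) {ε : ℝ} (hε : 0 < ε) :
    ∀ᶠ N : ℕ in atTop, ∀ Φ, Test Φ → |mean F (fun v => Φ (s v)) N - I Φ| ≤ ε := by
  classical
  obtain ⟨r, h, hh, hnet⟩ := exists_net_box g R (ε := ε / 8) (by positivity)
  have hcl : ∀ᶠ N : ℕ in atTop, ∀ φ ψ : HeightOneSpectrum (𝓞 F) → ℝ, (∀ v, |φ v - ψ v| ≤ 2) →
      (∀ v, v ∉ Z → φ v = ψ v) → |mean F φ N - mean F ψ N| ≤ ε / 8 :=
    mean_off hZ (by positivity)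
  have hclose : ∀ᶠ N : ℕ in atTop, ∀ Φ Ψ : (Fin g → ℝ) → ℝ, Test Φ → Test Ψ →
      (∀ y : Fin g → ℝ, (∀ m, |y m| ≤ R) → |Φ y - Ψ y| ≤ ε / 8) →
      |mean F (fun v => Φ (s v)) N - mean F (fun v => Ψ (s v)) N| ≤ ε / 4 := by
    filter_upwards [hcl] with N hN Φ Ψ hΦ hΨ hc
    have h1 := hN (fun v => Φ (s v)) (fun v => if v ∈ Z then Ψ (s v) else Φ (s v))
      (fun v => by
        split_ifs
        · refine (abs_sub _ _).trans ?_
          linarith [hΦ.2 (s v), hΨ.2 (s v)]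
        · rw [sub_self, abs_zero]
          norm_num) (fun v hv => by simp only [if_neg hv])
    have h2 : |mean F (fun v => if v ∈ Z then Ψ (s v) else Φ (s v)) N -
        mean F (fun v => Ψ (s v)) N| ≤ ε / 8 := by
      refine mean_close (fun v => ?_) N
      split_ifs with hv
      · rw [sub_self, abs_zero]
        positivity
      · exact hc _ (hs v hv)
    calc |mean F (fun v => Φ (s v)) N - mean F (fun v => Ψ (s v)) N| ≤ _ := abs_sub_le _ _ _
      _ ≤ ε / 8 + ε / 8 := add_le_add h1 h2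
      _ = ε / 4 := by ring
  have hlim : ∀ᶠ N : ℕ in atTop, ∀ i, |mean F (fun v => h i (s v)) N - I (h i)| ≤ ε / 4 := by
    rw [eventually_all]
    intro i
    have h1 : Tendsto (fun N => |mean F (fun v => h i (s v)) N - I (h i)|) atTop (𝓝 0) := by
      have := ((hI (h i) (hh i)).sub_const (I (h i))).abs
      rwa [sub_self, abs_zero] at this
    exact h1.eventually_le_const (by positivity)
  have hIclose : ∀ Φ i, Test Φ → (∀ y : Fin g → ℝ, (∀ m, |y m| ≤ R) → |Φ y - h i y| ≤ ε / 8) →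
      |I Φ - I (h i)| ≤ ε / 4 := by
    intro Φ i hΦ hc
    refine le_of_tendsto ((hI Φ hΦ).sub (hI (h i) (hh i))).abs ?_
    filter_upwards [hclose] with N hN
    exact hN Φ (h i) hΦ (hh i) hc
  filter_upwards [hclose, hlim] with N h1 h2 Φ hΦ
  obtain ⟨i, hi⟩ := hnet Φ hΦ
  have e1 := abs_le.1 (h1 Φ (h i) hΦ (hh i) hi)
  have e2 := abs_le.1 (h2 i)
  have e3 := abs_le.1 (hIclose Φ i hΦ hi)
  rw [abs_le]
  constructor <;> linarith [e1.1, e1.2, e2.1, e2.2, e3.1, e3.2]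

open Classical in
/-- **Equidistribution for one twist gives it up to `1/k` for almost all twists.** -/
theorem count_curve_I (f : (𝓞 F)[X]) (hf : (f.map (algebraMap (𝓞 F) F)).Separable)
    (hn : 1 ≤ f.natDegree) (g R : ℕ) (hR : f.natDegree ≤ R) (T : Finset (𝓞 F))
    (hT : ∀ d ∈ T, d ≠ 0)
    (hT' : ∀ d ∈ T, ∀ d' ∈ T, d ≠ d' → ¬ IsSquare ((d * d' : 𝓞 F) : F)) (k : ℕ) (hk : 1 ≤ k)
    (I : ((Fin g → ℝ) → ℝ) → ℝ) (hI : ∀ Φ, Test Φ → I (fun s => Φ (inv s)) = I Φ)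
    (hlim : ∀ Φ, Test Φ → Tendsto (mean F fun v => Φ (sH f g 1 v)) atTop (𝓝 (I Φ))) :
    ∀ᶠ N : ℕ in atTop, (T.filter fun d => ∃ Φ : (Fin g → ℝ) → ℝ, Test Φ ∧
        1 / (k : ℝ) ≤ |mean F (fun v => Φ (sH f g d v)) N - I Φ|).card ≤
      16 * (4 * R * (2 * k) + 1) ^ g * (2 * k) ^ 2 := by
  have hkR : (0 : ℝ) < k := by exact_mod_cast hk
  obtain ⟨Z, hZ, hgood⟩ := exists_good f hf hn
  have hb : ∀ v, v ∉ Z → ∀ m, |sH f g 1 v m| ≤ R := fun v hv m =>
    (sH_bound f g (hgood v hv) m).trans (by exact_mod_cast hR)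
  have hinvL : LipschitzWith 1 (inv : (Fin g → ℝ) → Fin g → ℝ) := by
    refine LipschitzWith.of_dist_le_mul fun y z => ?_
    rw [NNReal.coe_one, one_mul, dist_pi_le_iff dist_nonneg]
    intro m
    have h1 : dist (inv y m) (inv z m) = dist (y m) (z m) := by
      unfold inv
      rw [Real.dist_eq, Real.dist_eq, ← mul_sub, abs_mul, abs_pow, abs_neg, abs_one, one_pow,
        one_mul]
    rw [h1]
    exact dist_le_pi_dist y z m
  have hTinv : ∀ Φ : (Fin g → ℝ) → ℝ, Test Φ → Test (fun s => Φ (inv s)) := by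
    intro Φ hΦ
    refine ⟨?_, fun y => hΦ.2 _⟩
    have := hΦ.1.comp hinvL
    rwa [mul_one] at this
  filter_upwards [count_curve f hf hn g R hR T hT hT' (2 * k) (by omega),
    unif_conv hZ hb I hlim (ε := 1 / (2 * k)) (by positivity)] with N h1 h2
  refine (Finset.card_le_card ?_).trans h1
  intro d hd
  obtain ⟨hdT, Φ, hΦ, hge⟩ := Finset.mem_filter.1 hd
  refine Finset.mem_filter.2 ⟨hdT, Φ, hΦ, ?_⟩
  have e1 := abs_le.1 (h2 Φ hΦ)
  have e2 := h2 _ (hTinv Φ hΦ)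
  rw [hI Φ hΦ] at e2
  have e2 := abs_le.1 e2
  have e3 : mean F (fun v => (Φ (sH f g 1 v) + Φ (inv (sH f g 1 v))) / 2) N =
      (mean F (fun v => Φ (sH f g 1 v)) N + mean F (fun v => Φ (inv (sH f g 1 v))) N) / 2 := by
    obtain ⟨t, _, _, hmean⟩ := mean_def (F := F) (fun _ => 0) N
    simp only [hmean]
    rw [← Finset.sum_div, Finset.sum_add_distrib]
    ring
  have e4 : (1 : ℝ) / ((2 * k : ℕ) : ℝ) = 1 / k - 1 / (2 * k) := by
    push_cast
    field_simp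
    norm_num
  rw [e3, e4]
  rcases le_abs.1 hge with h6 | h6
  · refine le_trans ?_ (le_abs_self _)
    linarith [e1.1, e1.2, e2.1, e2.2]
  · refine le_trans ?_ (neg_le_abs _)
    linarith [e1.1, e1.2, e2.1, e2.2]

end

end Pool.Agent.W529.ST
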