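import Pool.Agent.W529.ST.Uni

/-! Counting the exceptional twists. -/

set_option autoImplicit false

namespace Pool.Agent.W529.ST

open NumberField IsDedekindDomain Filter Topology Polynomial Pool.Agent.H341R2
open Pool.Agent.W353.TP Pool.Agent.W353.AB
open Pool.Agent.H921R2.TatePole (nm two_le_nm R hc R_eq_hc R_le kerPrime hom_finite)

section
variable {F : Type} [Field F] [NumberField F]

theorem mean_sum {ι : Type} (s : Finset ι) (φ : ι → HeightOneSpectrum (𝓞 F) → ℝ) (N : ℕ) :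
    mean F (fun v => ∑ i ∈ s, φ i v) N = ∑ i ∈ s, mean F (φ i) N := by
  obtain ⟨t, _, _, hmean⟩ := mean_def (F := F) (fun _ => 0) N
  simp only [hmean]
  rw [Finset.sum_comm, Finset.sum_div]

theorem mean_const_mul (c : ℝ) (φ : HeightOneSpectrum (𝓞 F) → ℝ) (N : ℕ) :
    mean F (fun v => c * φ v) N = c * mean F φ N := by
  obtain ⟨t, _, _, hmean⟩ := mean_def (F := F) (fun _ => 0) N
  simp only [hmean]
  rw [← Finset.mul_sum, mul_div_assoc]

theorem mean_mono {φ ψ : HeightOneSpectrum (𝓞 F) → ℝ} (h : ∀ v, φ v ≤ ψ v) (N : ℕ) :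
    mean F φ N ≤ mean F ψ N := by
  obtain ⟨t, _, _, hmean⟩ := mean_def (F := F) (fun _ => 0) N
  simp only [hmean]
  exact div_le_div_of_nonneg_right (Finset.sum_le_sum fun v _ => h v) (Nat.cast_nonneg _)

theorem mean_le_const {φ : HeightOneSpectrum (𝓞 F) → ℝ} {c : ℝ} (hc : 0 ≤ c) (h : ∀ v, φ v ≤ c)
    (N : ℕ) : mean F φ N ≤ c := by
  obtain ⟨t, _, _, hmean⟩ := mean_def (F := F) (fun _ => 0) N
  simp only [hmean]
  refine div_le_of_le_mul₀ (Nat.cast_nonneg _) hc ?_
  refine (Finset.sum_le_sum fun v _ => h v).trans ?_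
  rw [Finset.sum_const, nsmul_eq_mul, mul_comm]

open Classical in
/-- **Counting with cells.**  For a partition of the space of classes in `ν` cells, `i v` and `j v`
the cells of the class at `v` and of its image under the involution, at most `4 ν k²` twists are
exceptional for functions that are constant up to `1/(2k)` on the cells. -/
theorem count_cells {T : Finset (𝓞 F)} {N : ℕ} (hB : BP T 1 N) (ν k : ℕ) (hk : 1 ≤ k)
    (i j : HeightOneSpectrum (𝓞 F) → Fin ν) :
    (T.filter fun d => ∃ (r : Fin ν → ℝ) (A B : HeightOneSpectrum (𝓞 F) → ℝ),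
      (∀ c, |r c| ≤ 1) ∧ (∀ v, |A v - r (i v)| ≤ 1 / (2 * k)) ∧
      (∀ v, |B v - r (j v)| ≤ 1 / (2 * k)) ∧
      1 / (k : ℝ) ≤ |mean F (fun v => ch d v * ((A v - B v) / 2)) N|).card ≤ 4 * ν * k ^ 2 := by
  have hkR : (0 : ℝ) < k := by exact_mod_cast hk
  set E := T.filter fun d => ∃ (r : Fin ν → ℝ) (A B : HeightOneSpectrum (𝓞 F) → ℝ),
      (∀ c, |r c| ≤ 1) ∧ (∀ v, |A v - r (i v)| ≤ 1 / (2 * k)) ∧
      (∀ v, |B v - r (j v)| ≤ 1 / (2 * k)) ∧
      1 / (k : ℝ) ≤ |mean F (fun v => ch d v * ((A v - B v) / 2)) N| with hE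
  let h : Fin ν → HeightOneSpectrum (𝓞 F) → ℝ := fun c v =>
    ((if i v = c then 1 else 0) - (if j v = c then 1 else 0)) / 2
  let y : Fin ν → 𝓞 F → ℝ := fun c d => mean F (fun v => h c v * ch d v) N
  have h1 : ∀ d ∈ E, 1 / (4 * (k : ℝ) ^ 2) ≤ ν * ∑ c, y c d ^ 2 := by
    intro d hd
    obtain ⟨hdT, r, A, B, hr, hA, hB', hge⟩ := Finset.mem_filter.1 hd
    have e1 : mean F (fun v => ch d v * ((r (i v) - r (j v)) / 2)) N = ∑ c, r c * y c d := by
      have e2 : (fun v => ch d v * ((r (i v) - r (j v)) / 2)) =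
          fun v => ∑ c, r c * (h c v * ch d v) := by
        funext v
        have e3 : ∑ c, r c * (h c v * ch d v) =
            ch d v * (((∑ c, (if i v = c then r c else 0)) -
              ∑ c, (if j v = c then r c else 0)) / 2) := by
          rw [← Finset.sum_sub_distrib, Finset.sum_div, Finset.mul_sum]
          refine Finset.sum_congr rfl fun c _ => ?_
          change r c * (((if i v = c then 1 else 0) - (if j v = c then 1 else 0)) / 2 * ch d v) = _
          split_ifs <;> ring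
        rw [e3, Finset.sum_ite_eq, Finset.sum_ite_eq, if_pos (Finset.mem_univ _),
          if_pos (Finset.mem_univ _)]
      rw [e2, mean_sum]
      exact Finset.sum_congr rfl fun c _ => mean_const_mul _ _ _
    have e4 : |mean F (fun v => ch d v * ((A v - B v) / 2)) N -
        mean F (fun v => ch d v * ((r (i v) - r (j v)) / 2)) N| ≤ 1 / (2 * k) := by
      refine mean_close (fun v => ?_) N
      have e5 : ch d v * ((A v - B v) / 2) - ch d v * ((r (i v) - r (j v)) / 2) =
          ch d v * (((A v - r (i v)) - (B v - r (j v))) / 2) := by ring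
      rw [e5, abs_mul]
      have e6 : |((A v - r (i v)) - (B v - r (j v))) / 2| ≤ 1 / (2 * k) := by
        have h1 := abs_le.1 (hA v)
        have h2 := abs_le.1 (hB' v)
        rw [abs_le]
        constructor <;> linarith [h1.1, h1.2, h2.1, h2.2]
      calc |ch d v| * |((A v - r (i v)) - (B v - r (j v))) / 2| ≤ 1 * (1 / (2 * k)) :=
            mul_le_mul (ch_abs d v) e6 (abs_nonneg _) zero_le_one
        _ = _ := one_mul _
    have e5 : 1 / (2 * (k : ℝ)) ≤ |∑ c, r c * y c d| := by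
      rw [← e1]
      have e6 : (1 : ℝ) / k = 2 * (1 / (2 * k)) := by field_simp
      have e7 := abs_sub_abs_le_abs_sub (mean F (fun v => ch d v * ((A v - B v) / 2)) N)
        (mean F (fun v => ch d v * ((r (i v) - r (j v)) / 2)) N)
      rw [e6] at hge
      linarith
    have e6 : (∑ c, r c * y c d) ^ 2 ≤ (∑ c, r c ^ 2) * ∑ c, y c d ^ 2 :=
      Finset.sum_mul_sq_le_sq_mul_sq _ _ _
    have e7 : ∑ c, r c ^ 2 ≤ (ν : ℝ) := by
      refine (Finset.sum_le_sum fun c _ => (sq_le_one_iff_abs_le_one _).2 (hr c)).trans ?_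
      simp
    have e8 : (1 / (2 * (k : ℝ))) ^ 2 ≤ (∑ c, r c * y c d) ^ 2 := by
      rw [← sq_abs (∑ c, r c * y c d)]
      exact pow_le_pow_left₀ (by positivity) e5 2
    have e9 : (1 / (2 * (k : ℝ))) ^ 2 = 1 / (4 * (k : ℝ) ^ 2) := by
      field_simp
      norm_num
    rw [e9] at e8
    refine e8.trans (e6.trans ?_)
    exact mul_le_mul_of_nonneg_right e7 (Finset.sum_nonneg fun c _ => sq_nonneg _)
  have h2 : ∑ d ∈ E, ∑ c, y c d ^ 2 ≤ 1 := by
    calc ∑ d ∈ E, ∑ c, y c d ^ 2 ≤ ∑ d ∈ T, ∑ c, y c d ^ 2 :=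
          Finset.sum_le_sum_of_subset_of_nonneg (Finset.filter_subset _ _)
            fun d _ _ => Finset.sum_nonneg fun c _ => sq_nonneg _
      _ = ∑ c, ∑ d ∈ T, y c d ^ 2 := Finset.sum_comm
      _ ≤ ∑ c, (1 + 1) * mean F (fun v => h c v ^ 2) N := Finset.sum_le_sum fun c _ => hB (h c)
      _ = mean F (fun v => ∑ c, (1 + 1) * h c v ^ 2) N := by
          rw [mean_sum]
          exact Finset.sum_congr rfl fun c _ => (mean_const_mul _ _ _).symm
      _ ≤ 1 := by
          refine mean_le_const zero_le_one (fun v => ?_) N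
          have e1 : ∀ c, (1 + 1) * h c v ^ 2 ≤
              (1 / 2) * (if i v = c then 1 else 0) + (1 / 2) * (if j v = c then 1 else 0) := by
            intro c
            change (1 + 1) * (((if i v = c then 1 else 0) - (if j v = c then 1 else 0)) / 2) ^ 2 ≤ _
            split_ifs <;> norm_num
          refine (Finset.sum_le_sum fun c _ => e1 c).trans ?_
          rw [Finset.sum_add_distrib, ← Finset.mul_sum, ← Finset.mul_sum, Finset.sum_ite_eq,
            Finset.sum_ite_eq, if_pos (Finset.mem_univ _), if_pos (Finset.mem_univ _)]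
          norm_num
  have h3 : (E.card : ℝ) * (1 / (4 * (k : ℝ) ^ 2)) ≤ ν := by
    calc (E.card : ℝ) * (1 / (4 * (k : ℝ) ^ 2)) = ∑ d ∈ E, 1 / (4 * (k : ℝ) ^ 2) := by
          rw [Finset.sum_const, nsmul_eq_mul]
      _ ≤ ∑ d ∈ E, ν * ∑ c, y c d ^ 2 := Finset.sum_le_sum h1
      _ = ν * ∑ d ∈ E, ∑ c, y c d ^ 2 := by rw [Finset.mul_sum]
      _ ≤ ν * 1 := mul_le_mul_of_nonneg_left h2 (Nat.cast_nonneg _)
      _ = ν := mul_one _
  have h4 : (E.card : ℝ) ≤ ((4 * ν * k ^ 2 : ℕ) : ℝ) := by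
    rw [mul_one_div, div_le_iff₀ (by positivity)] at h3
    push_cast
    linarith
  exact_mod_cast h4

end

end Pool.Agent.W529.ST
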