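import Pool.Agent.W529.ST.Conv

/-! Double covers of projective space: points and quadratic twists. -/

set_option autoImplicit false

namespace Pool.Agent.W529.ST

open Pool.Agent.H126T NumberField IsDedekindDomain Filter Topology Pool.Agent.H341R2
  Pool.Agent.W353.TP

/-- the points of the cone over the double cover `d w² = G(x)` -/
noncomputable def conePts (k : Type) [Field k] {r : ℕ} (G : MvPolynomial (Fin r) k) (d : k) (m : ℕ) :
    ℕ :=
  Nat.card {P : (Fin r → AlgebraicClosure k) × AlgebraicClosure k //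
    (∀ i, P.1 i ^ (Nat.card k ^ m) = P.1 i) ∧ P.2 ^ (Nat.card k ^ m) = P.2 ∧ P.1 ≠ 0 ∧
    algebraMap k (AlgebraicClosure k) d * P.2 ^ 2 = MvPolynomial.aeval P.1 G}

section
variable {k : Type} [Field k] [Finite k]

theorem conePts_eq {r : ℕ} (G : MvPolynomial (Fin r) k) (d : k) (m : ℕ) (E : Type) [Field E]
    [Finite E] [Algebra k E] (hE : Nat.card E = Nat.card k ^ m) :
    conePts k G d m = Nat.card {P : (Fin r → E) × E // P.1 ≠ 0 ∧
      algebraMap k E d * P.2 ^ 2 = MvPolynomial.aeval P.1 G} := by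
  classical
  have : Module.Finite k E := Module.Finite.of_finite
  have : Algebra.IsAlgebraic k E := Algebra.IsAlgebraic.of_finite k E
  let g : E →ₐ[k] AlgebraicClosure k := IsAlgClosed.lift
  let _ : Algebra E (AlgebraicClosure k) := g.toRingHom.toAlgebra
  let _ := Fintype.ofFinite E
  have hg : ∀ x : E, algebraMap E (AlgebraicClosure k) x = g x := fun x => rfl
  have hfix : ∀ x : E, g x ^ (Nat.card k ^ m) = g x := by
    intro x
    rw [← map_pow, ← hE, Nat.card_eq_fintype_card, FiniteField.pow_card]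
  have haev : ∀ x : Fin r → E, MvPolynomial.aeval (fun i => g (x i)) G =
      g (MvPolynomial.aeval x G) := by
    intro x
    rw [← MvPolynomial.comp_aeval_apply]
  unfold conePts
  refine (Nat.card_congr (Equiv.ofBijective (fun P : {P : (Fin r → E) × E // P.1 ≠ 0 ∧
    algebraMap k E d * P.2 ^ 2 = MvPolynomial.aeval P.1 G} =>
      (⟨(fun i => g (P.1.1 i), g P.1.2), fun i => hfix _, hfix _, by
        intro h
        apply P.2.1
        funext i
        have h1 := congrFun h i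
        change g (P.1.1 i) = 0 at h1
        exact (map_eq_zero g).1 h1, by
      have := congrArg g P.2.2
      rw [map_mul, map_pow, AlgHom.commutes] at this
      rw [haev]
      exact this⟩ : {P : (Fin r → AlgebraicClosure k) × AlgebraicClosure k //
    (∀ i, P.1 i ^ (Nat.card k ^ m) = P.1 i) ∧ P.2 ^ (Nat.card k ^ m) = P.2 ∧ P.1 ≠ 0 ∧
    algebraMap k (AlgebraicClosure k) d * P.2 ^ 2 = MvPolynomial.aeval P.1 G}))
      ⟨?_, ?_⟩)).symm
  · rintro ⟨⟨x, y⟩, hP⟩ ⟨⟨x', y'⟩, hP'⟩ h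
    simp only [Subtype.mk.injEq, Prod.mk.injEq] at h
    apply Subtype.ext
    apply Prod.ext
    · funext i
      exact g.toRingHom.injective (congrFun h.1 i)
    · exact g.toRingHom.injective h.2
  · rintro ⟨⟨x, y⟩, h1, h2, h0, h3⟩
    simp only at h1 h2 h0 h3
    rw [← hE] at h1 h2
    choose a ha using fun i => pow_mem_range (E := E) (h1 i)
    obtain ⟨b, hb⟩ := pow_mem_range (E := E) h2
    simp only [hg] at ha
    rw [hg] at hb
    have hx : (fun i => g (a i)) = x := funext ha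
    refine ⟨⟨(a, b), ?_, ?_⟩, ?_⟩
    · rintro rfl
      apply h0
      rw [← hx]
      funext i
      exact map_zero g
    · apply g.toRingHom.injective
      change g (algebraMap k E d * b ^ 2) = g (MvPolynomial.aeval a G)
      rw [map_mul, map_pow, AlgHom.commutes, ← haev, hx, hb]
      exact h3
    · apply Subtype.ext
      apply Prod.ext
      · exact hx
      · exact hb

end

section
variable {E : Type} [Field E] [Fintype E] [DecidableEq E]

theorem card_cone (hE : ringChar E ≠ 2) {r : ℕ} (G : (Fin r → E) → E) (d : E) (hd : d ≠ 0) :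
    (Nat.card {P : (Fin r → E) × E // P.1 ≠ 0 ∧ d * P.2 ^ 2 = G P.1} : ℤ) =
      ((Fintype.card E : ℤ) ^ r - 1) +
        quadraticChar E d * ∑ x : {x : Fin r → E // x ≠ 0}, quadraticChar E (G x.1) := by
  have h1 : Nat.card {P : (Fin r → E) × E // P.1 ≠ 0 ∧ d * P.2 ^ 2 = G P.1} =
      ∑ x : {x : Fin r → E // x ≠ 0}, Nat.card {z : E // d * z ^ 2 = G x.1} := by
    have e : {P : (Fin r → E) × E // P.1 ≠ 0 ∧ d * P.2 ^ 2 = G P.1} ≃
        Σ x : {x : Fin r → E // x ≠ 0}, {z : E // d * z ^ 2 = G x.1} :=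
      { toFun := fun P => ⟨⟨P.1.1, P.2.1⟩, P.1.2, P.2.2⟩
        invFun := fun P => ⟨(P.1.1, P.2.1), P.1.2, P.2.2⟩
        left_inv := fun P => rfl
        right_inv := fun P => rfl }
    rw [Nat.card_congr e, Nat.card_sigma]
  rw [h1]
  push_cast
  rw [Finset.sum_congr rfl fun x _ => H341R2.card_sqrt hE d (G x.1) hd,
    Finset.sum_add_distrib, ← Finset.mul_sum, Finset.sum_const, Finset.card_univ]
  have h2 : (Fintype.card {x : Fin r → E // x ≠ 0} : ℤ) = (Fintype.card E : ℤ) ^ r - 1 := by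
    have h3 := Fintype.card_subtype_compl (fun x : Fin r → E => x = 0)
    rw [Fintype.card_subtype_eq, Fintype.card_fun, Fintype.card_fin] at h3
    have h4 : 1 ≤ Fintype.card E ^ r := Nat.one_le_pow _ _ Fintype.card_pos
    have h5 : Fintype.card {x : Fin r → E // x ≠ 0} = Fintype.card E ^ r - 1 := by
      rw [← h3]
    rw [h5]
    push_cast [h4]
    ring
  rw [nsmul_eq_mul, mul_one, h2]
  ring

end

section
variable {k : Type} [Field k] [Fintype k] [DecidableEq k]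

/-- the number of points of the double cover, minus the number of points of projective space, times
`q^m - 1` -/
theorem cone_twist (hk : ringChar k ≠ 2) {r : ℕ} (G : MvPolynomial (Fin r) k) {d : k} (hd : d ≠ 0)
    {m : ℕ} (hm : m ≠ 0) :
    (conePts k G d m : ℤ) - (((Nat.card k : ℤ) ^ m) ^ r - 1) =
      quadraticChar k d ^ m * ((conePts k G 1 m : ℤ) - (((Nat.card k : ℤ) ^ m) ^ r - 1)) := by
  classical
  obtain ⟨E, i1, i2, i3, hE⟩ := exists_ext (k := k) m hm
  let _ := Fintype.ofFinite E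
  have hE2 : ringChar E ≠ 2 := by rwa [← Algebra.ringChar_eq k E]
  have hcard : (Fintype.card E : ℤ) = (Nat.card k : ℤ) ^ m := by
    rw [← Nat.card_eq_fintype_card, hE]
    push_cast
    rfl
  have key : ∀ c : k, c ≠ 0 → (conePts k G c m : ℤ) - (((Nat.card k : ℤ) ^ m) ^ r - 1) =
      quadraticChar E (algebraMap k E c) *
        ∑ x : {x : Fin r → E // x ≠ 0}, quadraticChar E (MvPolynomial.aeval x.1 G) := by
    intro c hc
    have hc' : algebraMap k E c ≠ 0 := by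
      rwa [Ne, FaithfulSMul.algebraMap_eq_zero_iff]
    rw [conePts_eq G c m E hE, card_cone hE2 (fun x => MvPolynomial.aeval x G) _ hc', hcard]
    ring
  rw [key d hd, key 1 one_ne_zero, map_one, map_one, quadraticChar_ext hk hE hd]
  ring

end

section
variable {F : Type} [Field F] [NumberField F]

/-- the points of the cone over the reduction -/
noncomputable def coneV (v : HeightOneSpectrum (𝓞 F)) {r : ℕ} (G : MvPolynomial (Fin r) (𝓞 F))
    (d : 𝓞 F) (m : ℕ) : ℕ :=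
  haveI : v.asIdeal.IsMaximal := v.isMaximal
  letI : Field (𝓞 F ⧸ v.asIdeal) := Ideal.Quotient.field v.asIdeal
  conePts (𝓞 F ⧸ v.asIdeal) (MvPolynomial.map (Ideal.Quotient.mk v.asIdeal) G)
    (Ideal.Quotient.mk v.asIdeal d) m

/-- the trace on the primitive part, times `q^m - 1` -/
noncomputable def tV (v : HeightOneSpectrum (𝓞 F)) {r : ℕ} (G : MvPolynomial (Fin r) (𝓞 F))
    (d : 𝓞 F) (m : ℕ) : ℝ :=
  (coneV v G d m : ℝ) - (((Nat.card (𝓞 F ⧸ v.asIdeal) : ℝ) ^ m) ^ r - 1)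

theorem tV_twist (v : HeightOneSpectrum (𝓞 F)) {r : ℕ} (G : MvPolynomial (Fin r) (𝓞 F)) {d : 𝓞 F}
    (h2d : 2 * d ∉ v.asIdeal) {m : ℕ} (hm : m ≠ 0) :
    tV v G d m = ch d v ^ m * tV v G 1 m := by
  classical
  have : v.asIdeal.IsMaximal := v.isMaximal
  let _ : Field (𝓞 F ⧸ v.asIdeal) := Ideal.Quotient.field v.asIdeal
  have hfin : Finite (𝓞 F ⧸ v.asIdeal) := Ring.HasFiniteQuotients.finiteQuotient v.ne_bot
  let _ := Fintype.ofFinite (𝓞 F ⧸ v.asIdeal)
  have hd : Ideal.Quotient.mk v.asIdeal d ≠ 0 := by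
    intro h0
    exact h2d (Ideal.mul_mem_left _ _ (Ideal.Quotient.eq_zero_iff_mem.1 h0))
  have h2 : ringChar (𝓞 F ⧸ v.asIdeal) ≠ 2 := by
    intro h
    apply h2d
    refine Ideal.mul_mem_right _ _ (Ideal.Quotient.eq_zero_iff_mem.1 ?_)
    have h3 : ((2 : ℕ) : 𝓞 F ⧸ v.asIdeal) = 0 := (ringChar.spec _ 2).2 (by rw [h])
    rw [map_ofNat]
    exact_mod_cast h3
  have h3 := cone_twist h2 (MvPolynomial.map (Ideal.Quotient.mk v.asIdeal) G) hd hm
  have h4 : ∀ e : 𝓞 F, tV v G e m = (((conePts (𝓞 F ⧸ v.asIdeal)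
      (MvPolynomial.map (Ideal.Quotient.mk v.asIdeal) G) (Ideal.Quotient.mk v.asIdeal e) m : ℤ) -
      (((Nat.card (𝓞 F ⧸ v.asIdeal) : ℤ) ^ m) ^ r - 1) : ℤ) : ℝ) := by
    intro e
    unfold tV coneV
    push_cast
    rfl
  rw [h4, h4, h3, map_one]
  push_cast
  congr 2
  rcases ch_dichotomy d h2d with ⟨h6, h7⟩ | ⟨h6, h7⟩
  · rw [h7, (quadraticChar_one_iff_isSquare hd).2 h6]
    norm_num
  · rw [h7, quadraticChar_neg_one_iff_not_isSquare.2 h6]
    norm_num

/-- test functions that vanish outside a box -/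
def TestB (g R : ℕ) (Φ : (Fin g → ℝ) → ℝ) : Prop :=
  Test Φ ∧ ∀ y : Fin g → ℝ, (∃ m, (R : ℝ) < |y m|) → Φ y = 0

/-- a finite net of test functions that vanish outside a box -/
theorem exists_net_B (g R : ℕ) {ε : ℝ} (hε : 0 < ε) :
    ∃ (s : ℕ) (h : Fin s → (Fin g → ℝ) → ℝ), (∀ i, TestB g R (h i)) ∧
      ∀ Φ : (Fin g → ℝ) → ℝ, TestB g R Φ → ∃ i, ∀ y : Fin g → ℝ, |Φ y - h i y| ≤ ε := by
  classical
  obtain ⟨s, h, hh, hnet⟩ := exists_net_box g R (ε := ε / 2) (by positivity)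
  let h' : Fin s → (Fin g → ℝ) → ℝ := fun i =>
    if hex : ∃ Φ, TestB g R Φ ∧ ∀ y : Fin g → ℝ, (∀ m, |y m| ≤ R) → |Φ y - h i y| ≤ ε / 2
      then hex.choose else fun _ => 0
  refine ⟨s, h', fun i => ?_, fun Φ hΦ => ?_⟩
  · by_cases hex : ∃ Φ, TestB g R Φ ∧ ∀ y : Fin g → ℝ, (∀ m, |y m| ≤ R) → |Φ y - h i y| ≤ ε / 2
    · have e1 : h' i = hex.choose := dif_pos hex
      rw [e1]
      exact hex.choose_spec.1
    · have e1 : h' i = fun _ => 0 := dif_neg hex
      rw [e1]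
      exact ⟨⟨LipschitzWith.const' 0, fun y => by simp⟩, fun y _ => rfl⟩
  · obtain ⟨i, hi⟩ := hnet Φ hΦ.1
    have hex : ∃ Φ, TestB g R Φ ∧ ∀ y : Fin g → ℝ, (∀ m, |y m| ≤ R) → |Φ y - h i y| ≤ ε / 2 :=
      ⟨Φ, hΦ, hi⟩
    have e1 : h' i = hex.choose := dif_pos hex
    refine ⟨i, fun y => ?_⟩
    rw [e1]
    by_cases hy : ∀ m, |y m| ≤ R
    · have h1 := hi y hy
      have h2 := hex.choose_spec.2 y hy
      rw [abs_sub_comm] at h2
      calc |Φ y - hex.choose y| ≤ |Φ y - h i y| + |h i y - hex.choose y| := abs_sub_le _ _ _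
        _ ≤ ε / 2 + ε / 2 := add_le_add h1 h2
        _ = ε := by ring
    · push Not at hy
      rw [hΦ.2 y hy, hex.choose_spec.1.2 y hy, sub_self, abs_zero]
      exact hε.le

theorem unif_conv_B {g R : ℕ} {s : HeightOneSpectrum (𝓞 F) → Fin g → ℝ}
    (I : ((Fin g → ℝ) → ℝ) → ℝ)
    (hI : ∀ Φ, TestB g R Φ → Tendsto (mean F fun v => Φ (s v)) atTop (𝓝 (I Φ))) {ε : ℝ}
    (hε : 0 < ε) :
    ∀ᶠ N : ℕ in atTop, ∀ Φ, TestB g R Φ → |mean F (fun v => Φ (s v)) N - I Φ| ≤ ε := by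
  obtain ⟨r, h, hh, hnet⟩ := exists_net_B g R (ε := ε / 4) (by positivity)
  have hlim : ∀ᶠ N : ℕ in atTop, ∀ i, |mean F (fun v => h i (s v)) N - I (h i)| ≤ ε / 4 := by
    rw [eventually_all]
    intro i
    have h1 : Tendsto (fun N => |mean F (fun v => h i (s v)) N - I (h i)|) atTop (𝓝 0) := by
      have := ((hI (h i) (hh i)).sub_const (I (h i))).abs
      rwa [sub_self, abs_zero] at this
    exact h1.eventually_le_const (by positivity)
  filter_upwards [hlim] with N h2 Φ hΦ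
  obtain ⟨i, hi⟩ := hnet Φ hΦ
  have e1 := abs_le.1 (mean_close (F := F) (fun v => hi (s v)) N)
  have e2 := abs_le.1 (h2 i)
  have e3 : |I Φ - I (h i)| ≤ ε / 4 :=
    le_of_tendsto ((hI Φ hΦ).sub (hI (h i) (hh i))).abs
      (Eventually.of_forall fun N => mean_close (F := F) (fun v => hi (s v)) N)
  have e3 := abs_le.1 e3
  rw [abs_le]
  constructor <;> linarith [e1.1, e1.2, e2.1, e2.2, e3.1, e3.2]

open Classical in
/-- **The number of exceptional twists**, for functions that vanish outside a box. -/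
theorem count_B (g R : ℕ) (T : Finset (𝓞 F)) (hT : ∀ d ∈ T, d ≠ 0)
    (hT' : ∀ d ∈ T, ∀ d' ∈ T, d ≠ d' → ¬ IsSquare ((d * d' : 𝓞 F) : F)) (k : ℕ) (hk : 1 ≤ k)
    (s : 𝓞 F → HeightOneSpectrum (𝓞 F) → Fin g → ℝ)
    (hs : ∀ d ∈ T, ∀ v : HeightOneSpectrum (𝓞 F), 2 * d ∉ v.asIdeal →
      s d v = fun m : Fin g => ch d v ^ ((m : ℕ) + 1) * s 1 v m) :
    ∀ᶠ N : ℕ in atTop, (T.filter fun d => ∃ Φ : (Fin g → ℝ) → ℝ, TestB g R Φ ∧
        1 / (k : ℝ) ≤ |mean F (fun v => Φ (s d v)) N -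
          mean F (fun v => (Φ (s 1 v) + Φ (inv (s 1 v))) / 2) N|).card ≤
      16 * ((4 * R * k + 1) ^ g + 1) * k ^ 2 := by
  obtain ⟨κ, hκ⟩ := exists_cells g R k hk
  have hkR : (0 : ℝ) < k := by exact_mod_cast hk
  filter_upwards [count_classes T hT hT' Set.finite_empty ((4 * R * k + 1) ^ g + 1) k hk] with N hN
  let κ' : (Fin g → ℝ) → Fin ((4 * R * k + 1) ^ g + 1) := fun y =>
    if ∀ m, |y m| ≤ R then (κ y).castSucc else Fin.last _
  refine (Finset.card_le_card ?_).trans (hN (Fin g → ℝ) inv κ' (s 1) s ?_)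
  · intro d hd
    obtain ⟨hdT, Φ, hΦ, hge⟩ := Finset.mem_filter.1 hd
    obtain ⟨r, hr, hrep⟩ := hκ Φ hΦ.1
    let r' : Fin ((4 * R * k + 1) ^ g + 1) → ℝ := Fin.lastCases 0 r
    have hr'1 : ∀ c, r' c.castSucc = r c := fun c => Fin.lastCases_castSucc _
    have hr'2 : r' (Fin.last _) = 0 := Fin.lastCases_last
    have key : ∀ y : Fin g → ℝ, |Φ y - r' (κ' y)| ≤ 1 / (4 * k) := by
      intro y
      by_cases hy : ∀ m, |y m| ≤ R
      · have e1 : κ' y = (κ y).castSucc := if_pos hy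
        rw [e1, hr'1]
        exact hrep y hy
      · have e1 : κ' y = Fin.last _ := if_neg hy
        push Not at hy
        rw [e1, hr'2, hΦ.2 y hy, sub_zero, abs_zero]
        positivity
    refine Finset.mem_filter.2 ⟨hdT, Φ, hΦ.1.2, ⟨r', fun c => ?_, fun v _ => ⟨key _, key _⟩⟩, hge⟩
    induction c using Fin.lastCases with
    | last => rw [hr'2]; simp
    | cast c => rw [hr'1]; exact hr c
  · intro d hd v _ h2d
    rw [hs d hd v h2d]
    constructor
    · intro h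
      funext m
      rw [h, one_pow, one_mul]
    · intro h
      funext m
      rw [h]
      rfl

open Classical in
theorem count_BI (g R : ℕ) (T : Finset (𝓞 F)) (hT : ∀ d ∈ T, d ≠ 0)
    (hT' : ∀ d ∈ T, ∀ d' ∈ T, d ≠ d' → ¬ IsSquare ((d * d' : 𝓞 F) : F)) (k : ℕ) (hk : 1 ≤ k)
    (s : 𝓞 F → HeightOneSpectrum (𝓞 F) → Fin g → ℝ)
    (hs : ∀ d ∈ T, ∀ v : HeightOneSpectrum (𝓞 F), 2 * d ∉ v.asIdeal →
      s d v = fun m : Fin g => ch d v ^ ((m : ℕ) + 1) * s 1 v m)
    (I : ((Fin g → ℝ) → ℝ) → ℝ) (hI : ∀ Φ, TestB g R Φ → I (fun s => Φ (inv s)) = I Φ)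
    (hlim : ∀ Φ, TestB g R Φ → Tendsto (mean F fun v => Φ (s 1 v)) atTop (𝓝 (I Φ))) :
    ∀ᶠ N : ℕ in atTop, (T.filter fun d => ∃ Φ : (Fin g → ℝ) → ℝ, TestB g R Φ ∧
        1 / (k : ℝ) ≤ |mean F (fun v => Φ (s d v)) N - I Φ|).card ≤
      16 * ((4 * R * (2 * k) + 1) ^ g + 1) * (2 * k) ^ 2 := by
  have hkR : (0 : ℝ) < k := by exact_mod_cast hk
  have hinvL : LipschitzWith 1 (inv : (Fin g → ℝ) → Fin g → ℝ) := by
    refine LipschitzWith.of_dist_le_mul fun y z => ?_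
    rw [NNReal.coe_one, one_mul, dist_pi_le_iff dist_nonneg]
    intro m
    have h1 : dist (inv y m) (inv z m) = dist (y m) (z m) := by
      unfold inv
      rw [Real.dist_eq, Real.dist_eq, ← mul_sub, abs_mul, abs_pow, abs_neg, abs_one, one_pow,
        one_mul]
    rw [h1]
    exact dist_le_pi_dist y z m
  have hTinv : ∀ Φ : (Fin g → ℝ) → ℝ, TestB g R Φ → TestB g R (fun s => Φ (inv s)) := by
    intro Φ hΦ
    refine ⟨⟨?_, fun y => hΦ.1.2 _⟩, fun y hy => hΦ.2 _ ?_⟩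
    · have := hΦ.1.1.comp hinvL
      rwa [mul_one] at this
    · obtain ⟨m, hm⟩ := hy
      refine ⟨m, ?_⟩
      unfold inv
      rw [abs_mul, abs_pow, abs_neg, abs_one, one_pow, one_mul]
      exact hm
  filter_upwards [count_B g R T hT hT' (2 * k) (by omega) s hs,
    unif_conv_B I hlim (ε := 1 / (2 * k)) (by positivity)] with N h1 h2
  refine (Finset.card_le_card ?_).trans h1
  intro d hd
  obtain ⟨hdT, Φ, hΦ, hge⟩ := Finset.mem_filter.1 hd
  refine Finset.mem_filter.2 ⟨hdT, Φ, hΦ, ?_⟩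
  have e1 := abs_le.1 (h2 Φ hΦ)
  have e2 := h2 _ (hTinv Φ hΦ)
  rw [hI Φ hΦ] at e2
  have e2 := abs_le.1 e2
  have e3 : mean F (fun v => (Φ (s 1 v) + Φ (inv (s 1 v))) / 2) N =
      (mean F (fun v => Φ (s 1 v)) N + mean F (fun v => Φ (inv (s 1 v))) N) / 2 := by
    obtain ⟨t, _, _, hmean⟩ := mean_def (F := F) (fun _ => 0) N
    simp only [hmean]
    rw [← Finset.sum_div, Finset.sum_add_distrib]
    ring
  have e4 : (1 : ℝ) / ((2 * k : ℕ) : ℝ) = 1 / k - 1 / (2 * k) := by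
    push_cast
    field_simp
    norm_num
  rw [e3, e4]
  rcases le_abs.1 hge with h6 | h6
  · refine le_trans ?_ (le_abs_self _)
    linarith [e1.1, e1.2, e2.1, e2.2]
  · refine le_trans ?_ (neg_le_abs _)
    linarith [e1.1, e1.2, e2.1, e2.2]

end

end Pool.Agent.W529.ST
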