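import Pool.Agent.W529.ST.Prim
import Pool.Agent.H126T.End

/-! Quadratic twists of hyperelliptic curves over finite fields, all traces. -/

set_option autoImplicit false

namespace Pool.Agent.W529.ST

open Polynomial Pool.Agent.H126T NumberField IsDedekindDomain Filter Topology Pool.Agent.H341R2
  Pool.Agent.W353.TP
open Pool.Agent.H921R2.TatePole (nm two_le_nm R hc R_eq_hc R_le kerPrime hom_finite below deg nm_eq
  below_le_nm fiber_finite fiber_card_le)

/-- the trace of the `m`-th power of Frobenius on `H¹` of `d y² = f(x)` over the finite field `k` -/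
noncomputable def trF (k : Type) [Field k] (f : k[X]) (d : k) (m : ℕ) : ℤ :=
  (Nat.card k : ℤ) ^ m + 1 - (affPts k f d m + 1)

set_option linter.unusedSectionVars false

section
variable {k : Type} [Field k] [Fintype k] [DecidableEq k]

/-- the quadratic character of an extension on the base field -/
theorem quadraticChar_ext (hk : ringChar k ≠ 2) {E : Type} [Field E] [Fintype E] [DecidableEq E]
    [Algebra k E] {m : ℕ} (hE : Nat.card E = Nat.card k ^ m) {d : k} (hd : d ≠ 0) :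
    quadraticChar E (algebraMap k E d) = quadraticChar k d ^ m := by
  have hE2 : ringChar E ≠ 2 := by rwa [← Algebra.ringChar_eq k E]
  have hd' : algebraMap k E d ≠ 0 := by
    rwa [Ne, FaithfulSMul.algebraMap_eq_zero_iff]
  have hodd : Odd (Fintype.card k) := Nat.odd_iff.2 (FiniteField.odd_card_of_char_ne_two hk)
  rw [Nat.card_eq_fintype_card, Nat.card_eq_fintype_card] at hE
  set q := Fintype.card k with hq
  obtain ⟨j, hj⟩ := hodd
  have hgeom : (∑ i ∈ Finset.range m, q ^ i) * (2 * j) + 1 = q ^ m := by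
    have := geom_sum_mul_add (2 * j) m
    rw [← hj] at this
    exact this
  have hhalf : q ^ m / 2 = j * ∑ i ∈ Finset.range m, q ^ i := by
    have : q ^ m = 2 * (j * ∑ i ∈ Finset.range m, q ^ i) + 1 := by
      rw [← hgeom]; ring
    omega
  have hq2 : q / 2 = j := by omega
  have h1 := quadraticChar_eq_pow_of_char_ne_two' hk d
  have h2 := quadraticChar_eq_pow_of_char_ne_two' hE2 (algebraMap k E d)
  rw [← hq, hq2] at h1
  rw [hE, hhalf, pow_mul, ← map_pow, ← h1, map_intCast] at h2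
  have hoddm : Odd (∑ i ∈ Finset.range m, q ^ i) ↔ Odd m := by
    have hqo : Odd q := ⟨j, hj⟩
    rw [Finset.odd_sum_iff_odd_card_odd, Finset.filter_true_of_mem fun i _ => hqo.pow,
      Finset.card_range]
  have hinj : ∀ a b : ℤ, (a = 1 ∨ a = -1) → (b = 1 ∨ b = -1) → (a : E) = (b : E) → a = b := by
    intro a b ha hb hab
    have h11 : (1 : E) ≠ -1 := fun h => by
      have := Ring.neg_one_ne_one_of_char_ne_two hE2
      exact this h.symm
    rcases ha with rfl | rfl <;> rcases hb with rfl | rfl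
    · rfl
    · push_cast at hab
      exact absurd hab h11
    · push_cast at hab
      exact absurd hab.symm h11
    · rfl
  have hL := quadraticChar_dichotomy hd
  refine hinj _ _ (quadraticChar_dichotomy hd') ?_ ?_
  · rcases hL with h | h
    · rw [h, one_pow]; exact Or.inl rfl
    · rw [h]
      exact neg_one_pow_eq_or ℤ m
  · rw [h2]
    rcases hL with h | h
    · rw [h]; push_cast; rw [one_pow, one_pow]
    · rw [h]
      push_cast
      by_cases hm : Odd m
      · rw [(hoddm.2 hm).neg_one_pow, hm.neg_one_pow]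
      · rw [(Nat.not_odd_iff_even.1 (fun h => hm (hoddm.1 h))).neg_one_pow,
          (Nat.not_odd_iff_even.1 hm).neg_one_pow]

/-- the traces of the twists -/
theorem trF_twist (hk : ringChar k ≠ 2) (f : k[X]) {d : k} (hd : d ≠ 0) {m : ℕ} (hm : m ≠ 0) :
    trF k f d m = quadraticChar k d ^ m * trF k f 1 m := by
  classical
  obtain ⟨E, i1, i2, i3, hE⟩ := exists_ext (k := k) m hm
  let _ := Fintype.ofFinite E
  have hE2 : ringChar E ≠ 2 := by rwa [← Algebra.ringChar_eq k E]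
  set g : E[X] := f.map (algebraMap k E) with hg
  have key : ∀ c : k, c ≠ 0 → trF k f c m =
      -(quadraticChar E (algebraMap k E c) * ∑ x : E, quadraticChar E (g.eval x)) := by
    intro c hc
    unfold trF
    rw [affPts_eq f c m E hE]
    have hc' : algebraMap k E c ≠ 0 := by
      rwa [Ne, FaithfulSMul.algebraMap_eq_zero_iff]
    have e1 : {P : E × E // algebraMap k E c * P.2 ^ 2 = aeval P.1 f} =
        {P : E × E // algebraMap k E c * P.2 ^ 2 = g.eval P.1} := by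
      congr 1
      funext P
      rw [hg, eval_map, aeval_def]
    rw [e1]
    have h1 := card_aff hE2 g (algebraMap k E c) hc'
    rw [← Nat.card_eq_fintype_card, hE] at h1
    rw [h1]
    push_cast
    ring
  rw [key d hd, key 1 one_ne_zero, map_one, map_one, quadraticChar_ext hk hE hd]
  ring

/-- the traces only depend on the isomorphism class of the data -/
theorem trF_congr {k' : Type} [Field k'] [Fintype k'] [DecidableEq k'] (e : k ≃+* k') (f : k[X])
    (d : k) {m : ℕ} (hm : m ≠ 0) :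
    trF k f d m = trF k' (f.map (e : k →+* k')) (e d) m := by
  classical
  have hc : Nat.card k = Nat.card k' := Nat.card_congr e.toEquiv
  obtain ⟨E, i1, i2, i3, hE⟩ := exists_ext (k := k') m hm
  unfold trF
  rw [affPts_eq (f.map (e : k →+* k')) (e d) m E hE, hc]
  let _ : Algebra k E := ((algebraMap k' E).comp (e : k →+* k')).toAlgebra
  rw [affPts_eq f d m E (by rw [hE, hc])]
  have e1 : {P : E × E // algebraMap k E d * P.2 ^ 2 = aeval P.1 f} =
      {P : E × E // algebraMap k' E (e d) * P.2 ^ 2 = aeval P.1 (f.map (e : k →+* k'))} := by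
    congr 1
    funext P
    rw [aeval_def, aeval_def, eval₂_map]
    rfl
  rw [e1]

end

section
variable {K F : Type} [Field K] [NumberField K] [Field F] [NumberField F] [Algebra K F]

/-- normalised traces of the curve `y² = f(x)` at a homomorphism to a prime field -/
noncomputable def sx (f : (𝓞 K)[X]) (g : ℕ) (x : HX K) (m : Fin g) : ℝ :=
  haveI : Fact (x.1 : ℕ).Prime := ⟨x.1.2⟩
  (trF (ZMod (x.1 : ℕ)) (f.map x.2) 1 (m + 1) : ℝ) / ((x.1 : ℕ) : ℝ) ^ (((m : ℕ) + 1 : ℝ) / 2)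

/-- the involution `-1` on the traces -/
def inv {g : ℕ} (s : Fin g → ℝ) (m : Fin g) : ℝ := (-1) ^ ((m : ℕ) + 1) * s m

/-- the normalised traces at a prime ideal of the twist by `d` -/
noncomputable def st (f : (𝓞 F)[X]) (g : ℕ) (d : 𝓞 F) (v : HeightOneSpectrum (𝓞 F)) (m : Fin g) :
    ℝ :=
  (traceH1 v f d (m + 1) : ℝ) / ((Ideal.absNorm v.asIdeal : ℕ) : ℝ) ^ (((m : ℕ) + 1 : ℝ) / 2)

theorem traceH1_trF (v : HeightOneSpectrum (𝓞 F)) (f : (𝓞 F)[X]) (d : 𝓞 F) (m : ℕ) :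
    traceH1 v f d m = trF (𝓞 F ⧸ v.asIdeal) (f.map (Ideal.Quotient.mk v.asIdeal))
      (Ideal.Quotient.mk v.asIdeal d) m := rfl

/-- the normalised traces of a twist at a prime of degree one -/
theorem st_ker (f : (𝓞 K)[X]) (g : ℕ) (d : 𝓞 F) (p : Nat.Primes)
    [Fact (p : ℕ).Prime] (hp : (p : ℕ) ≠ 2) (ψ : 𝓞 F →+* ZMod (p : ℕ)) (hd : ψ d ≠ 0) :
    st (f.map (algebraMap (𝓞 K) (𝓞 F))) g d (kerPrime p ψ).1.1 =
      fun m : Fin g => (quadraticChar (ZMod (p : ℕ)) (ψ d) : ℝ) ^ ((m : ℕ) + 1) *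
        sx f g ⟨p, res K ψ⟩ m := by
  funext m
  unfold st sx
  have h1 : Ideal.absNorm (kerPrime p ψ).1.1.asIdeal = (p : ℕ) := nm_kerPrime p ψ
  rw [h1]
  let e : (𝓞 F ⧸ (kerPrime p ψ).1.1.asIdeal) ≃+* ZMod (p : ℕ) :=
    RingHom.quotientKerEquivOfSurjective (ZMod.ringHom_surjective ψ)
  have he : (e : (𝓞 F ⧸ (kerPrime p ψ).1.1.asIdeal) →+* ZMod (p : ℕ)).comp
      (Ideal.Quotient.mk (kerPrime p ψ).1.1.asIdeal) = ψ := RingHom.ext fun x => rfl
  have h2 : traceH1 (kerPrime p ψ).1.1 (f.map (algebraMap (𝓞 K) (𝓞 F))) d (m + 1) =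
      trF (ZMod (p : ℕ)) (f.map (res K ψ)) (ψ d) (m + 1) := by
    rw [traceH1_trF, trF_congr e _ _ (Nat.succ_ne_zero _), Polynomial.map_map, he,
      Polynomial.map_map]
    rfl
  rw [h2, trF_twist (by rw [ZMod.ringChar_zmod_n]; exact hp) _ hd (Nat.succ_ne_zero _)]
  push_cast
  rw [mul_div_assoc]

/-- the system of a test function -/
noncomputable def syC (f : (𝓞 K)[X]) (g : ℕ) (Φ : (Fin g → ℝ) → ℝ) (hΦ : ∀ s, |Φ s| ≤ 1)
    (P : Finset Bool) : SN K where
  ι := Bool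
  P := P
  r := 1
  A := fun j => if j then Finset.univ else ∅
  T := fun j x => if j then (Φ (sx f g x) - Φ (inv (sx f g x))) / 2
    else (Φ (sx f g x) + Φ (inv (sx f g x))) / 2
  hT := by
    intro x
    refine (Finset.sum_le_sum_of_subset_of_nonneg (Finset.subset_univ P)
      (fun _ _ _ => sq_nonneg _)).trans ?_
    rw [Fintype.sum_bool]
    simp only [if_true, Bool.false_eq_true, if_false]
    have h1 := abs_le.1 (hΦ (sx f g x))
    have h2 := abs_le.1 (hΦ (inv (sx f g x)))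
    nlinarith [h1.1, h1.2, h2.1, h2.2]

theorem syC_D_true (f : (𝓞 K)[X]) (g : ℕ) (Φ : (Fin g → ℝ) → ℝ) (hΦ : ∀ s, |Φ s| ≤ 1)
    (P : Finset Bool) {R : Type*} [CommMonoid R] (d : Fin 1 → R) :
    (syC f g Φ hΦ P).Y.D d true = d 0 := by
  change ∏ i ∈ (if true then Finset.univ else ∅ : Finset (Fin 1)), d i = d 0
  simp

theorem syC_D_false (f : (𝓞 K)[X]) (g : ℕ) (Φ : (Fin g → ℝ) → ℝ) (hΦ : ∀ s, |Φ s| ≤ 1)
    (P : Finset Bool) {R : Type*} [CommMonoid R] (d : Fin 1 → R) :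
    (syC f g Φ hΦ P).Y.D d false = 1 := by
  change ∏ i ∈ (if false then Finset.univ else ∅ : Finset (Fin 1)), d i = 1
  simp

/-- the mean of a test function over the primes of `F` is the natural mean of the system -/
theorem isMean_C (f : (𝓞 K)[X]) (g : ℕ) (Φ : (Fin g → ℝ) → ℝ) (hΦ : ∀ s, |Φ s| ≤ 1)
    (P : Finset Bool) (hP : P = Finset.univ ∨ (P = {true} ∧ ∀ s, Φ (inv s) = -Φ s))
    (d : Fin 1 → 𝓞 F) (hd : d 0 ≠ 0) :
    IsMean (syC f g Φ hΦ P) d
      (mean F fun v => Φ (st (f.map (algebraMap (𝓞 K) (𝓞 F))) g (d 0) v)) := by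
  classical
  set φ : HeightOneSpectrum (𝓞 F) → ℝ :=
    fun v => Φ (st (f.map (algebraMap (𝓞 K) (𝓞 F))) g (d 0) v) with hφ
  have h1 := mean_sub (F := F) φ (B := 1) (fun v => hΦ _)
  let T0 : Bool → HX K → ℝ := (syC f g Φ hΦ P).T
  let D0 : Bool → 𝓞 F := (syC f g Φ hΦ P).Y.D d
  have h2 : NN fun p => (∑ ψ : 𝓞 F →+* ZMod (p : ℕ), φ (kerPrime p ψ).1.1) -
      ∑ j ∈ P, ∑ u : 𝓞 K →+* ZMod (p : ℕ), T0 j ⟨p, u⟩ * push K (qh (D0 j)) ⟨p, u⟩ := by
    refine NN.of_dvd (N0_ne_zero hd) fun p hp => ?_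
    have : Fact (p : ℕ).Prime := ⟨p.2⟩
    have hp2 : (p : ℕ) ≠ 2 := by
      intro h
      apply hp
      unfold N0
      rw [h]
      exact dvd_mul_right _ _
    rw [sub_eq_zero]
    have e1 : ∀ j : Bool, ∑ u : 𝓞 K →+* ZMod (p : ℕ), T0 j ⟨p, u⟩ * push K (qh (D0 j)) ⟨p, u⟩ =
        ∑ ψ : 𝓞 F →+* ZMod (p : ℕ), T0 j ⟨p, res K ψ⟩ * qh (D0 j) ⟨p, ψ⟩ := by
      intro j
      rw [← sum_push (K := K) (fun x : HX F => T0 j ⟨x.1, res K x.2⟩ * qh (D0 j) x) p]
      refine Finset.sum_congr rfl fun u _ => ?_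
      unfold push
      rw [Finset.mul_sum]
      refine Finset.sum_congr rfl fun ψ hψ => ?_
      have h7 : res K ψ = u := (Finset.mem_filter.1 hψ).2
      have h9 : (⟨p, u⟩ : HX K) = ⟨p, res K ψ⟩ := by rw [← h7]
      exact congrArg (fun x : HX K => T0 j x * qh (D0 j) (⟨p, ψ⟩ : HX F)) h9
    rw [Finset.sum_congr rfl fun j _ => e1 j, Finset.sum_comm]
    refine Finset.sum_congr rfl fun ψ _ => ?_
    have hψd : ψ (d 0) ≠ 0 := by
      obtain ⟨c, hc⟩ := dvd_N0 (d 0)
      intro h0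
      apply hp
      have h8 := congrArg ψ hc
      rw [map_mul, map_mul, h0, mul_zero, mul_zero, map_intCast,
        ZMod.intCast_zmod_eq_zero_iff_dvd] at h8
      exact h8
    have hst := st_ker (K := K) f g (d 0) p hp2 ψ hψd
    have hφe : φ (kerPrime p ψ).1.1 = Φ (st (f.map (algebraMap (𝓞 K) (𝓞 F))) g (d 0)
        (kerPrime p ψ).1.1) := rfl
    rw [hφe, hst]
    have hT1 : T0 true ⟨p, res K ψ⟩ =
        (Φ (sx f g ⟨p, res K ψ⟩) - Φ (inv (sx f g ⟨p, res K ψ⟩))) / 2 := rfl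
    have hT0 : T0 false ⟨p, res K ψ⟩ =
        (Φ (sx f g ⟨p, res K ψ⟩) + Φ (inv (sx f g ⟨p, res K ψ⟩))) / 2 := rfl
    have hD1 : D0 true = d 0 := syC_D_true f g Φ hΦ P d
    have hD0 : D0 false = 1 := syC_D_false f g Φ hΦ P d
    have hq1 : qh (D0 true) ⟨p, ψ⟩ = (quadraticChar (ZMod (p : ℕ)) (ψ (d 0)) : ℝ) := by
      rw [hD1]
      exact qh_eq (d 0) p ψ
    have hq0 : qh (D0 false) ⟨p, ψ⟩ = 1 := by
      rw [hD0, qh_eq, map_one, map_one]
      simp
    have hval : Φ (fun m : Fin g => (quadraticChar (ZMod (p : ℕ)) (ψ (d 0)) : ℝ) ^ ((m : ℕ) + 1) *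
        sx f g ⟨p, res K ψ⟩ m) =
        (Φ (sx f g ⟨p, res K ψ⟩) + Φ (inv (sx f g ⟨p, res K ψ⟩))) / 2 * 1 +
        (Φ (sx f g ⟨p, res K ψ⟩) - Φ (inv (sx f g ⟨p, res K ψ⟩))) / 2 *
          (quadraticChar (ZMod (p : ℕ)) (ψ (d 0)) : ℝ) := by
      rcases quadraticChar_dichotomy hψd with h | h
      · rw [h]
        have e2 : (fun m : Fin g => (((1 : ℤ) : ℝ)) ^ ((m : ℕ) + 1) * sx f g ⟨p, res K ψ⟩ m) =
            sx f g ⟨p, res K ψ⟩ := by
          funext m
          push_cast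
          rw [one_pow, one_mul]
        rw [e2]
        push_cast
        ring
      · rw [h]
        have e2 : (fun m : Fin g => (((-1 : ℤ) : ℝ)) ^ ((m : ℕ) + 1) * sx f g ⟨p, res K ψ⟩ m) =
            inv (sx f g ⟨p, res K ψ⟩) := by
          funext m
          unfold inv
          push_cast
          rfl
        rw [e2]
        push_cast
        ring
    rw [hval]
    rcases hP with rfl | ⟨rfl, hodd⟩
    · rw [Fintype.sum_bool, hT1, hT0, hq1, hq0]
      ring
    · rw [Finset.sum_singleton, hT1, hq1, hodd]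
      ring
  have h3 := h1.add h2
  rw [add_zero] at h3
  unfold IsMean
  refine h3.congr fun N => ?_
  have h4 : corrN (syC f g Φ hΦ P) d N = ∑ j ∈ P, Av N fun p => ∑ u : 𝓞 K →+* ZMod (p : ℕ),
    T0 j ⟨p, u⟩ * push K (qh (D0 j)) ⟨p, u⟩ := rfl
  rw [h4, Av_sub, Av_sum]
  ring

end

end Pool.Agent.W529.ST
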