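import Pool.Agent.W529.ST.Curve

/-! One finite extension governs the means of a test function for the twists of a hyperelliptic
Jacobian. -/

set_option autoImplicit false

namespace Pool.Agent.W529.ST

open NumberField IsDedekindDomain Filter Topology Polynomial
open Pool.Agent.W353.TP Pool.Agent.W353.AB

section
variable {K : Type} [Field K] [NumberField K]

/-- `d` as an element of the algebraic closure of `K`. -/
noncomputable def inj {F : IntermediateField K (AlgebraicClosure K)} (d : 𝓞 F) : AlgebraicClosure K :=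
  ((d : F) : AlgebraicClosure K)

/-- related twists -/
def Related (M : IntermediateField K (AlgebraicClosure K))
    {F F₀ : IntermediateField K (AlgebraicClosure K)} (d : 𝓞 F) (e : 𝓞 F₀) : Prop :=
  ((∃ u ∈ F, u ^ 2 = inj d * inj e) ∧ ∃ t ∈ M, t ^ 2 = inj e) ∨
    ((∀ y ∈ F ⊔ M, y ^ 2 ≠ inj d) ∧ ∀ y ∈ M, y ^ 2 ≠ inj e)

theorem prA_true (f : (𝓞 K)[X]) {g : ℕ} (Φ : (Fin g → ℝ) → ℝ) (hΦ : ∀ s, |Φ s| ≤ 1)
    (P : Finset Bool) (F : IntermediateField K (AlgebraicClosure K)) [NumberField F]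
    (d : Fin 1 → 𝓞 F) : prA (syC f g Φ hΦ P).Y d true = inj (d 0) := by
  have h5 : (syC f g Φ hΦ P).Y.D d true = d 0 := syC_D_true f g Φ hΦ P d
  unfold prA inj
  exact congrArg (fun z : 𝓞 F => ((z : F) : AlgebraicClosure K)) h5

theorem prA_false (f : (𝓞 K)[X]) {g : ℕ} (Φ : (Fin g → ℝ) → ℝ) (hΦ : ∀ s, |Φ s| ≤ 1)
    (P : Finset Bool) (F : IntermediateField K (AlgebraicClosure K)) [NumberField F]
    (d : Fin 1 → 𝓞 F) : prA (syC f g Φ hΦ P).Y d false = 1 := by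
  have h5 : (syC f g Φ hΦ P).Y.D d false = 1 := syC_D_false f g Φ hΦ P d
  unfold prA
  exact congrArg (fun z : 𝓞 F => ((z : F) : AlgebraicClosure K)) h5

theorem rel_of_related (f : (𝓞 K)[X]) {g : ℕ} (Φ : (Fin g → ℝ) → ℝ) (hΦ : ∀ s, |Φ s| ≤ 1)
    (P : Finset Bool) (M F F₀ : IntermediateField K (AlgebraicClosure K)) [NumberField F]
    [NumberField F₀] (d : 𝓞 F) (e : 𝓞 F₀) (h : Related M d e) :
    Rel (syC f g Φ hΦ P).Y M (fun _ : Fin 1 => d) (fun _ : Fin 1 => e) := by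
  intro j _
  have key : ∀ i : Bool, ((∃ u ∈ F, u ^ 2 = prA (syC f g Φ hΦ P).Y (fun _ : Fin 1 => d) i *
      prA (syC f g Φ hΦ P).Y (fun _ : Fin 1 => e) i) ∧
      ∃ t ∈ M, t ^ 2 = prA (syC f g Φ hΦ P).Y (fun _ : Fin 1 => e) i) ∨
      ((∀ y ∈ F ⊔ M, y ^ 2 ≠ prA (syC f g Φ hΦ P).Y (fun _ : Fin 1 => d) i) ∧
        ∀ y ∈ M, y ^ 2 ≠ prA (syC f g Φ hΦ P).Y (fun _ : Fin 1 => e) i) := by
    intro i
    cases i
    · left
      rw [prA_false f Φ hΦ P F (fun _ : Fin 1 => d), prA_false f Φ hΦ P F₀ (fun _ : Fin 1 => e)]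
      exact ⟨⟨1, one_mem _, by ring⟩, 1, one_mem _, by ring⟩
    · rw [prA_true f Φ hΦ P F (fun _ : Fin 1 => d), prA_true f Φ hΦ P F₀ (fun _ : Fin 1 => e)]
      exact h
  exact key j

/-- the finite list -/
theorem list_C (M : IntermediateField K (AlgebraicClosure K)) [FiniteDimensional K M]
    [Normal K M] :
    ∃ (l : ℕ) (G : Fin l → IntermediateField K (AlgebraicClosure K)) (e : ∀ a, 𝓞 (G a)),
      l ≤ 2 ^ (2 * (Module.finrank K M + 1)) ∧
      (∀ a, G a ≤ M ∧ NumberField (G a) ∧ e a ≠ 0) ∧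
      ∀ (F : IntermediateField K (AlgebraicClosure K)) [NumberField F] (d : 𝓞 F),
        d ≠ 0 → ∃ a, G a = F ⊓ M ∧ Related M d (e a) := by
  obtain ⟨l, s, hl, hs⟩ := finite_list (syC (1 : (𝓞 K)[X]) 0 (fun _ => 0) (fun _ => by simp)
    {true}).Y M
  refine ⟨l, fun a => (s a).G, fun a => (s a).e (0 : Fin 1), ?_, ?_, ?_⟩
  · refine hl.trans (le_of_eq ?_)
    have e1 : (syC (1 : (𝓞 K)[X]) 0 (fun _ => 0) (fun _ => by simp) {true}).Y.P.card = 1 :=
      Finset.card_singleton true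
    rw [e1]
  · intro a
    exact ⟨(s a).le, (s a).nf, (s a).he (0 : Fin 1)⟩
  · intro F _ d hd
    obtain ⟨a, ha1, ha2⟩ := hs F (fun _ : Fin 1 => d) (fun _ => hd)
    refine ⟨a, ha1, ?_⟩
    have h3 := ha2 true (Finset.mem_singleton_self true)
    have hnf := (s a).nf
    rw [prA_true (1 : (𝓞 K)[X]) (fun _ => 0) (fun _ => by simp) {true} F (fun _ : Fin 1 => d),
      prA_true (1 : (𝓞 K)[X]) (fun _ => 0) (fun _ => by simp) {true} (s a).G (s a).e] at h3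
    exact h3

end

section
variable {K : Type} [Field K] [NumberField K]

/-- the mean of a test function -/
noncomputable def mC (f : (𝓞 K)[X]) {g : ℕ} (Φ : (Fin g → ℝ) → ℝ)
    (F : IntermediateField K (AlgebraicClosure K)) [NumberField F] (d : 𝓞 F) : ℕ → ℝ :=
  mean F fun v => Φ (st (f.map (algebraMap (𝓞 K) (𝓞 F))) g d v)

/-- **One finite extension governs**, for the twists of a hyperelliptic Jacobian. -/
theorem main_C (f : (𝓞 K)[X]) (g : ℕ)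
    (Φ : (Fin g → ℝ) → ℝ) (hΦ : ∀ s, |Φ s| ≤ 1) (n k : ℕ) (hk : 1 ≤ k) (𝓛 : Filter ℕ) [𝓛.NeBot]
    (h𝓛 : 𝓛 ≤ atTop) :
    ∃ M : IntermediateField K (AlgebraicClosure K),
      FiniteDimensional K M ∧ IsGalois K M ∧ Normal K M ∧
      Module.finrank K M ≤ (4 * n).factorial ^ (4 * n * k ^ 2) ∧
      ((∀ s, Φ (inv s) = -Φ s) → ∀ (F : IntermediateField K (AlgebraicClosure K)) [NumberField F]
        (d : 𝓞 F), Module.finrank K F ≤ n → d ≠ 0 → (∀ y ∈ F ⊔ M, y ^ 2 ≠ inj d) →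
        (∃ᶠ N in 𝓛, |mC f Φ F d N| < 1 / k) ∧
        ∀ x : ℝ, Tendsto (mC f Φ F d) 𝓛 (𝓝 x) → |x| < 1 / k) ∧
      (∀ (F F₀ : IntermediateField K (AlgebraicClosure K)) [NumberField F] [NumberField F₀],
        F₀ = F ⊓ M → Module.finrank K F ≤ n → ∀ (d : 𝓞 F) (e : 𝓞 F₀), d ≠ 0 → e ≠ 0 →
        Related M d e →
        (∃ᶠ N in 𝓛, |mC f Φ F d N - mC f Φ F₀ e N| < 1 / k) ∧
        (∀ c : ℝ, Tendsto (mC f Φ F₀ e) 𝓛 (𝓝 c) → ∃ᶠ N in 𝓛, |mC f Φ F d N - c| < 1 / k) ∧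
        ∀ x c : ℝ, Tendsto (mC f Φ F d) 𝓛 (𝓝 x) →
          Tendsto (mC f Φ F₀ e) 𝓛 (𝓝 c) → |x - c| < 1 / k) := by
  classical
  -- the components that matter
  obtain ⟨P, hP, hPo, hPc⟩ : ∃ P : Finset Bool,
      (P = Finset.univ ∨ (P = {true} ∧ ∀ s, Φ (Pool.Agent.W529.ST.inv s) = -Φ s)) ∧
      ((∀ s, Φ (Pool.Agent.W529.ST.inv s) = -Φ s) → P = {true}) ∧ P.card ≤ 2 := by
    by_cases h : ∀ s, Φ (Pool.Agent.W529.ST.inv s) = -Φ s
    · exact ⟨{true}, Or.inr ⟨rfl, h⟩, fun _ => rfl, by simp⟩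
    · exact ⟨Finset.univ, Or.inl rfl, fun h' => absurd h' h, by simp⟩
  have hmean : ∀ (F : IntermediateField K (AlgebraicClosure K)) [NumberField F] (d : 𝓞 F), d ≠ 0 →
      IsMean (syC f g Φ hΦ P) (fun _ : Fin 1 => d) (mC f Φ F d) := fun F _ d hd =>
    isMean_C f g Φ hΦ P hP (fun _ => d) hd
  have hBd : ∀ (F : IntermediateField K (AlgebraicClosure K)) [NumberField F]
      (d : Fin (syC f g Φ hΦ P).r → 𝓞 F), Module.finrank K F ≤ n →
      Bd (syC f g Φ hΦ P).Y n F d := by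
    intro F _ d h j _
    exact (inum_le K F F _ _).trans h
  obtain ⟨M, hM1, hM2, hM3, hdeg, hA, hB⟩ := governN (syC f g Φ hΦ P) n k n hk 𝓛 h𝓛
    (fun F _ _ => Module.finrank K F ≤ n) hBd
  refine ⟨M, hM1, hM2, hM3, ?_, ?_, ?_⟩
  · refine (hdeg fun F _ _ h => h).trans ?_
    have e1 : 4 ^ (syC f g Φ hΦ P).r * n = 4 * n := rfl
    have e2 : (syC f g Φ hΦ P).P.card ≤ 2 := hPc
    rw [e1]
    refine Nat.pow_le_pow_right (Nat.factorial_pos _) ?_
    calc 2 * n * (syC f g Φ hΦ P).P.card * k ^ 2 ≤ 2 * n * 2 * k ^ 2 :=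
          Nat.mul_le_mul_right _ (Nat.mul_le_mul_left _ e2)
      _ = 4 * n * k ^ 2 := by ring
  · intro hodd F _ d hF hd hsq
    refine hA F (fun _ : Fin 1 => d) (fun _ => hd) _ (hmean F d hd) hF ?_
    have key : ∀ i ∈ P, ∀ y ∈ F ⊔ M, y ^ 2 ≠ prA (syC f g Φ hΦ P).Y (fun _ : Fin 1 => d) i := by
      intro i hi y hy
      rw [hPo hodd, Finset.mem_singleton] at hi
      subst hi
      rw [prA_true f Φ hΦ P F (fun _ : Fin 1 => d)]
      exact hsq y hy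
    exact key
  · intro F F₀ _ _ hF₀ hF d e hd he hR
    have hle : F₀ ≤ F := by
      rw [hF₀]
      exact inf_le_left
    have hF' : Module.finrank K F₀ ≤ n := (finrank_mono' hle).trans hF
    exact hB F F₀ hF₀ (fun _ : Fin 1 => d) (fun _ : Fin 1 => e) (fun _ => hd) (fun _ => he) _ _
      (hmean F d hd) (hmean F₀ e he) hF hF' (rel_of_related f Φ hΦ P M F F₀ d e hR)

end

end Pool.Agent.W529.ST
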