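import Pool.Agent.W529.ST.Mean

/-! The Gram matrix in natural density. -/

set_option autoImplicit false

namespace Pool.Agent.W529.ST

open Filter Topology NumberField IsDedekindDomain Pool.Agent.H341R2 Pool.Agent.W353.TP
open Pool.Agent.H921R2.TatePole (nm two_le_nm R hc R_eq_hc R_le kerPrime hom_finite C0)
open scoped TensorProduct

section
variable {K : Type} [Field K] [NumberField K]

open Classical in
/-- the mean of a quadratic character of one field -/
theorem mean_qh {D : 𝓞 K} (hD : D ≠ 0) :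
    NN fun p => (∑ u : 𝓞 K →+* ZMod (p : ℕ), qh D ⟨p, u⟩) -
      (if IsSquare (D : K) then 1 else 0) := by
  by_cases hsq : IsSquare (D : K)
  · simp only [if_pos hsq]
    refine (mean_hc K).congr (N0_ne_zero hD) fun p hp => ?_
    have : Fact (p : ℕ).Prime := ⟨p.2⟩
    have h4 : ∀ u : 𝓞 K →+* ZMod (p : ℕ), qh D ⟨p, u⟩ = 1 := by
      intro u
      rw [qh_eq]
      have h5 : quadraticChar (ZMod (p : ℕ)) (u D) = 1 := by
        obtain ⟨b, hb⟩ := hsq
        have hbi : IsIntegral ℤ b := by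
          apply IsIntegral.of_pow (by norm_num : 0 < 2)
          rw [sq, ← hb]
          exact RingOfIntegers.isIntegral_coe D
        obtain ⟨b', hb'⟩ : ∃ b' : 𝓞 K, (b' : K) = b := ⟨⟨b, hbi⟩, rfl⟩
        have h6 : D = b' * b' := RingOfIntegers.ext (by
          rw [hb, ← hb']
          rfl)
        have h7 : u D ≠ 0 := by
          obtain ⟨c, hc⟩ := dvd_N0 D
          intro h0
          apply hp
          have h8 := congrArg u hc
          rw [map_mul, map_mul, h0, mul_zero, mul_zero, map_intCast,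
            ZMod.intCast_zmod_eq_zero_iff_dvd] at h8
          exact h8
        rw [h6, map_mul]
        rw [h6, map_mul] at h7
        rw [← sq]
        apply quadraticChar_sq_one'
        intro h0
        rw [h0, mul_zero] at h7
        exact h7 rfl
      rw [h5]
      simp
    rw [Finset.sum_congr rfl fun u _ => h4 u, Finset.sum_const, nsmul_eq_mul, Finset.card_univ,
      card_hom_eq, R_eq_hc, mul_one]
  · simp only [if_neg hsq, sub_zero]
    have : Fact (Irreducible (qpoly D)) := ⟨qpoly_irreducible hsq⟩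
    refine ((mean_hc (QF D)).sub (mean_hc K)).congr (N0_ne_zero hD) fun p hp => ?_
    have : Fact (p : ℕ).Prime := ⟨p.2⟩
    have h5 := hc_quad (d := D) (p := p) hp
    rw [Finset.sum_add_distrib, Finset.sum_const, Finset.card_univ, card_hom_eq, R_eq_hc] at h5
    have h11 : ((hc (𝓞 (QF D)) (p : ℕ) : ℤ) : ℝ) = ((∑ φ : 𝓞 K →+* ZMod (p : ℕ),
        quadraticChar (ZMod (p : ℕ)) (φ D) + hc (𝓞 K) (p : ℕ) • (1 : ℤ) : ℤ) : ℝ) := by
      exact_mod_cast h5
    push_cast at h11
    have h12 : ∑ u : 𝓞 K →+* ZMod (p : ℕ), qh D ⟨p, u⟩ =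
        ∑ u : 𝓞 K →+* ZMod (p : ℕ), (quadraticChar (ZMod (p : ℕ)) (u D) : ℝ) :=
      Finset.sum_congr rfl fun u _ => qh_eq D p u
    rw [h12, h11]
    simp

end

section
variable {K F F' : Type} [Field K] [NumberField K] [Field F] [NumberField F] [Algebra K F]
  [Field F'] [NumberField F'] [Algebra K F']

/-- **The Gram matrix in natural density.** -/
theorem gramN {D : 𝓞 F} {D' : 𝓞 F'} (hD : D ≠ 0) (hD' : D' ≠ 0) :
    NN fun p => (∑ u : 𝓞 K →+* ZMod (p : ℕ), push K (qh D) ⟨p, u⟩ * push K (qh D') ⟨p, u⟩) -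
      (inum K F F' D D' : ℝ) := by
  classical
  obtain ⟨N, hN, hsum⟩ := pairs_sum K F F'
  set c : MaximalSpectrum (F ⊗[K] F') → ℝ := fun m =>
    if IsSquare ((iL K F F' m D * iR K F F' m D' : 𝓞 (Fac K F F' m)) : Fac K F F' m)
      then 1 else 0 with hc
  have h1 := NN.sum (Finset.univ : Finset (MaximalSpectrum (F ⊗[K] F')))
    (φ := fun m p => (∑ u : 𝓞 (Fac K F F' m) →+* ZMod (p : ℕ),
      qh (iL K F F' m D * iR K F F' m D') ⟨p, u⟩) - c m)
    (fun m _ => mean_qh (fac_ne_zero hD hD' m))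
  have hcs : ∑ m, c m = (inum K F F' D D' : ℝ) := by
    rw [hc, Finset.sum_boole]
    unfold inum
    rw [Nat.card_eq_fintype_card, Fintype.card_subtype]
    congr 2
    refine Finset.filter_congr fun m _ => ?_
    rw [iL_iR_coe]
  refine h1.congr hN fun p hp => ?_
  rw [Finset.sum_sub_distrib, hcs]
  congr 1
  have : Fact (p : ℕ).Prime := ⟨p.2⟩
  have h2 := hsum p hp (fun ψ ψ' => qh D ⟨p, ψ⟩ * qh D' ⟨p, ψ'⟩)
  have h3 : ∀ u : 𝓞 K →+* ZMod (p : ℕ), push K (qh D) ⟨p, u⟩ * push K (qh D') ⟨p, u⟩ =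
      (∑ ψ ∈ Finset.univ.filter
      (fun ψ : 𝓞 F →+* ZMod (p : ℕ) => res K ψ = u), ∑ ψ' ∈ Finset.univ.filter
      (fun ψ' : 𝓞 F' →+* ZMod (p : ℕ) => res K ψ' = u), qh D ⟨p, ψ⟩ * qh D' ⟨p, ψ'⟩) := by
    intro u
    unfold push
    rw [Finset.sum_mul_sum]
  rw [Finset.sum_congr rfl fun u _ => h3 u, h2]
  refine Finset.sum_congr rfl fun m _ => ?_
  refine Finset.sum_congr rfl fun Ψ _ => ?_
  rw [qh_eq, qh_eq, qh_eq, map_mul, map_mul]
  push_cast
  rfl

end

end Pool.Agent.W529.ST
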