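import Pool.Agent.W529.ST.Lim

/-! Limit measures for families with values in a group. -/

set_option autoImplicit false

namespace Pool.Agent.W529.ST

open NumberField IsDedekindDomain Filter Topology Polynomial Pool.Agent.H341R2
open Pool.Agent.W353.TP Pool.Agent.W353.AB MeasureTheory
open Pool.Agent.H921R2.TatePole (nm two_le_nm R hc R_eq_hc R_le kerPrime hom_finite)

section
variable {F : Type} [Field F] [NumberField F]

/-- changing the values outside the primes of degree one with `p ∤ m` does not change the mean -/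
theorem mean_congr_ker {φ φ' : HeightOneSpectrum (𝓞 F) → ℝ} {B : ℝ} (hφ : ∀ v, |φ v| ≤ B)
    (hφ' : ∀ v, |φ' v| ≤ B) {m : ℤ} (hm : m ≠ 0)
    (h : ∀ (p : Nat.Primes) [Fact (p : ℕ).Prime], ¬ ((p : ℕ) : ℤ) ∣ m →
      ∀ ψ : 𝓞 F →+* ZMod (p : ℕ), φ (kerPrime p ψ).1.1 = φ' (kerPrime p ψ).1.1) :
    Tendsto (fun N => mean F φ N - mean F φ' N) atTop (𝓝 0) := by
  have h1 := mean_sub φ hφ
  have h2 := mean_sub φ' hφ'
  have h3 : NN fun p => (∑ ψ : 𝓞 F →+* ZMod (p : ℕ), φ (kerPrime p ψ).1.1) -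
      ∑ ψ : 𝓞 F →+* ZMod (p : ℕ), φ' (kerPrime p ψ).1.1 := by
    refine NN.of_dvd hm fun p hp => ?_
    have : Fact (p : ℕ).Prime := ⟨p.2⟩
    rw [sub_eq_zero]
    exact Finset.sum_congr rfl fun ψ _ => h p hp ψ
  have h4 := (h1.sub h2).add h3
  rw [sub_zero, add_zero] at h4
  refine h4.congr fun N => ?_
  rw [Av_sub]
  ring

end

section
variable {K : Type} [Field K] [NumberField K] {G : Type} [Group G]

/-- families outside a set of primes -/
def IsFamG (z : G) (S₀ : Set (HeightOneSpectrum (𝓞 K))) (x : HeightOneSpectrum (𝓞 K) → G)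
    (c : ∀ (F : IntermediateField K (AlgebraicClosure K)) [NumberField F],
      𝓞 F → HeightOneSpectrum (𝓞 F) → G) : Prop :=
  ∀ (F : IntermediateField K (AlgebraicClosure K)) [NumberField F] (d : 𝓞 F)
    (w : HeightOneSpectrum (𝓞 F)) (v : HeightOneSpectrum (𝓞 K)), v ∉ S₀ →
    w.asIdeal.comap (algebraMap (𝓞 K) (𝓞 F)) = v.asIdeal →
    Ideal.absNorm w.asIdeal = Ideal.absNorm v.asIdeal → 2 * d ∉ w.asIdeal →
    (IsSquare (Ideal.Quotient.mk w.asIdeal d) → IsConj (c F d w) (x v)) ∧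
    (¬ IsSquare (Ideal.Quotient.mk w.asIdeal d) → IsConj (c F d w) (z * x v))

open Classical in
/-- canonical representatives -/
noncomputable def can (z : G) (x : HeightOneSpectrum (𝓞 K) → G)
    (F : IntermediateField K (AlgebraicClosure K)) [NumberField F] (d : 𝓞 F)
    (w : HeightOneSpectrum (𝓞 F)) : G :=
  if h : ∃ v : HeightOneSpectrum (𝓞 K), w.asIdeal.comap (algebraMap (𝓞 K) (𝓞 F)) = v.asIdeal then
    (if IsSquare (Ideal.Quotient.mk w.asIdeal d) then x h.choose else z * x h.choose) else 1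

theorem can_eq (z : G) (x : HeightOneSpectrum (𝓞 K) → G)
    (F : IntermediateField K (AlgebraicClosure K)) [NumberField F] (d : 𝓞 F)
    (w : HeightOneSpectrum (𝓞 F)) (v : HeightOneSpectrum (𝓞 K))
    (h : w.asIdeal.comap (algebraMap (𝓞 K) (𝓞 F)) = v.asIdeal) :
    (IsSquare (Ideal.Quotient.mk w.asIdeal d) → can z x F d w = x v) ∧
    (¬ IsSquare (Ideal.Quotient.mk w.asIdeal d) → can z x F d w = z * x v) := by
  have h1 : ∃ v : HeightOneSpectrum (𝓞 K),
      w.asIdeal.comap (algebraMap (𝓞 K) (𝓞 F)) = v.asIdeal := ⟨v, h⟩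
  have h2 : h1.choose = v := HeightOneSpectrum.ext (h1.choose_spec.symm.trans h)
  unfold can
  rw [dif_pos h1, h2]
  exact ⟨fun h => if_pos h, fun h => if_neg h⟩

theorem isFamily_can (z : G) (x : HeightOneSpectrum (𝓞 K) → G) :
    IsFamily (fun y => z * y) x (fun F _ d => can z x F d) := by
  intro F _ d w v h _ _
  exact can_eq z x F d w v h

/-- a nonzero integer in all primes of a finite set -/
theorem exists_int {S₀ : Set (HeightOneSpectrum (𝓞 K))} (hS : S₀.Finite) :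
    ∃ m : ℤ, m ≠ 0 ∧ ∀ v ∈ S₀, ((m : ℤ) : 𝓞 K) ∈ v.asIdeal := by
  induction S₀, hS using Set.Finite.induction_on with
  | empty => exact ⟨1, one_ne_zero, fun v hv => absurd hv (Set.notMem_empty v)⟩
  | @insert a s _ _ ih =>
    obtain ⟨m, hm, h⟩ := ih
    refine ⟨m * (Ideal.absNorm a.asIdeal : ℤ), mul_ne_zero hm ?_, ?_⟩
    · have : Ideal.absNorm a.asIdeal ≠ 0 := by
        intro h0
        exact a.ne_bot (Ideal.absNorm_eq_zero_iff.1 h0)
      exact_mod_cast this
    · intro v hv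
      rcases Set.mem_insert_iff.1 hv with rfl | hv
      · push_cast
        exact Ideal.mul_mem_left _ _ (Ideal.absNorm_mem v.asIdeal)
      · push_cast
        exact Ideal.mul_mem_right _ _ (h v hv)

theorem ker_data (F : IntermediateField K (AlgebraicClosure K)) [NumberField F]
    (p : Nat.Primes) [Fact (p : ℕ).Prime] (ψ : 𝓞 F →+* ZMod (p : ℕ)) :
    (kerPrime p ψ).1.1.asIdeal.comap (algebraMap (𝓞 K) (𝓞 F)) =
      (kerPrime p (res K ψ)).1.1.asIdeal ∧
    Ideal.absNorm (kerPrime p ψ).1.1.asIdeal =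
      Ideal.absNorm (kerPrime p (res K ψ)).1.1.asIdeal := by
  have hcm : (kerPrime p ψ).1.1.asIdeal.comap (algebraMap (𝓞 K) (𝓞 F)) =
      (kerPrime p (res K ψ)).1.1.asIdeal := by
    change (RingHom.ker ψ).comap (algebraMap (𝓞 K) (𝓞 F)) = RingHom.ker (res K ψ)
    ext z
    rw [Ideal.mem_comap, RingHom.mem_ker, RingHom.mem_ker]
    rfl
  refine ⟨hcm, ?_⟩
  have h1 : Ideal.absNorm (kerPrime p ψ).1.1.asIdeal = (p : ℕ) := nm_kerPrime p ψ
  have h2 : Ideal.absNorm (kerPrime p (res K ψ)).1.1.asIdeal = (p : ℕ) :=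
    nm_kerPrime p (res K ψ)
  rw [h1, h2]

/-- means of class functions of the family and of the canonical representatives -/
theorem mean_can {z : G} (hz : z ∈ Subgroup.center G) {S₀ : Set (HeightOneSpectrum (𝓞 K))}
    (hS : S₀.Finite) {x : HeightOneSpectrum (𝓞 K) → G}
    {c : ∀ (F : IntermediateField K (AlgebraicClosure K)) [NumberField F],
      𝓞 F → HeightOneSpectrum (𝓞 F) → G} (hc : IsFamG z S₀ x c)
    (f : G → ℝ) (hf : ∀ y h, f (h * y * h⁻¹) = f y) {B : ℝ} (hB : ∀ y, |f y| ≤ B)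
    (F : IntermediateField K (AlgebraicClosure K)) [NumberField F] (d : 𝓞 F) (hd : d ≠ 0) :
    Tendsto (fun N => mean F (fun w => f (c F d w)) N - mean F (fun w => f (can z x F d w)) N)
      atTop (𝓝 0) ∧
    Tendsto (fun N => mean F (fun w => f (z * c F d w)) N -
      mean F (fun w => f (z * can z x F d w)) N) atTop (𝓝 0) := by
  obtain ⟨m, hm, hmS⟩ := exists_int hS
  have hconj : ∀ a b : G, IsConj a b → f a = f b ∧ f (z * a) = f (z * b) := by
    intro a b hab
    obtain ⟨g, hg⟩ := isConj_iff.1 hab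
    constructor
    · rw [← hg, hf]
    · rw [← hg, ← hf (z * a) g]
      congr 1
      have h1 : g * z = z * g := Subgroup.mem_center_iff.1 hz g
      rw [← mul_assoc, h1]
      simp only [mul_assoc]
  have key : ∀ (p : Nat.Primes) [Fact (p : ℕ).Prime], ¬ ((p : ℕ) : ℤ) ∣ N0 d * m →
      ∀ ψ : 𝓞 F →+* ZMod (p : ℕ),
        IsConj (c F d (kerPrime p ψ).1.1) (can z x F d (kerPrime p ψ).1.1) := by
    intro p _ hp ψ
    have hp1 : ¬ ((p : ℕ) : ℤ) ∣ N0 d := fun h => hp (Dvd.dvd.mul_right h _)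
    have hp2 : ¬ ((p : ℕ) : ℤ) ∣ m := fun h => hp (Dvd.dvd.mul_left h _)
    obtain ⟨h1, h2⟩ := ker_data (K := K) F p ψ
    have h2d : 2 * d ∉ (kerPrime p ψ).1.1.asIdeal := by
      intro h0
      have h0' : ψ (2 * d) = 0 := h0
      obtain ⟨e, he⟩ := dvd_N0 d
      apply hp1
      have h8 := congrArg ψ he
      rw [map_mul, h0', mul_zero, map_intCast, ZMod.intCast_zmod_eq_zero_iff_dvd] at h8
      exact h8
    have hv : (kerPrime p (res K ψ)).1.1 ∉ S₀ := by
      intro h0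
      have h3 := hmS _ h0
      have h4 : (res K ψ) ((m : ℤ) : 𝓞 K) = 0 := h3
      rw [map_intCast, ZMod.intCast_zmod_eq_zero_iff_dvd] at h4
      exact hp2 h4
    obtain ⟨h3, h4⟩ := hc F d _ _ hv h1 h2 h2d
    obtain ⟨h5, h6⟩ := can_eq z x F d _ _ h1
    by_cases hs : IsSquare (Ideal.Quotient.mk (kerPrime p ψ).1.1.asIdeal d)
    · rw [h5 hs]
      exact h3 hs
    · rw [h6 hs]
      exact h4 hs
  have hN : N0 d * m ≠ 0 := mul_ne_zero (N0_ne_zero hd) hm
  constructor
  · exact mean_congr_ker (B := B) (fun _ => hB _) (fun _ => hB _) hN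
      fun p _ hp ψ => (hconj _ _ (key p hp ψ)).1
  · exact mean_congr_ker (B := B) (fun _ => hB _) (fun _ => hB _) hN
      fun p _ hp ψ => (hconj _ _ (key p hp ψ)).2

end

end Pool.Agent.W529.ST
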