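import Pool.Agent.W529.ST.Wrap
import Pool.Agent.H126T.End

/-! Hyperelliptic curves `d y² = f(x)` of any degree: traces, twists, bounds. -/

set_option autoImplicit false

namespace Pool.Agent.W529.ST

open Polynomial Pool.Agent.H126T NumberField IsDedekindDomain Filter Topology Pool.Agent.H341R2
  Pool.Agent.W353.TP
open Pool.Agent.H921R2.TatePole (nm two_le_nm R hc R_eq_hc R_le kerPrime hom_finite below deg nm_eq
  below_le_nm fiber_finite fiber_card_le)

/-- points at infinity -/
noncomputable def infPts (k : Type) [Field k] (f : k[X]) (d : k) (m : ℕ) : ℕ :=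
  if Odd f.natDegree then 1 else
    Nat.card {y : AlgebraicClosure k // y ^ (Nat.card k ^ m) = y ∧
      algebraMap k (AlgebraicClosure k) d * y ^ 2 = algebraMap k (AlgebraicClosure k) f.leadingCoeff}

/-- the trace of the `m`-th power of Frobenius on `H¹` -/
noncomputable def trG (k : Type) [Field k] (f : k[X]) (d : k) (m : ℕ) : ℤ :=
  (Nat.card k : ℤ) ^ m + 1 - (affPts k f d m + infPts k f d m)

section
variable {k : Type} [Field k] [Finite k]

theorem infPts_eq (a d : k) (m : ℕ) (E : Type) [Field E] [Finite E] [Algebra k E]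
    (hE : Nat.card E = Nat.card k ^ m) :
    Nat.card {y : AlgebraicClosure k // y ^ (Nat.card k ^ m) = y ∧
      algebraMap k (AlgebraicClosure k) d * y ^ 2 = algebraMap k (AlgebraicClosure k) a} =
    Nat.card {y : E // algebraMap k E d * y ^ 2 = algebraMap k E a} := by
  classical
  have : Module.Finite k E := Module.Finite.of_finite
  have : Algebra.IsAlgebraic k E := Algebra.IsAlgebraic.of_finite k E
  let g : E →ₐ[k] AlgebraicClosure k := IsAlgClosed.lift
  let _ : Algebra E (AlgebraicClosure k) := g.toRingHom.toAlgebra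
  let _ := Fintype.ofFinite E
  have hg : ∀ x : E, algebraMap E (AlgebraicClosure k) x = g x := fun x => rfl
  have hfix : ∀ x : E, g x ^ (Nat.card k ^ m) = g x := by
    intro x
    rw [← map_pow, ← hE, Nat.card_eq_fintype_card, FiniteField.pow_card]
  refine (Nat.card_congr (Equiv.ofBijective (fun P : {y : E //
    algebraMap k E d * y ^ 2 = algebraMap k E a} => (⟨g P.1, hfix _, by
      have := congrArg g P.2
      rw [map_mul, map_pow, AlgHom.commutes, AlgHom.commutes] at this
      exact this⟩ : {y : AlgebraicClosure k // y ^ (Nat.card k ^ m) = y ∧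
      algebraMap k (AlgebraicClosure k) d * y ^ 2 = algebraMap k (AlgebraicClosure k) a}))
      ⟨?_, ?_⟩)).symm
  · rintro ⟨x, hP⟩ ⟨x', hP'⟩ h
    simp only [Subtype.mk.injEq] at h
    exact Subtype.ext (g.toRingHom.injective h)
  · rintro ⟨y, h1, h3⟩
    rw [← hE] at h1
    obtain ⟨b, hb⟩ := pow_mem_range (E := E) h1
    rw [hg] at hb
    refine ⟨⟨b, ?_⟩, Subtype.ext hb⟩
    apply g.toRingHom.injective
    change g (algebraMap k E d * b ^ 2) = g (algebraMap k E a)
    rw [map_mul, map_pow, AlgHom.commutes, AlgHom.commutes, hb]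
    exact h3

end

section
variable {k : Type} [Field k] [Fintype k] [DecidableEq k]

/-- the trace as a character sum -/
theorem trG_eq (hk : ringChar k ≠ 2) (f : k[X]) {d : k} (hd : d ≠ 0) {m : ℕ}
    {E : Type} [Field E] [Fintype E] [DecidableEq E] [Algebra k E]
    (hE : Nat.card E = Nat.card k ^ m) :
    trG k f d m = -(quadraticChar E (algebraMap k E d) *
      ((∑ x : E, quadraticChar E ((f.map (algebraMap k E)).eval x)) +
        if Odd f.natDegree then 0 else quadraticChar E (algebraMap k E f.leadingCoeff))) := by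
  classical
  have hE2 : ringChar E ≠ 2 := by rwa [← Algebra.ringChar_eq k E]
  set g : E[X] := f.map (algebraMap k E) with hg
  have hd' : algebraMap k E d ≠ 0 := by
    rwa [Ne, FaithfulSMul.algebraMap_eq_zero_iff]
  have h1 : (affPts k f d m : ℤ) = Fintype.card E +
      quadraticChar E (algebraMap k E d) * ∑ x : E, quadraticChar E (g.eval x) := by
    rw [affPts_eq f d m E hE]
    have e1 : {P : E × E // algebraMap k E d * P.2 ^ 2 = aeval P.1 f} =
        {P : E × E // algebraMap k E d * P.2 ^ 2 = g.eval P.1} := by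
      congr 1
      funext P
      rw [hg, eval_map, aeval_def]
    rw [e1]
    exact card_aff hE2 g (algebraMap k E d) hd'
  rw [← Nat.card_eq_fintype_card, hE] at h1
  unfold trG infPts
  rw [h1]
  split_ifs with h2
  · push_cast
    ring
  · rw [infPts_eq f.leadingCoeff d m E hE,
      H341R2.card_sqrt hE2 (algebraMap k E d) (algebraMap k E f.leadingCoeff) hd']
    push_cast
    ring

theorem trG_twist (hk : ringChar k ≠ 2) (f : k[X]) {d : k} (hd : d ≠ 0) {m : ℕ} (hm : m ≠ 0) :
    trG k f d m = quadraticChar k d ^ m * trG k f 1 m := by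
  classical
  obtain ⟨E, i1, i2, i3, hE⟩ := exists_ext (k := k) m hm
  let _ := Fintype.ofFinite E
  rw [trG_eq hk f hd hE, trG_eq hk f one_ne_zero hE, map_one, map_one,
    quadraticChar_ext hk hE hd]
  ring

theorem trG_bound (hk : ringChar k ≠ 2) (f : k[X]) (hn : 1 ≤ f.natDegree)
    (hf : f.Separable) {m : ℕ} (hm : m ≠ 0) :
    |(trG k f 1 m : ℝ)| ≤ f.natDegree * Real.sqrt ((Nat.card k : ℝ) ^ m) := by
  classical
  obtain ⟨E, i1, i2, i3, hE⟩ := exists_ext (k := k) m hm
  let _ := Fintype.ofFinite E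
  have hE2 : ringChar E ≠ 2 := by rwa [← Algebra.ringChar_eq k E]
  rw [trG_eq hk f one_ne_zero hE, map_one, map_one]
  set g : E[X] := f.map (algebraMap k E) with hg
  have hgd : g.natDegree = f.natDegree := natDegree_map _
  have hgs : g.Separable := hf.map
  have h4 := H341R2.Sharp.weil_sharp hE2 g (by rw [hgd]; exact hn) (by
    intro c h hgh
    have h5 : h * h ∣ g := by
      rw [hgh, sq]
      exact Dvd.intro_left _ rfl
    have h6 : IsUnit h := hgs.squarefree h h5
    have h7 : g.natDegree = 0 := by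
      rw [hgh]
      have h8 : h.natDegree = 0 := natDegree_eq_zero_of_isUnit h6
      have h9 := natDegree_C_mul_le c (h ^ 2)
      rw [natDegree_pow, h8, mul_zero] at h9
      omega
    omega)
  rw [hgd] at h4
  have h5 : (Fintype.card E : ℝ) = (Nat.card k : ℝ) ^ m := by
    rw [← Nat.card_eq_fintype_card, hE]
    push_cast
    rfl
  rw [h5] at h4
  have h6 : (1 : ℝ) ≤ Real.sqrt ((Nat.card k : ℝ) ^ m) := by
    rw [Real.one_le_sqrt, ← h5]
    exact_mod_cast Fintype.card_pos
  push_cast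
  rw [abs_neg, one_mul]
  refine (abs_add_le _ _).trans ?_
  have h7 : |(if Odd f.natDegree then (0 : ℝ) else
      (quadraticChar E (algebraMap k E f.leadingCoeff) : ℝ))| ≤ 1 := by
    split_ifs
    · simp
    · by_cases h0 : algebraMap k E f.leadingCoeff = 0
      · simp [h0]
      · rcases quadraticChar_dichotomy h0 with h | h <;> simp [h]
  have h8 : (f.natDegree : ℝ) * Real.sqrt ((Nat.card k : ℝ) ^ m) =
      (f.natDegree - 1) * Real.sqrt ((Nat.card k : ℝ) ^ m) +
        1 * Real.sqrt ((Nat.card k : ℝ) ^ m) := by ring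
  rw [h8, one_mul]
  exact add_le_add h4 (h7.trans h6)

end

section
variable {F : Type} [Field F] [NumberField F]

/-- the trace of Frobenius at `v` of the curve `d y² = f(x)` -/
noncomputable def trH (v : HeightOneSpectrum (𝓞 F)) (f : (𝓞 F)[X]) (d : 𝓞 F) (m : ℕ) : ℤ :=
  haveI : v.asIdeal.IsMaximal := v.isMaximal
  letI : Field (𝓞 F ⧸ v.asIdeal) := Ideal.Quotient.field v.asIdeal
  trG (𝓞 F ⧸ v.asIdeal) (f.map (Ideal.Quotient.mk v.asIdeal)) (Ideal.Quotient.mk v.asIdeal d) m

theorem trH_twist (v : HeightOneSpectrum (𝓞 F)) (f : (𝓞 F)[X]) {d : 𝓞 F}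
    (h2d : 2 * d ∉ v.asIdeal) {m : ℕ} (hm : m ≠ 0) :
    (trH v f d m : ℝ) = ch d v ^ m * trH v f 1 m := by
  classical
  have : v.asIdeal.IsMaximal := v.isMaximal
  let _ : Field (𝓞 F ⧸ v.asIdeal) := Ideal.Quotient.field v.asIdeal
  have hfin : Finite (𝓞 F ⧸ v.asIdeal) := Ring.HasFiniteQuotients.finiteQuotient v.ne_bot
  let _ := Fintype.ofFinite (𝓞 F ⧸ v.asIdeal)
  have hd : Ideal.Quotient.mk v.asIdeal d ≠ 0 := by
    intro h0
    exact h2d (Ideal.mul_mem_left _ _ (Ideal.Quotient.eq_zero_iff_mem.1 h0))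
  have h2 : ringChar (𝓞 F ⧸ v.asIdeal) ≠ 2 := by
    intro h
    apply h2d
    refine Ideal.mul_mem_right _ _ (Ideal.Quotient.eq_zero_iff_mem.1 ?_)
    have h3 : ((2 : ℕ) : 𝓞 F ⧸ v.asIdeal) = 0 := (ringChar.spec _ 2).2 (by rw [h])
    rw [map_ofNat]
    exact_mod_cast h3
  have h3 := trG_twist h2 (f.map (Ideal.Quotient.mk v.asIdeal)) hd hm
  have h4 : trH v f d m = quadraticChar (𝓞 F ⧸ v.asIdeal) (Ideal.Quotient.mk v.asIdeal d) ^ m *
      trG (𝓞 F ⧸ v.asIdeal) (f.map (Ideal.Quotient.mk v.asIdeal)) 1 m := h3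
  have h5 : trH v f 1 m = trG (𝓞 F ⧸ v.asIdeal) (f.map (Ideal.Quotient.mk v.asIdeal)) 1 m := by
    unfold trH
    rw [map_one]
  rw [h4, h5]
  push_cast
  congr 2
  rcases ch_dichotomy d h2d with ⟨h6, h7⟩ | ⟨h6, h7⟩
  · rw [h7, (quadraticChar_one_iff_isSquare hd).2 h6]
    norm_num
  · rw [h7, quadraticChar_neg_one_iff_not_isSquare.2 h6]
    norm_num

/-- almost all primes are good -/
theorem exists_good (f : (𝓞 F)[X]) (hf : (f.map (algebraMap (𝓞 F) F)).Separable)
    (hn : 1 ≤ f.natDegree) : ∃ Z : Set (HeightOneSpectrum (𝓞 F)), Z.Finite ∧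
      ∀ v, v ∉ Z → ∀ m : ℕ, m ≠ 0 → |(trH v f 1 m : ℝ)| ≤
        f.natDegree * Real.sqrt ((Ideal.absNorm v.asIdeal : ℝ) ^ m) := by
  classical
  have hinj : Function.Injective (algebraMap (𝓞 F) F) := RingOfIntegers.coe_injective
  have hf0 : f ≠ 0 := by
    rintro rfl
    simp at hn
  set c : 𝓞 F := resultant f f.derivative f.natDegree f.derivative.natDegree with hc
  have hc0 : c ≠ 0 := by
    intro h0
    have h1 := resultant_ne_zero _ _ hf
    rw [derivative_map, natDegree_map_eq_of_injective hinj,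
      natDegree_map_eq_of_injective hinj, resultant_map_map, ← hc, h0, map_zero] at h1
    exact h1 rfl
  obtain ⟨p, q, _, _, hpq⟩ := exists_mul_add_mul_eq_C_resultant f f.derivative
    (m := f.natDegree) (n := f.derivative.natDegree) le_rfl le_rfl (Or.inl (by omega))
  rw [← hc] at hpq
  refine ⟨{v | 2 * (f.leadingCoeff * c) ∈ v.asIdeal}, finite_mem (mul_ne_zero two_ne_zero
    (mul_ne_zero (leadingCoeff_ne_zero.2 hf0) hc0)), fun v hv m hm => ?_⟩
  have hv' : 2 * (f.leadingCoeff * c) ∉ v.asIdeal := hv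
  have : v.asIdeal.IsMaximal := v.isMaximal
  let _ : Field (𝓞 F ⧸ v.asIdeal) := Ideal.Quotient.field v.asIdeal
  have hfin : Finite (𝓞 F ⧸ v.asIdeal) := Ring.HasFiniteQuotients.finiteQuotient v.ne_bot
  let _ := Fintype.ofFinite (𝓞 F ⧸ v.asIdeal)
  set π := Ideal.Quotient.mk v.asIdeal with hπ
  have hlc : π f.leadingCoeff ≠ 0 := by
    intro h0
    apply hv'
    exact Ideal.mul_mem_left _ _ (Ideal.mul_mem_right _ _ (Ideal.Quotient.eq_zero_iff_mem.1 h0))
  have hcc : π c ≠ 0 := by
    intro h0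
    apply hv'
    exact Ideal.mul_mem_left _ _ (Ideal.mul_mem_left _ _ (Ideal.Quotient.eq_zero_iff_mem.1 h0))
  have h2 : ringChar (𝓞 F ⧸ v.asIdeal) ≠ 2 := by
    intro h
    apply hv'
    refine Ideal.mul_mem_right _ _ (Ideal.Quotient.eq_zero_iff_mem.1 ?_)
    have h3 : ((2 : ℕ) : 𝓞 F ⧸ v.asIdeal) = 0 := (ringChar.spec _ 2).2 (by rw [h])
    rw [map_ofNat]
    exact_mod_cast h3
  have hdeg : (f.map π).natDegree = f.natDegree := natDegree_map_of_leadingCoeff_ne_zero _ hlc
  have hsep : (f.map π).Separable := by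
    have h3 := congrArg (Polynomial.map π) hpq
    rw [Polynomial.map_add, Polynomial.map_mul, Polynomial.map_mul, map_C,
      ← derivative_map] at h3
    refine ⟨C (π c)⁻¹ * p.map π, C (π c)⁻¹ * q.map π, ?_⟩
    have h4 : C (π c)⁻¹ * p.map π * f.map π + C (π c)⁻¹ * q.map π * derivative (f.map π) =
        C (π c)⁻¹ * (f.map π * p.map π + derivative (f.map π) * q.map π) := by ring
    rw [h4, h3, ← C_mul, inv_mul_cancel₀ hcc, C_1]
  have h3 := trG_bound h2 (f.map π) (by rw [hdeg]; exact hn) hsep hm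
  rw [hdeg] at h3
  have h5 : trH v f 1 m = trG (𝓞 F ⧸ v.asIdeal) (f.map π) 1 m := by
    unfold trH
    rw [map_one]
  rw [h5]
  exact h3

end

end Pool.Agent.W529.ST
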