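import Pool.Agent.W529.ST.LimU

/-! Limit measures of the Frobenius classes along a set of scales. -/

set_option autoImplicit false

namespace Pool.Agent.W529.ST

open NumberField IsDedekindDomain Filter Topology Polynomial Pool.Agent.H341R2
open Pool.Agent.W353.TP Pool.Agent.W353.AB MeasureTheory
open Pool.Agent.H921R2.TatePole (nm two_le_nm R hc R_eq_hc R_le kerPrime hom_finite)

section
variable {F : Type} [Field F] [NumberField F] {X : Type} [MetricSpace X] [MeasurableSpace X]
  [BorelSpace X]

/-- the number of primes of norm at most `N` is eventually positive -/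
theorem card_pos (F : Type) [Field F] [NumberField F] :
    ∀ᶠ N : ℕ in atTop,
      0 < Nat.card {v : HeightOneSpectrum (𝓞 F) // Ideal.absNorm v.asIdeal ≤ N} := by
  obtain ⟨v⟩ := (sysK F).nonempty
  filter_upwards [eventually_ge_atTop (Ideal.absNorm v.asIdeal)] with N hN
  have hfin := (finsum_eq (F := F) (fun _ => 0) N).1
  have : Nonempty {v : HeightOneSpectrum (𝓞 F) // Ideal.absNorm v.asIdeal ≤ N} := ⟨⟨v, hN⟩⟩
  exact Nat.card_pos

/-- the empirical measure -/
theorem exists_emp [Nonempty X] (c : HeightOneSpectrum (𝓞 F) → X) (N : ℕ) :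
    ∃ μ : ProbabilityMeasure X,
      0 < Nat.card {v : HeightOneSpectrum (𝓞 F) // Ideal.absNorm v.asIdeal ≤ N} →
      ∀ f : X → ℝ, Continuous f → ∫ y, f y ∂(μ : Measure X) = mean F (fun v => f (c v)) N := by
  classical
  by_cases h : 0 < Nat.card {v : HeightOneSpectrum (𝓞 F) // Ideal.absNorm v.asIdeal ≤ N}
  · have hfin := (finsum_eq (F := F) (fun _ => 0) N).1
    let _ := Fintype.ofFinite {v : HeightOneSpectrum (𝓞 F) // Ideal.absNorm v.asIdeal ≤ N}
    let t : ℕ := Nat.card {v : HeightOneSpectrum (𝓞 F) // Ideal.absNorm v.asIdeal ≤ N}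
    let ν : Measure X := ∑ v : {v : HeightOneSpectrum (𝓞 F) // Ideal.absNorm v.asIdeal ≤ N},
      Measure.dirac (c v.1)
    have hν : ν Set.univ = (t : ENNReal) := by
      change (∑ v : {v : HeightOneSpectrum (𝓞 F) // Ideal.absNorm v.asIdeal ≤ N},
        Measure.dirac (c v.1)) Set.univ = _
      rw [Measure.finsetSum_apply]
      simp only [measure_univ, Finset.sum_const, Finset.card_univ, nsmul_eq_mul, mul_one]
      rw [← Nat.card_eq_fintype_card]
    have ht : (t : ENNReal) ≠ 0 := by
      have : t ≠ 0 := h.ne'
      exact_mod_cast this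
    have ht' : (t : ENNReal) ≠ ⊤ := ENNReal.natCast_ne_top t
    have hp : IsProbabilityMeasure ((t : ENNReal)⁻¹ • ν) := ⟨by
      rw [Measure.smul_apply, hν, smul_eq_mul, ENNReal.inv_mul_cancel ht ht']⟩
    refine ⟨⟨(t : ENNReal)⁻¹ • ν, hp⟩, fun _ f hf => ?_⟩
    change ∫ y, f y ∂((t : ENNReal)⁻¹ • ν) = _
    rw [integral_smul_measure]
    have h1 : ∫ y, f y ∂ν = ∑ v : {v : HeightOneSpectrum (𝓞 F) // Ideal.absNorm v.asIdeal ≤ N},
        f (c v.1) := by
      change ∫ y, f y ∂(∑ v : {v : HeightOneSpectrum (𝓞 F) // Ideal.absNorm v.asIdeal ≤ N},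
        Measure.dirac (c v.1)) = _
      rw [integral_finsetSum_measure fun v _ => by
        refine (integrable_dirac ?_)
        exact enorm_lt_top]
      refine Finset.sum_congr rfl fun v _ => ?_
      exact integral_dirac _ _
    rw [h1]
    unfold mean
    rw [finsum_eq_sum_of_fintype, ENNReal.toReal_inv, ENNReal.toReal_natCast, smul_eq_mul,
      div_eq_inv_mul]
  · obtain ⟨x0⟩ := ‹Nonempty X›
    exact ⟨⟨Measure.dirac x0, inferInstance⟩, fun h' => absurd h' h⟩

/-- the empirical measure -/
noncomputable def emp [Nonempty X] (c : HeightOneSpectrum (𝓞 F) → X) (N : ℕ) :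
    ProbabilityMeasure X := (exists_emp c N).choose

theorem emp_spec [Nonempty X] (c : HeightOneSpectrum (𝓞 F) → X) :
    ∀ᶠ N : ℕ in atTop, ∀ f : X → ℝ, Continuous f →
      ∫ y, f y ∂(emp c N : Measure X) = mean F (fun v => f (c v)) N := by
  filter_upwards [card_pos F] with N hN
  exact (exists_emp c N).choose_spec hN

end

section

/-- a number field is countable -/
theorem countable_nf (K : Type) [Field K] [NumberField K] : Countable K := by
  have e := (Module.finBasis ℚ K).equivFun.toEquiv
  exact e.countable_iff.2 inferInstance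

theorem countable_ac (K : Type) [Field K] [NumberField K] : Countable (AlgebraicClosure K) := by
  have := countable_nf K
  have h := Algebraic.countable K (AlgebraicClosure K)
  have h2 : {x : AlgebraicClosure K | IsAlgebraic K x} = Set.univ := by
    ext x
    simp only [Set.mem_setOf_eq, Set.mem_univ, iff_true]
    exact Algebra.IsAlgebraic.isAlgebraic x
  rw [h2] at h
  exact Set.countable_univ_iff.1 h

theorem countable_fields (K : Type) [Field K] [NumberField K] :
    Countable {F : IntermediateField K (AlgebraicClosure K) // NumberField F} := by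
  have := countable_ac K
  have h : Function.Surjective (fun α : {α : AlgebraicClosure K //
      NumberField (IntermediateField.adjoin K ({α} : Set (AlgebraicClosure K)))} =>
      (⟨IntermediateField.adjoin K {α.1}, α.2⟩ :
        {F : IntermediateField K (AlgebraicClosure K) // NumberField F})) := by
    rintro ⟨F, hF⟩
    have hfd : FiniteDimensional K F := by
      have : FiniteDimensional ℚ F := NumberField.to_finiteDimensional
      exact Module.Finite.of_restrictScalars_finite ℚ K F
    obtain ⟨a, ha⟩ := Field.exists_primitive_element K F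
    have h1 : IntermediateField.adjoin K {(a : AlgebraicClosure K)} = F := by
      have h2 := congrArg (IntermediateField.map F.val) ha
      rw [IntermediateField.adjoin_map, Set.image_singleton] at h2
      have h3 : IntermediateField.map F.val ⊤ = F := by
        rw [← AlgHom.fieldRange_eq_map]
        exact F.fieldRange_val
      rw [h3] at h2
      exact h2
    refine ⟨⟨a, by rw [h1]; exact hF⟩, ?_⟩
    exact Subtype.ext h1
  exact h.countable

end

/-- a sequence in a compact first countable space converges along an infinite subset of a given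
infinite set -/
theorem exists_infinite_subset {Y : Type} [TopologicalSpace Y] [CompactSpace Y]
    [FirstCountableTopology Y] (u : ℕ → Y) (S : Set ℕ) (hS : S.Infinite) :
    ∃ S' ⊆ S, S'.Infinite ∧ ∃ y, Tendsto u (atTop ⊓ 𝓟 S') (𝓝 y) := by
  classical
  obtain ⟨y, φ, hφ, hy⟩ := CompactSpace.tendsto_subseq (fun j => u (Nat.nth (· ∈ S) j))
  have hsm : StrictMono (fun j => Nat.nth (· ∈ S) (φ j)) :=
    (Nat.nth_strictMono hS).comp hφ
  refine ⟨Set.range fun j => Nat.nth (· ∈ S) (φ j), ?_, Set.infinite_range_of_injective
    hsm.injective, y, ?_⟩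
  · rintro _ ⟨j, rfl⟩
    exact Nat.nth_mem_of_infinite hS _
  · rw [← Filter.map_comap, ← Nat.cofinite_eq_atTop, hsm.injective.comap_cofinite_eq,
      Nat.cofinite_eq_atTop, Filter.tendsto_map'_iff]
    exact hy

section
variable {X : Type} [MetricSpace X] [CompactSpace X] [MeasurableSpace X] [BorelSpace X]

/-- **Limit measures.** Every infinite set of scales contains an infinite subset along which the
classes of all twists over all extensions have limit measures. -/
theorem exists_limits [Nonempty X] {K : Type} [Field K] [NumberField K]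
    (c : ∀ (F : IntermediateField K (AlgebraicClosure K)) [NumberField F],
      𝓞 F → HeightOneSpectrum (𝓞 F) → X) (S : Set ℕ) (hS : S.Infinite) :
    ∃ S' ⊆ S, S'.Infinite ∧
      ∃ μ : ∀ (F : IntermediateField K (AlgebraicClosure K)) [NumberField F],
        𝓞 F → ProbabilityMeasure X,
        ∀ (F : IntermediateField K (AlgebraicClosure K)) [NumberField F] (d : 𝓞 F)
          (f : X → ℝ), Continuous f →
          Tendsto (mean F (fun w => f (c F d w))) (atTop ⊓ 𝓟 S')
            (𝓝 (∫ y, f y ∂(μ F d : Measure X))) := by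
  have h1 := countable_fields K
  have h2 := countable_ac K
  have h3 : ∀ F : {F : IntermediateField K (AlgebraicClosure K) // NumberField F},
      Countable (𝓞 F.1) := fun F =>
    Function.Injective.countable (f := fun d : 𝓞 F.1 => ((d : F.1) : AlgebraicClosure K))
      (fun a b h => RingOfIntegers.ext (Subtype.ext h))
  let I := Σ F : {F : IntermediateField K (AlgebraicClosure K) // NumberField F}, 𝓞 F.1
  let u : ℕ → (I → ProbabilityMeasure X) := fun N i =>
    haveI := i.1.2
    emp (c i.1.1 i.2) N
  obtain ⟨S', hS', hinf, y, hy⟩ := exists_infinite_subset u S hS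
  refine ⟨S', hS', hinf, fun F hF d => y ⟨⟨F, hF⟩, d⟩, fun F hF d f hf => ?_⟩
  have h4 := (tendsto_pi_nhds.1 hy) ⟨⟨F, hF⟩, d⟩
  rw [ProbabilityMeasure.tendsto_iff_forall_integral_tendsto] at h4
  have h5 := h4 (BoundedContinuousFunction.mkOfCompact ⟨f, hf⟩)
  refine Tendsto.congr' ?_ h5
  have h6 : ∀ᶠ N in atTop ⊓ 𝓟 S', ∀ f : X → ℝ, Continuous f →
      ∫ y, f y ∂(emp (c F d) N : Measure X) = mean F (fun v => f (c F d v)) N :=
    (emp_spec (c F d)).filter_mono inf_le_left
  filter_upwards [h6] with N hN
  exact hN f hf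

end

end Pool.Agent.W529.ST
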