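import Pool.Agent.W529.ST.Meas

/-! One finite extension governs all Lipschitz test functions, for the limits along an
ultrafilter. -/

set_option autoImplicit false

namespace Pool.Agent.W529.ST

open NumberField IsDedekindDomain Filter Topology Polynomial Pool.Agent.H341R2
open Pool.Agent.W353.TP Pool.Agent.W353.AB
open Pool.Agent.H921R2.TatePole (nm two_le_nm R hc R_eq_hc R_le kerPrime hom_finite)

/-- **One finite extension governs all Lipschitz test functions**, along an ultrafilter. -/
theorem main_U (X : Type) [MetricSpace X] [CompactSpace X] (n k : ℕ) (hk : 1 ≤ k) :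
    ∃ B : ℕ, ∀ (K : Type) [Field K] [NumberField K] (σ : X → X) (_ : LipschitzWith 1 σ)
      (_ : ∀ y, σ (σ y) = y) (x : HeightOneSpectrum (𝓞 K) → X)
      (c : ∀ (F : IntermediateField K (AlgebraicClosure K)) [NumberField F],
        𝓞 F → HeightOneSpectrum (𝓞 F) → X) (_ : IsFamily σ x c)
      (L : IntermediateField K (AlgebraicClosure K)) [FiniteDimensional K L] [Normal K L]
      (U : Ultrafilter ℕ) (_ : (U : Filter ℕ) ≤ atTop),
      ∃ M : IntermediateField K (AlgebraicClosure K),
        L ≤ M ∧ FiniteDimensional K M ∧ IsGalois K M ∧ Normal K M ∧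
        Module.finrank K M ≤ B * Module.finrank K L ∧
        (∀ (F : IntermediateField K (AlgebraicClosure K)) [NumberField F] (d : 𝓞 F),
          Module.finrank K F ≤ n → d ≠ 0 → (∀ y ∈ F ⊔ M, y ^ 2 ≠ inj d) →
          ∀ f : X → ℝ, Test f → ∀ α β : ℝ, Tendsto (mean F (fun w => f (c F d w))) U (𝓝 α) →
            Tendsto (mean F (fun w => f (σ (c F d w)))) U (𝓝 β) → |α - β| < 1 / k) ∧
        (∀ (F F₀ : IntermediateField K (AlgebraicClosure K)) [NumberField F] [NumberField F₀],
          F₀ = F ⊓ M → Module.finrank K F ≤ n → ∀ (d : 𝓞 F) (e : 𝓞 F₀), d ≠ 0 → e ≠ 0 →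
          Related M d e →
          ∀ f : X → ℝ, Test f → ∀ α β : ℝ, Tendsto (mean F (fun w => f (c F d w))) U (𝓝 α) →
            Tendsto (mean F₀ (fun w => f (c F₀ e w))) U (𝓝 β) → |α - β| < 1 / k) := by
  classical
  have hkR : (0 : ℝ) < k := by exact_mod_cast hk
  obtain ⟨s, h, hh, hnet⟩ := exists_net X (ε := 1 / (8 * k)) (by positivity)
  refine ⟨((4 * n).factorial ^ (4 * n * (8 * k) ^ 2)) ^ (Finset.univ : Finset (Fin s × Bool)).card,
    ?_⟩
  intro K _ _ σ hσ1 hσ2 x c hc L _ _ U hU
  have hb : ∀ i (y : HX K), |va x (h i) y| ≤ 1 := fun i y => (hh i).2 _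
  have hb' : ∀ i (y : HX K), |va x (h i ∘ σ) y| ≤ 1 := fun i y => (hh i).2 _
  let PP : Bool → Finset Bool := fun t => if t then {true} else Finset.univ
  have hst := fun j : Fin s × Bool => stabG (va x (h j.1)) (va x (h j.1 ∘ σ)) (hb j.1) (hb' j.1)
    (PP j.2) n (8 * k) U hU
  choose Mj hM1 hM2 hM3 hA hB using hst
  set M₁ : IntermediateField K (AlgebraicClosure K) := ⨆ j ∈ (Finset.univ : Finset (Fin s × Bool)),
    Mj j with hM₁
  have hle₁ : ∀ j, Mj j ≤ M₁ := fun j =>
    le_iSup₂ (f := fun j (_ : j ∈ (Finset.univ : Finset (Fin s × Bool))) => Mj j) j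
      (Finset.mem_univ j)
  have hfM₁ : FiniteDimensional K M₁ := IntermediateField.finiteDimensional_iSup_of_finset
  have hnM₁ : Normal K M₁ := normal_biSup _ hM2 _
  set M : IntermediateField K (AlgebraicClosure K) := M₁ ⊔ L with hM
  have hle : ∀ j, Mj j ≤ M := fun j => (hle₁ j).trans le_sup_left
  have hfM : FiniteDimensional K M := IntermediateField.finiteDimensional_sup _ _
  have hnM : Normal K M := IntermediateField.normal_sup K (AlgebraicClosure K) M₁ L
  have hsep : Algebra.IsSeparable K M := inferInstance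
  -- limits
  have hlim : ∀ (i : Fin s) (F : IntermediateField K (AlgebraicClosure K)) [NumberField F]
      (d : 𝓞 F), d ≠ 0 → Tendsto (mean F (fun w => h i (c F d w))) U
        (𝓝 (uN U (corrN (syG (va x (h i)) (va x (h i ∘ σ)) (hb i) (hb' i) (PP false))
          (fun _ : Fin 1 => d)))) := by
    intro i F _ d hd
    have e1 := mean_full hc (h i) (hh i).2 F d hd
    exact IsMean.lim (𝒮 := syG (va x (h i)) (va x (h i ∘ σ)) (hb i) (hb' i) (PP false))
      (fun _ => hd) e1 U hU
  have hlimo : ∀ (i : Fin s) (F : IntermediateField K (AlgebraicClosure K)) [NumberField F]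
      (d : 𝓞 F), d ≠ 0 → Tendsto (mean F (fun w => (1 / 2) * h i (c F d w) +
        (-1 / 2) * h i (σ (c F d w)))) U
        (𝓝 (uN U (corrN (syG (va x (h i)) (va x (h i ∘ σ)) (hb i) (hb' i) (PP true))
          (fun _ : Fin 1 => d)))) := by
    intro i F _ d hd
    have e1 := mean_odd hc hσ2 (h i) (hh i).2 F d hd
    exact IsMean.lim (𝒮 := syG (va x (h i)) (va x (h i ∘ σ)) (hb i) (hb' i) (PP true))
      (fun _ => hd) e1 U hU
  have hdiv : ∀ {z : ℝ}, ((8 * k : ℕ) : ℝ) * |z| < 1 → |z| < 1 / (8 * k) := by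
    intro z hz
    rw [lt_div_iff₀ (by positivity), mul_comm]
    push_cast at hz
    exact hz
  -- comparison of the limits
  have hcmp : ∀ (i : Fin s) (F F₀ : IntermediateField K (AlgebraicClosure K)) [NumberField F]
      [NumberField F₀], F₀ = F ⊓ M → Module.finrank K F ≤ n → ∀ (d : 𝓞 F) (e : 𝓞 F₀), d ≠ 0 →
      e ≠ 0 → Related M d e →
      |uN U (corrN (syG (va x (h i)) (va x (h i ∘ σ)) (hb i) (hb' i) (PP false))
          (fun _ : Fin 1 => d)) -
        uN U (corrN (syG (va x (h i)) (va x (h i ∘ σ)) (hb i) (hb' i) (PP false))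
          (fun _ : Fin 1 => e))| < 1 / (4 * k) := by
    intro i F F₀ _ _ hF₀ hF d e hd he hR
    have hF₀F : F₀ ≤ F := by rw [hF₀]; exact inf_le_left
    have hnf : NumberField (F ⊓ Mj (i, false) : IntermediateField K (AlgebraicClosure K)) := by
      have : FiniteDimensional K (F ⊓ Mj (i, false) : IntermediateField K (AlgebraicClosure K)) :=
        FiniteDimensional.of_injective (IntermediateField.inclusion inf_le_left :
          (F ⊓ Mj (i, false) : IntermediateField K (AlgebraicClosure K)) →ₐ[K] F).toLinearMap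
          (IntermediateField.inclusion_injective inf_le_left)
      exact NumberField.of_module_finite K _
    have hF₁ : (F ⊓ Mj (i, false) : IntermediateField K (AlgebraicClosure K)) =
        F₀ ⊓ Mj (i, false) := by
      rw [hF₀, inf_assoc, inf_eq_right.2 (hle (i, false))]
    obtain ⟨e₁, he₁, hR₁⟩ := exists_related (Mj (i, false)) F₀ (F ⊓ Mj (i, false)) hF₁ e he
    have hR₂ : Related (Mj (i, false)) d e₁ := related_down (hle (i, false)) hF₀ hd he he₁ hR hR₁
    have h1 := hdiv (hB (i, false) F (F ⊓ Mj (i, false)) rfl hF d e₁ hd he₁ hR₂)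
    have h2 := hdiv (hB (i, false) F₀ (F ⊓ Mj (i, false)) hF₁ ((finrank_mono' hF₀F).trans hF) e e₁
      he he₁ hR₁)
    have e1 : (1 : ℝ) / (4 * k) = 1 / (8 * k) + 1 / (8 * k) := by
      field_simp
      norm_num
    rw [e1]
    rw [abs_sub_comm] at h2
    refine (abs_sub_le _ _ _).trans_lt (add_lt_add h1 h2)
  have hclose : ∀ (F : IntermediateField K (AlgebraicClosure K)) [NumberField F]
      (c' : HeightOneSpectrum (𝓞 F) → X) (f : X → ℝ) (i : Fin s),
      (∀ y, |f y - h i y| ≤ 1 / (8 * k)) → ∀ N,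
        |mean F (fun w => f (c' w)) N - mean F (fun w => h i (c' w)) N| ≤ 1 / (8 * k) :=
    fun F _ c' f i hi N => mean_close (fun w => hi (c' w)) N
  refine ⟨M, le_sup_right, hfM, IsGalois.mk, hnM, ?_, ?_, ?_⟩
  · refine (IntermediateField.finrank_sup_le M₁ L).trans ?_
    exact Nat.mul_le_mul_right _ (finrank_iSup_le _ _ _ fun j _ => hM3 j)
  · intro F _ d hF hd hsq f hf α β hα hβ
    obtain ⟨i, hi⟩ := hnet f hf
    have h1 := hdiv (hA (i, true) rfl F d hF hd fun y hy =>
      hsq y ((sup_le_sup_left (hle (i, true)) F) hy))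
    have h0 := hlimo i F d hd
    have h2 : Tendsto (fun N => |mean F (fun w => f (c F d w)) N -
        mean F (fun w => f (σ (c F d w))) N|) U (𝓝 |α - β|) := (hα.sub hβ).abs
    have h3 : Tendsto (fun N => 2 * |mean F (fun w => (1 / 2) * h i (c F d w) +
        (-1 / 2) * h i (σ (c F d w))) N| + 2 * (1 / (8 * k : ℝ))) U
        (𝓝 (2 * |uN U (corrN (syG (va x (h i)) (va x (h i ∘ σ)) (hb i) (hb' i) (PP true))
          (fun _ : Fin 1 => d))| + 2 * (1 / (8 * k : ℝ)))) := (h0.abs.const_mul 2).add_const _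
    have h4 := le_of_tendsto_of_tendsto' h2 h3 (fun N => by
      have h5 := hclose F (fun w => c F d w) f i hi N
      have h6 := hclose F (fun w => σ (c F d w)) f i hi N
      rw [mean_lin]
      have h7 : 2 * |1 / 2 * mean F (fun w => h i (c F d w)) N +
          -1 / 2 * mean F (fun w => h i (σ (c F d w))) N| =
          |mean F (fun w => h i (c F d w)) N - mean F (fun w => h i (σ (c F d w))) N| := by
        rw [← abs_two, ← abs_mul]
        congr 1
        rw [abs_two]
        ring
      rw [h7]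
      have h8 : mean F (fun w => f (c F d w)) N - mean F (fun w => f (σ (c F d w))) N =
          (mean F (fun w => f (c F d w)) N - mean F (fun w => h i (c F d w)) N) +
          (mean F (fun w => h i (c F d w)) N - mean F (fun w => h i (σ (c F d w))) N) +
          (mean F (fun w => h i (σ (c F d w))) N - mean F (fun w => f (σ (c F d w))) N) := by ring
      rw [h8]
      refine (abs_add_three _ _ _).trans ?_
      rw [abs_sub_comm (mean F (fun w => h i (σ (c F d w))) N)]
      linarith)
    refine h4.trans_lt ?_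
    have h5 : (1 : ℝ) / k = 8 * (1 / (8 * k)) := by field_simp
    have h6 : 0 < (1 : ℝ) / (8 * k) := by positivity
    rw [h5]
    linarith
  · intro F F₀ _ _ hF₀ hF d e hd he hR f hf α β hα hβ
    obtain ⟨i, hi⟩ := hnet f hf
    have h1 := hcmp i F F₀ hF₀ hF d e hd he hR
    have h2 : |α - uN U (corrN (syG (va x (h i)) (va x (h i ∘ σ)) (hb i) (hb' i)
          (PP false)) (fun _ : Fin 1 => d))| ≤ 1 / (8 * k) :=
      le_of_tendsto ((hα.sub (hlim i F d hd)).abs)
        (Eventually.of_forall fun N => hclose F (fun w => c F d w) f i hi N)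
    have h3 : |β - uN U (corrN (syG (va x (h i)) (va x (h i ∘ σ)) (hb i) (hb' i)
          (PP false)) (fun _ : Fin 1 => e))| ≤ 1 / (8 * k) :=
      le_of_tendsto ((hβ.sub (hlim i F₀ e he)).abs)
        (Eventually.of_forall fun N => hclose F₀ (fun w => c F₀ e w) f i hi N)
    have h5 : (1 : ℝ) / k = 8 * (1 / (8 * k)) := by field_simp
    have h6 : 0 < (1 : ℝ) / (8 * k) := by positivity
    have h7 : (1 : ℝ) / (4 * k) = 2 * (1 / (8 * k)) := by
      field_simp
      norm_num
    rw [h5]
    rw [h7] at h1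
    rw [abs_lt] at h1 ⊢
    rw [abs_le] at h2 h3
    constructor <;> linarith [h1.1, h1.2, h2.1, h2.2, h3.1, h3.2]

end Pool.Agent.W529.ST
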