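import Pool.Agent.W353.TP.Gram
import Pool.Agent.H484R2.Pit

/-! Natural means over the primes, and the Gram matrix of the quadratic characters of the finite
extensions of a number field in natural density. -/

set_option autoImplicit false

namespace Pool.Agent.W529.ST

open Filter Topology NumberField IsDedekindDomain Pool.Agent.H341R2 Pool.Agent.W353.TP
open Pool.Agent.H921R2.TatePole (nm two_le_nm R hc R_eq_hc R_le kerPrime hom_finite C0)
open scoped TensorProduct

/-- the primes up to `N` -/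
def PR (N : ℕ) : Finset Nat.Primes := (Finset.range (N + 1)).subtype Nat.Prime

theorem card_PR (N : ℕ) : (PR N).card = Nat.primeCounting N := by
  refine (Finset.card_subtype Nat.Prime (Finset.range (N + 1))).trans ?_
  rw [Nat.primeCounting, Nat.primeCounting', Nat.count_eq_card_filter_range]

theorem mem_PR {N : ℕ} {p : Nat.Primes} : p ∈ PR N ↔ (p : ℕ) ≤ N := by
  refine (Finset.mem_subtype (p := Nat.Prime) (s := Finset.range (N + 1)) (a := p)).trans ?_
  rw [Finset.mem_range]
  exact Nat.lt_succ_iff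

/-- natural mean over the primes up to `N` -/
noncomputable def Av (N : ℕ) (φ : Nat.Primes → ℝ) : ℝ :=
  (∑ p ∈ PR N, φ p) / (Nat.primeCounting N : ℝ)

theorem Av_add (N : ℕ) (φ ψ : Nat.Primes → ℝ) :
    Av N (fun p => φ p + ψ p) = Av N φ + Av N ψ := by
  unfold Av
  rw [Finset.sum_add_distrib, add_div]

theorem Av_sub (N : ℕ) (φ ψ : Nat.Primes → ℝ) :
    Av N (fun p => φ p - ψ p) = Av N φ - Av N ψ := by
  unfold Av
  rw [Finset.sum_sub_distrib, sub_div]

theorem Av_mul (N : ℕ) (c : ℝ) (φ : Nat.Primes → ℝ) :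
    Av N (fun p => c * φ p) = c * Av N φ := by
  unfold Av
  rw [← Finset.mul_sum, mul_div_assoc]

theorem Av_sum {κ : Type*} (N : ℕ) (T : Finset κ) (φ : κ → Nat.Primes → ℝ) :
    Av N (fun p => ∑ k ∈ T, φ k p) = ∑ k ∈ T, Av N (φ k) := by
  unfold Av
  rw [Finset.sum_comm, Finset.sum_div]

theorem Av_mono {N : ℕ} {φ ψ : Nat.Primes → ℝ} (h : ∀ p, φ p ≤ ψ p) : Av N φ ≤ Av N ψ := by
  unfold Av
  exact div_le_div_of_nonneg_right (Finset.sum_le_sum fun p _ => h p) (Nat.cast_nonneg _)

theorem abs_Av_le (N : ℕ) (φ : Nat.Primes → ℝ) : |Av N φ| ≤ Av N fun p => |φ p| := by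
  unfold Av
  rw [abs_div, abs_of_nonneg (Nat.cast_nonneg (Nat.primeCounting N) : (0 : ℝ) ≤ _)]
  exact div_le_div_of_nonneg_right (Finset.abs_sum_le_sum_abs _ _) (Nat.cast_nonneg _)

theorem pc_atTop : Tendsto (fun N : ℕ => (Nat.primeCounting N : ℝ)) atTop atTop :=
  tendsto_natCast_atTop_atTop.comp Nat.tendsto_primeCounting

/-- functions of mean zero -/
def NN (φ : Nat.Primes → ℝ) : Prop := Tendsto (fun N => Av N φ) atTop (𝓝 0)

theorem NN.add {φ ψ : Nat.Primes → ℝ} (h : NN φ) (h' : NN ψ) : NN fun p => φ p + ψ p := by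
  have := Tendsto.add h h'
  rw [add_zero] at this
  exact Tendsto.congr (fun N => (Av_add N φ ψ).symm) this

theorem NN.sub {φ ψ : Nat.Primes → ℝ} (h : NN φ) (h' : NN ψ) : NN fun p => φ p - ψ p := by
  have := Tendsto.sub h h'
  rw [sub_zero] at this
  exact Tendsto.congr (fun N => (Av_sub N φ ψ).symm) this

theorem NN.mul {φ : Nat.Primes → ℝ} (c : ℝ) (h : NN φ) : NN fun p => c * φ p := by
  have := Tendsto.const_mul c h
  rw [mul_zero] at this
  exact Tendsto.congr (fun N => (Av_mul N c φ).symm) this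

theorem NN.sum {κ : Type*} (T : Finset κ) {φ : κ → Nat.Primes → ℝ} (h : ∀ k ∈ T, NN (φ k)) :
    NN fun p => ∑ k ∈ T, φ k p := by
  have := tendsto_finsetSum T h
  rw [Finset.sum_const_zero] at this
  exact Tendsto.congr (fun N => (Av_sum N T φ).symm) this

/-- a function supported on the prime divisors of an integer has mean zero -/
theorem NN.of_dvd {φ : Nat.Primes → ℝ} {M : ℤ} (hM : M ≠ 0)
    (h : ∀ p : Nat.Primes, ¬ ((p : ℕ) : ℤ) ∣ M → φ p = 0) : NN φ := by
  classical
  have hfin : {p : Nat.Primes | ((p : ℕ) : ℤ) ∣ M}.Finite := by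
    have h1 : (M.natAbs.primeFactors : Set ℕ).Finite := Finset.finite_toSet _
    refine (h1.preimage (f := fun p : Nat.Primes => (p : ℕ)) ?_).subset ?_
    · exact fun a _ b _ h => Subtype.ext h
    · intro p hp
      simp only [Set.mem_preimage, Finset.mem_coe, Nat.mem_primeFactors]
      refine ⟨p.2, ?_, Int.natAbs_ne_zero.2 hM⟩
      exact Int.natCast_dvd.1 hp
  have hb : ∀ N : ℕ, |∑ p ∈ PR N, φ p| ≤ ∑ p ∈ hfin.toFinset, |φ p| := by
    intro N
    refine (Finset.abs_sum_le_sum_abs _ _).trans ?_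
    have e1 : ∑ p ∈ PR N, |φ p| = ∑ p ∈ (PR N).filter (fun p => p ∈ hfin.toFinset), |φ p| := by
      refine (Finset.sum_filter_of_ne fun p _ hp => ?_).symm
      rw [Set.Finite.mem_toFinset]
      by_contra hc
      exact hp (by rw [h p hc, abs_zero])
    rw [e1]
    refine Finset.sum_le_sum_of_subset_of_nonneg (fun p hp => (Finset.mem_filter.1 hp).2) ?_
    exact fun p _ _ => abs_nonneg _
  refine squeeze_zero_norm (a := fun N => (∑ p ∈ hfin.toFinset, |φ p|) /
    (Nat.primeCounting N : ℝ)) (fun N => ?_) (Tendsto.div_atTop tendsto_const_nhds pc_atTop)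
  unfold Av
  rw [Real.norm_eq_abs, abs_div, abs_of_nonneg (Nat.cast_nonneg (Nat.primeCounting N) : (0 : ℝ) ≤ _)]
  exact div_le_div_of_nonneg_right (hb N) (Nat.cast_nonneg _)

theorem NN.congr {φ ψ : Nat.Primes → ℝ} (h : NN φ) {M : ℤ} (hM : M ≠ 0)
    (hh : ∀ p : Nat.Primes, ¬ ((p : ℕ) : ℤ) ∣ M → φ p = ψ p) : NN ψ := by
  have h1 : NN fun p => ψ p - φ p := NN.of_dvd hM fun p hp => by rw [hh p hp, sub_self]
  have h2 := h1.add h
  refine Tendsto.congr (fun N => ?_) h2
  congr 1
  funext p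
  ring

section
variable {K : Type} [Field K] [NumberField K]

/-- the number of homomorphisms to a prime field has mean one -/
theorem mean_hc (K : Type) [Field K] [NumberField K] :
    NN fun p => (hc (𝓞 K) (p : ℕ) : ℝ) - 1 := by
  have h1 := Pool.Agent.H484R2.pit K
  have h2 : Tendsto (fun N : ℕ => (∑ p ∈ (Finset.range (N + 1)).filter Nat.Prime,
      (Nat.card (𝓞 K →+* ZMod p) : ℝ)) / (Nat.primeCounting N : ℝ)) atTop (𝓝 1) := h1
  have h3 := h2.sub_const 1
  rw [sub_self] at h3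
  refine h3.congr' ?_
  have hp : ∀ᶠ N : ℕ in atTop, 0 < (Nat.primeCounting N : ℝ) := pc_atTop.eventually_gt_atTop 0
  filter_upwards [hp] with N hN
  rw [Av_sub]
  congr 1
  · unfold Av PR
    congr 1
    exact (Finset.sum_subtype_eq_sum_filter (s := Finset.range (N + 1)) (p := Nat.Prime)
      (fun p => (Nat.card (𝓞 K →+* ZMod p) : ℝ))).symm
  · unfold Av
    rw [Finset.sum_const, card_PR, nsmul_eq_mul, mul_one, div_self hN.ne']

end

end Pool.Agent.W529.ST
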