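import Pool.Agent.W529.ST.Met

/-! One finite extension governs all Lipschitz test functions. -/

set_option autoImplicit false

namespace Pool.Agent.W529.ST

open NumberField IsDedekindDomain Filter Topology Polynomial Pool.Agent.H341R2
open Pool.Agent.W353.TP Pool.Agent.W353.AB
open Pool.Agent.H921R2.TatePole (nm two_le_nm R hc R_eq_hc R_le kerPrime hom_finite)

section
variable {F : Type} [Field F] [NumberField F]

theorem mean_lin (φ φ' : HeightOneSpectrum (𝓞 F) → ℝ) (c c' : ℝ) (N : ℕ) :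
    mean F (fun v => c * φ v + c' * φ' v) N = c * mean F φ N + c' * mean F φ' N := by
  have hfin := (finsum_eq (F := F) φ N).1
  let _ := Fintype.ofFinite {v : HeightOneSpectrum (𝓞 F) // Ideal.absNorm v.asIdeal ≤ N}
  unfold mean
  rw [finsum_eq_sum_of_fintype, finsum_eq_sum_of_fintype, finsum_eq_sum_of_fintype,
    Finset.sum_add_distrib, ← Finset.mul_sum, ← Finset.mul_sum, add_div, mul_div_assoc,
    mul_div_assoc]

theorem mean_close {φ φ' : HeightOneSpectrum (𝓞 F) → ℝ} {ε : ℝ} (h : ∀ v, |φ v - φ' v| ≤ ε)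
    (N : ℕ) : |mean F φ N - mean F φ' N| ≤ ε := by
  have hε : 0 ≤ ε := by
    obtain ⟨v⟩ := (sysK F).nonempty
    exact (abs_nonneg _).trans (h v)
  have hfin := (finsum_eq (F := F) φ N).1
  let _ := Fintype.ofFinite {v : HeightOneSpectrum (𝓞 F) // Ideal.absNorm v.asIdeal ≤ N}
  unfold mean
  rw [finsum_eq_sum_of_fintype, finsum_eq_sum_of_fintype, ← sub_div, ← Finset.sum_sub_distrib,
    abs_div, abs_of_nonneg (Nat.cast_nonneg (Nat.card _) : (0 : ℝ) ≤ _)]
  refine div_le_of_le_mul₀ (Nat.cast_nonneg _) hε ?_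
  refine (Finset.abs_sum_le_sum_abs _ _).trans ?_
  refine (Finset.sum_le_sum fun v _ => h v.1).trans ?_
  rw [Finset.sum_const, Finset.card_univ, nsmul_eq_mul, Nat.card_eq_fintype_card, mul_comm]

end

section
variable {K : Type} [Field K] [NumberField K]

/-- classes of the Frobenius elements of the base changes to `F ⊇ K` and of their twists by the
quadratic characters of `F(√d)/F`; `σ` is the twist of a class by the nontrivial value -/
def IsFamily {X : Type} (σ : X → X) (x : HeightOneSpectrum (𝓞 K) → X)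
    (c : ∀ (F : IntermediateField K (AlgebraicClosure K)) [NumberField F],
      𝓞 F → HeightOneSpectrum (𝓞 F) → X) : Prop :=
  ∀ (F : IntermediateField K (AlgebraicClosure K)) [NumberField F] (d : 𝓞 F)
    (w : HeightOneSpectrum (𝓞 F)) (v : HeightOneSpectrum (𝓞 K)),
    w.asIdeal.comap (algebraMap (𝓞 K) (𝓞 F)) = v.asIdeal →
    Ideal.absNorm w.asIdeal = Ideal.absNorm v.asIdeal → 2 * d ∉ w.asIdeal →
    (IsSquare (Ideal.Quotient.mk w.asIdeal d) → c F d w = x v) ∧
    (¬ IsSquare (Ideal.Quotient.mk w.asIdeal d) → c F d w = σ (x v))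

/-- the class at a homomorphism to a prime field -/
noncomputable def xh {X : Type} (x : HeightOneSpectrum (𝓞 K) → X) (z : HX K) : X :=
  x (kerPrime z.1 z.2).1.1

theorem family_ker {X : Type} {σ : X → X} {x : HeightOneSpectrum (𝓞 K) → X}
    {c : ∀ (F : IntermediateField K (AlgebraicClosure K)) [NumberField F],
      𝓞 F → HeightOneSpectrum (𝓞 F) → X} (hc : IsFamily σ x c)
    (F : IntermediateField K (AlgebraicClosure K)) [NumberField F] (d : 𝓞 F)
    (p : Nat.Primes) [Fact (p : ℕ).Prime] (hp : ¬ ((p : ℕ) : ℤ) ∣ N0 d)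
    (ψ : 𝓞 F →+* ZMod (p : ℕ)) :
    (qh d ⟨p, ψ⟩ = 1 ∧ c F d (kerPrime p ψ).1.1 = xh x ⟨p, res K ψ⟩) ∨
    (qh d ⟨p, ψ⟩ = -1 ∧ c F d (kerPrime p ψ).1.1 = σ (xh x ⟨p, res K ψ⟩)) := by
  have h2d : ψ (2 * d) ≠ 0 := by
    obtain ⟨e, he⟩ := dvd_N0 d
    intro h0
    apply hp
    have h8 := congrArg ψ he
    rw [map_mul, h0, mul_zero, map_intCast, ZMod.intCast_zmod_eq_zero_iff_dvd] at h8
    exact h8
  have hψd : ψ d ≠ 0 := by
    intro h0
    apply h2d
    rw [map_mul, h0, mul_zero]
  have hcm : (kerPrime p ψ).1.1.asIdeal.comap (algebraMap (𝓞 K) (𝓞 F)) =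
      (kerPrime p (res K ψ)).1.1.asIdeal := by
    change (RingHom.ker ψ).comap (algebraMap (𝓞 K) (𝓞 F)) = RingHom.ker (res K ψ)
    ext z
    rw [Ideal.mem_comap, RingHom.mem_ker, RingHom.mem_ker]
    rfl
  have hnm : Ideal.absNorm (kerPrime p ψ).1.1.asIdeal =
      Ideal.absNorm (kerPrime p (res K ψ)).1.1.asIdeal := by
    have h1 : Ideal.absNorm (kerPrime p ψ).1.1.asIdeal = (p : ℕ) := nm_kerPrime p ψ
    have h2 : Ideal.absNorm (kerPrime p (res K ψ)).1.1.asIdeal = (p : ℕ) :=
      nm_kerPrime p (res K ψ)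
    rw [h1, h2]
  have h2dw : 2 * d ∉ (kerPrime p ψ).1.1.asIdeal := fun h => h2d h
  have hdw : Ideal.Quotient.mk (kerPrime p ψ).1.1.asIdeal d ≠ 0 := by
    intro h
    exact hψd (Ideal.Quotient.eq_zero_iff_mem.1 h)
  obtain ⟨h3, h4⟩ := hc F d (kerPrime p ψ).1.1 (kerPrime p (res K ψ)).1.1 hcm hnm h2dw
  have h5 : (chi d (kerPrime p ψ).1.1 : ℤ) = quadraticChar (ZMod (p : ℕ)) (ψ d) :=
    chi_kerPrime d p ψ
  have h6 : chi d (kerPrime p ψ).1.1 = 1 ↔ IsSquare (Ideal.Quotient.mk (kerPrime p ψ).1.1.asIdeal d) :=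
    quadraticChar_one_iff_isSquare hdw
  rw [qh_eq]
  rcases quadraticChar_dichotomy hψd with h | h
  · left
    refine ⟨by rw [h]; norm_num, h3 (h6.1 (by rw [h5, h]))⟩
  · right
    refine ⟨by rw [h]; norm_num, h4 fun hs => ?_⟩
    have := h6.2 hs
    rw [h5, h] at this
    norm_num at this

variable {X : Type} {σ : X → X} {x : HeightOneSpectrum (𝓞 K) → X}
  {c : ∀ (F : IntermediateField K (AlgebraicClosure K)) [NumberField F],
    𝓞 F → HeightOneSpectrum (𝓞 F) → X}

/-- the values of a test function -/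
noncomputable def va (x : HeightOneSpectrum (𝓞 K) → X) (f : X → ℝ) (z : HX K) : ℝ := f (xh x z)

/-- the mean of a test function is the mean of the full system -/
theorem mean_full (hc : IsFamily σ x c) (f : X → ℝ) (hf : ∀ y, |f y| ≤ 1)
    (F : IntermediateField K (AlgebraicClosure K)) [NumberField F] (d : 𝓞 F) (hd : d ≠ 0) :
    Tendsto (fun N => mean F (fun w => f (c F d w)) N -
      corrN (syG (va x f) (va x (f ∘ σ)) (fun _ => hf _) (fun _ => hf _) Finset.univ)
        (fun _ : Fin 1 => d) N) atTop (𝓝 0) := by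
  have h1 := mean_sub (F := F) (fun w => f (c F d w)) (B := 1) (fun v => hf _)
  have h2 := corrN_G (F := F) (va x f) (va x (f ∘ σ)) (fun _ => hf _) (fun _ => hf _) Finset.univ
    (fun _ : Fin 1 => d) (fun z => f (c F d (kerPrime z.1 z.2).1.1)) (by
      intro p hp ψ
      have : Fact (p : ℕ).Prime := ⟨p.2⟩
      rw [Fintype.sum_bool]
      simp only [if_true, Bool.false_eq_true, if_false]
      rcases family_ker hc F d p hp ψ with ⟨h3, h4⟩ | ⟨h3, h4⟩
      · rw [h3, h4]
        unfold va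
        ring
      · rw [h3, h4]
        unfold va
        simp only [Function.comp_apply]
        ring) hd
  have h3 := h1.add h2
  rw [add_zero] at h3
  refine h3.congr fun N => ?_
  ring

/-- the mean of the odd part is the mean of the odd system -/
theorem mean_odd (hc : IsFamily σ x c) (hσ : ∀ y, σ (σ y) = y) (f : X → ℝ) (hf : ∀ y, |f y| ≤ 1)
    (F : IntermediateField K (AlgebraicClosure K)) [NumberField F] (d : 𝓞 F) (hd : d ≠ 0) :
    Tendsto (fun N => mean F (fun w => (1 / 2) * f (c F d w) + (-1 / 2) * f (σ (c F d w))) N -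
      corrN (syG (va x f) (va x (f ∘ σ)) (fun _ => hf _) (fun _ => hf _) {true})
        (fun _ : Fin 1 => d) N) atTop (𝓝 0) := by
  have h1 := mean_sub (F := F) (fun w => (1 / 2) * f (c F d w) + (-1 / 2) * f (σ (c F d w)))
    (B := 1) (fun v => by
      have e1 := abs_le.1 (hf (c F d v))
      have e2 := abs_le.1 (hf (σ (c F d v)))
      rw [abs_le]
      constructor <;> linarith [e1.1, e1.2, e2.1, e2.2])
  have h2 := corrN_G (F := F) (va x f) (va x (f ∘ σ)) (fun _ => hf _) (fun _ => hf _) {true}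
    (fun _ : Fin 1 => d) (fun z => (1 / 2) * f (c F d (kerPrime z.1 z.2).1.1) +
      (-1 / 2) * f (σ (c F d (kerPrime z.1 z.2).1.1))) (by
      intro p hp ψ
      have : Fact (p : ℕ).Prime := ⟨p.2⟩
      rw [Finset.sum_singleton]
      simp only [if_true]
      rcases family_ker hc F d p hp ψ with ⟨h3, h4⟩ | ⟨h3, h4⟩
      · rw [h3, h4]
        unfold va
        simp only [Function.comp_apply]
        ring
      · rw [h3, h4]
        unfold va
        simp only [Function.comp_apply]
        rw [hσ]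
        ring) hd
  have h3 := h1.add h2
  rw [add_zero] at h3
  refine h3.congr fun N => ?_
  ring

/-- existence of a related twist -/
theorem exists_related (M : IntermediateField K (AlgebraicClosure K)) [FiniteDimensional K M]
    [Normal K M] (F F₀ : IntermediateField K (AlgebraicClosure K)) [NumberField F]
    [NumberField F₀] (hF₀ : F₀ = F ⊓ M) (d : 𝓞 F) (hd : d ≠ 0) :
    ∃ e : 𝓞 F₀, e ≠ 0 ∧ Related M d e := by
  obtain ⟨e, he, h⟩ := exists_rel (syG (fun _ : HX K => (0 : ℝ)) (fun _ => 0) (fun _ => by simp)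
    (fun _ => by simp) {true}).Y M F F₀ hF₀ (fun _ : Fin 1 => d) (fun _ => hd)
  refine ⟨e (0 : Fin 1), he (0 : Fin 1), ?_⟩
  have h3 := h true (Finset.mem_singleton_self true)
  rw [prG_true (fun _ : HX K => (0 : ℝ)) (fun _ => 0) (fun _ => by simp) (fun _ => by simp) {true}
    F (fun _ : Fin 1 => d), prG_true (fun _ : HX K => (0 : ℝ)) (fun _ => 0) (fun _ => by simp)
    (fun _ => by simp) {true} F₀ e] at h3
  exact h3

end

/-- **One finite extension governs all Lipschitz test functions.** -/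
theorem main_X (X : Type) [MetricSpace X] [CompactSpace X] (n k : ℕ) (hk : 1 ≤ k) :
    ∃ B : ℕ, ∀ (K : Type) [Field K] [NumberField K] (σ : X → X) (_ : LipschitzWith 1 σ)
      (_ : ∀ y, σ (σ y) = y) (x : HeightOneSpectrum (𝓞 K) → X)
      (c : ∀ (F : IntermediateField K (AlgebraicClosure K)) [NumberField F],
        𝓞 F → HeightOneSpectrum (𝓞 F) → X) (_ : IsFamily σ x c) (𝓛 : Filter ℕ) [𝓛.NeBot]
      (_ : 𝓛 ≤ atTop),
      ∃ M : IntermediateField K (AlgebraicClosure K),
        FiniteDimensional K M ∧ IsGalois K M ∧ Normal K M ∧ Module.finrank K M ≤ B ∧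
        (∀ (F : IntermediateField K (AlgebraicClosure K)) [NumberField F] (d : 𝓞 F),
          Module.finrank K F ≤ n → d ≠ 0 → (∀ y ∈ F ⊔ M, y ^ 2 ≠ inj d) →
          ∃ᶠ N in 𝓛, ∀ f : X → ℝ, Test f →
            |mean F (fun w => f (c F d w)) N - mean F (fun w => f (σ (c F d w))) N| < 1 / k) ∧
        (∀ (F F₀ : IntermediateField K (AlgebraicClosure K)) [NumberField F] [NumberField F₀],
          F₀ = F ⊓ M → Module.finrank K F ≤ n → ∀ (d : 𝓞 F) (e : 𝓞 F₀), d ≠ 0 → e ≠ 0 →
          Related M d e →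
          (∃ᶠ N in 𝓛, ∀ f : X → ℝ, Test f →
            |mean F (fun w => f (c F d w)) N - mean F₀ (fun w => f (c F₀ e w)) N| < 1 / k) ∧
          (∀ I : (X → ℝ) → ℝ, (∀ f : X → ℝ, Test f →
              Tendsto (mean F₀ (fun w => f (c F₀ e w))) 𝓛 (𝓝 (I f))) →
            ∃ᶠ N in 𝓛, ∀ f : X → ℝ, Test f →
              |mean F (fun w => f (c F d w)) N - I f| < 1 / k)) := by
  classical
  have hkR : (0 : ℝ) < k := by exact_mod_cast hk
  obtain ⟨s, h, hh, hnet⟩ := exists_net X (ε := 1 / (8 * k)) (by positivity)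
  refine ⟨((4 * n).factorial ^ (4 * n * (8 * k) ^ 2)) ^ (Finset.univ : Finset (Fin s × Bool)).card,
    ?_⟩
  intro K _ _ σ hσ1 hσ2 x c hc 𝓛 _ h𝓛
  obtain ⟨U, hU0⟩ : ∃ U : Ultrafilter ℕ, (U : Filter ℕ) ≤ 𝓛 :=
    ⟨Ultrafilter.of _, Ultrafilter.of_le _⟩
  have hU : (U : Filter ℕ) ≤ atTop := hU0.trans h𝓛
  have hb : ∀ i (y : HX K), |va x (h i) y| ≤ 1 := fun i y => (hh i).2 _
  have hb' : ∀ i (y : HX K), |va x (h i ∘ σ) y| ≤ 1 := fun i y => (hh i).2 _
  let PP : Bool → Finset Bool := fun t => if t then {true} else Finset.univ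
  have hst := fun j : Fin s × Bool => stabG (va x (h j.1)) (va x (h j.1 ∘ σ)) (hb j.1) (hb' j.1)
    (PP j.2) n (8 * k) U hU
  choose Mj hM1 hM2 hM3 hA hB using hst
  set M : IntermediateField K (AlgebraicClosure K) := ⨆ j ∈ (Finset.univ : Finset (Fin s × Bool)),
    Mj j with hM
  have hle : ∀ j, Mj j ≤ M := fun j =>
    le_iSup₂ (f := fun j (_ : j ∈ (Finset.univ : Finset (Fin s × Bool))) => Mj j) j
      (Finset.mem_univ j)
  have hfM : FiniteDimensional K M := IntermediateField.finiteDimensional_iSup_of_finset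
  have hnM : Normal K M := normal_biSup _ hM2 _
  have hsep : Algebra.IsSeparable K M := inferInstance
  -- limits
  have hlim : ∀ (i : Fin s) (F : IntermediateField K (AlgebraicClosure K)) [NumberField F]
      (d : 𝓞 F), d ≠ 0 → Tendsto (mean F (fun w => h i (c F d w))) U
        (𝓝 (uN U (corrN (syG (va x (h i)) (va x (h i ∘ σ)) (hb i) (hb' i) (PP false))
          (fun _ : Fin 1 => d)))) := by
    intro i F _ d hd
    have e1 := mean_full hc (h i) (hh i).2 F d hd
    exact IsMean.lim (𝒮 := syG (va x (h i)) (va x (h i ∘ σ)) (hb i) (hb' i) (PP false))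
      (fun _ => hd) e1 U hU
  have hlimo : ∀ (i : Fin s) (F : IntermediateField K (AlgebraicClosure K)) [NumberField F]
      (d : 𝓞 F), d ≠ 0 → Tendsto (mean F (fun w => (1 / 2) * h i (c F d w) +
        (-1 / 2) * h i (σ (c F d w)))) U
        (𝓝 (uN U (corrN (syG (va x (h i)) (va x (h i ∘ σ)) (hb i) (hb' i) (PP true))
          (fun _ : Fin 1 => d)))) := by
    intro i F _ d hd
    have e1 := mean_odd hc hσ2 (h i) (hh i).2 F d hd
    exact IsMean.lim (𝒮 := syG (va x (h i)) (va x (h i ∘ σ)) (hb i) (hb' i) (PP true))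
      (fun _ => hd) e1 U hU
  have hdiv : ∀ {z : ℝ}, ((8 * k : ℕ) : ℝ) * |z| < 1 → |z| < 1 / (8 * k) := by
    intro z hz
    rw [lt_div_iff₀ (by positivity), mul_comm]
    push_cast at hz
    exact hz
  -- comparison of the limits
  have hcmp : ∀ (i : Fin s) (F F₀ : IntermediateField K (AlgebraicClosure K)) [NumberField F]
      [NumberField F₀], F₀ = F ⊓ M → Module.finrank K F ≤ n → ∀ (d : 𝓞 F) (e : 𝓞 F₀), d ≠ 0 →
      e ≠ 0 → Related M d e →
      |uN U (corrN (syG (va x (h i)) (va x (h i ∘ σ)) (hb i) (hb' i) (PP false))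
          (fun _ : Fin 1 => d)) -
        uN U (corrN (syG (va x (h i)) (va x (h i ∘ σ)) (hb i) (hb' i) (PP false))
          (fun _ : Fin 1 => e))| < 1 / (4 * k) := by
    intro i F F₀ _ _ hF₀ hF d e hd he hR
    have hF₀F : F₀ ≤ F := by rw [hF₀]; exact inf_le_left
    have hnf : NumberField (F ⊓ Mj (i, false) : IntermediateField K (AlgebraicClosure K)) := by
      have : FiniteDimensional K (F ⊓ Mj (i, false) : IntermediateField K (AlgebraicClosure K)) :=
        FiniteDimensional.of_injective (IntermediateField.inclusion inf_le_left :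
          (F ⊓ Mj (i, false) : IntermediateField K (AlgebraicClosure K)) →ₐ[K] F).toLinearMap
          (IntermediateField.inclusion_injective inf_le_left)
      exact NumberField.of_module_finite K _
    have hF₁ : (F ⊓ Mj (i, false) : IntermediateField K (AlgebraicClosure K)) =
        F₀ ⊓ Mj (i, false) := by
      rw [hF₀, inf_assoc, inf_eq_right.2 (hle (i, false))]
    obtain ⟨e₁, he₁, hR₁⟩ := exists_related (Mj (i, false)) F₀ (F ⊓ Mj (i, false)) hF₁ e he
    have hR₂ : Related (Mj (i, false)) d e₁ := related_down (hle (i, false)) hF₀ hd he he₁ hR hR₁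
    have h1 := hdiv (hB (i, false) F (F ⊓ Mj (i, false)) rfl hF d e₁ hd he₁ hR₂)
    have h2 := hdiv (hB (i, false) F₀ (F ⊓ Mj (i, false)) hF₁ ((finrank_mono' hF₀F).trans hF) e e₁
      he he₁ hR₁)
    have e1 : (1 : ℝ) / (4 * k) = 1 / (8 * k) + 1 / (8 * k) := by
      field_simp
      norm_num
    rw [e1]
    rw [abs_sub_comm] at h2
    refine (abs_sub_le _ _ _).trans_lt (add_lt_add h1 h2)
  have hclose : ∀ (F : IntermediateField K (AlgebraicClosure K)) [NumberField F]
      (c' : HeightOneSpectrum (𝓞 F) → X) (f : X → ℝ) (i : Fin s),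
      (∀ y, |f y - h i y| ≤ 1 / (8 * k)) → ∀ N,
        |mean F (fun w => f (c' w)) N - mean F (fun w => h i (c' w)) N| ≤ 1 / (8 * k) :=
    fun F _ c' f i hi N => mean_close (fun w => hi (c' w)) N
  refine ⟨M, hfM, IsGalois.mk, hnM, finrank_iSup_le _ _ _ fun j _ => hM3 j, ?_, ?_⟩
  · intro F _ d hF hd hsq
    have hev : ∀ᶠ N in (U : Filter ℕ), ∀ i : Fin s,
        |mean F (fun w => (1 / 2) * h i (c F d w) + (-1 / 2) * h i (σ (c F d w))) N| <
          1 / (8 * k) := by
      rw [eventually_all]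
      intro i
      have h1 := hdiv (hA (i, true) rfl F d hF hd fun y hy =>
        hsq y ((sup_le_sup_left (hle (i, true)) F) hy))
      exact (hlimo i F d hd).abs.eventually_lt_const h1
    refine (hev.frequently.filter_mono hU0).mono fun N hN f hf => ?_
    obtain ⟨i, hi⟩ := hnet f hf
    have h2 := hN i
    rw [mean_lin] at h2
    have h3 := hclose F (fun w => c F d w) f i hi N
    have h4 := hclose F (fun w => σ (c F d w)) f i hi N
    have h5 : (1 : ℝ) / k = 8 * (1 / (8 * k)) := by field_simp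
    have h6 : 0 < (1 : ℝ) / (8 * k) := by positivity
    rw [h5]
    rw [abs_lt] at h2 ⊢
    rw [abs_le] at h3 h4
    constructor <;> linarith [h2.1, h2.2, h3.1, h3.2, h4.1, h4.2]
  · intro F F₀ _ _ hF₀ hF d e hd he hR
    constructor
    · have hev : ∀ᶠ N in (U : Filter ℕ), ∀ i : Fin s,
          |mean F (fun w => h i (c F d w)) N - mean F₀ (fun w => h i (c F₀ e w)) N| <
            1 / (4 * k) := by
        rw [eventually_all]
        intro i
        exact ((hlim i F d hd).sub (hlim i F₀ e he)).abs.eventually_lt_const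
          (hcmp i F F₀ hF₀ hF d e hd he hR)
      refine (hev.frequently.filter_mono hU0).mono fun N hN f hf => ?_
      obtain ⟨i, hi⟩ := hnet f hf
      have h2 := hN i
      have h3 := hclose F (fun w => c F d w) f i hi N
      have h4 := hclose F₀ (fun w => c F₀ e w) f i hi N
      have h5 : (1 : ℝ) / k = 8 * (1 / (8 * k)) := by field_simp
      have h6 : 0 < (1 : ℝ) / (8 * k) := by positivity
      have h7 : (1 : ℝ) / (4 * k) = 2 * (1 / (8 * k)) := by
        field_simp
        norm_num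
      rw [h5]
      rw [h7] at h2
      rw [abs_lt] at h2 ⊢
      rw [abs_le] at h3 h4
      constructor <;> linarith [h2.1, h2.2, h3.1, h3.2, h4.1, h4.2]
    · intro I hI
      have hIi : ∀ i, I (h i) = uN U (corrN (syG (va x (h i)) (va x (h i ∘ σ)) (hb i) (hb' i)
          (PP false)) (fun _ : Fin 1 => e)) := fun i =>
        tendsto_nhds_unique ((hI (h i) (hh i)).mono_left hU0) (hlim i F₀ e he)
      have hev : ∀ᶠ N in (U : Filter ℕ), ∀ i : Fin s,
          |mean F (fun w => h i (c F d w)) N - I (h i)| < 1 / (4 * k) := by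
        rw [eventually_all]
        intro i
        refine ((hlim i F d hd).sub_const (I (h i))).abs.eventually_lt_const ?_
        rw [hIi i]
        exact hcmp i F F₀ hF₀ hF d e hd he hR
      refine (hev.frequently.filter_mono hU0).mono fun N hN f hf => ?_
      obtain ⟨i, hi⟩ := hnet f hf
      have h2 := hN i
      have h3 := hclose F (fun w => c F d w) f i hi N
      have h4 : |I f - I (h i)| ≤ 1 / (8 * k) :=
        le_of_tendsto (((hI f hf).sub (hI (h i) (hh i))).abs)
          (Eventually.of_forall fun N => hclose F₀ (fun w => c F₀ e w) f i hi N)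
      have h5 : (1 : ℝ) / k = 8 * (1 / (8 * k)) := by field_simp
      have h6 : 0 < (1 : ℝ) / (8 * k) := by positivity
      have h7 : (1 : ℝ) / (4 * k) = 2 * (1 / (8 * k)) := by
        field_simp
        norm_num
      rw [h5]
      rw [h7] at h2
      rw [abs_lt] at h2 ⊢
      rw [abs_le] at h3 h4
      constructor <;> linarith [h2.1, h2.2, h3.1, h3.2, h4.1, h4.2]

end Pool.Agent.W529.ST
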