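import Mathlib

/-! Finite nets of Lipschitz functions on a compact metric space. -/

set_option autoImplicit false

namespace Pool.Agent.W529.ST

open Set

/-- test functions: `1`-Lipschitz with values in `[-1, 1]` -/
def Test {X : Type} [MetricSpace X] (f : X → ℝ) : Prop := LipschitzWith 1 f ∧ ∀ x, |f x| ≤ 1

theorem exists_net (X : Type) [MetricSpace X] [CompactSpace X] {ε : ℝ} (hε : 0 < ε) :
    ∃ (s : ℕ) (h : Fin s → X → ℝ), (∀ i, Test (h i)) ∧
      ∀ f : X → ℝ, Test f → ∃ i, ∀ x, |f x - h i x| ≤ ε := by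
  classical
  have hε4 : 0 < ε / 3 := by positivity
  -- a net of the space
  obtain ⟨t, _, htf, ht⟩ := Metric.finite_approx_of_totallyBounded
    (isCompact_univ (X := X)).totallyBounded (ε / 3) hε4
  -- the values on the net
  let V : Set (t → ℝ) := {y | ∃ f : X → ℝ, Test f ∧ y = fun a : t => f a}
  have : Fintype t := htf.fintype
  have hV : TotallyBounded V := by
    have h1 : V ⊆ Set.pi Set.univ fun _ => Set.Icc (-1 : ℝ) 1 := by
      rintro y ⟨f, hf, rfl⟩ a _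
      exact abs_le.1 (hf.2 a)
    exact (isCompact_univ_pi fun _ => isCompact_Icc).totallyBounded.subset h1
  obtain ⟨W, hWV, hWf, hW⟩ := Metric.finite_approx_of_totallyBounded hV (ε / 3) hε4
  have : Fintype W := hWf.fintype
  have hch : ∀ y : W, ∃ f : X → ℝ, Test f ∧ (y : t → ℝ) = fun a : t => f a := fun y => hWV y.2
  choose g hg hgy using hch
  let φ := Fintype.equivFin W
  refine ⟨Fintype.card W, fun i => g (φ.symm i), fun i => hg _, fun f hf => ?_⟩
  have h2 : (fun a : t => f a) ∈ ⋃ y ∈ W, Metric.ball y (ε / 3) := hW ⟨f, hf, rfl⟩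
  simp only [Set.mem_iUnion, Metric.mem_ball] at h2
  obtain ⟨y, hy, hd⟩ := h2
  refine ⟨φ ⟨y, hy⟩, fun x => ?_⟩
  change |f x - g (φ.symm (φ ⟨y, hy⟩)) x| ≤ ε
  rw [φ.symm_apply_apply]
  have h3 : x ∈ ⋃ y ∈ t, Metric.ball y (ε / 3) := ht (Set.mem_univ x)
  simp only [Set.mem_iUnion, Metric.mem_ball] at h3
  obtain ⟨a, ha, hxa⟩ := h3
  have h4 : |f a - g ⟨y, hy⟩ a| < ε / 3 := by
    have h5 := (dist_pi_lt_iff hε4).1 hd ⟨a, ha⟩
    have h6 : y ⟨a, ha⟩ = g ⟨y, hy⟩ a := congrFun (hgy ⟨y, hy⟩) ⟨a, ha⟩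
    rw [h6, Real.dist_eq] at h5
    exact h5
  have h7 : |f x - f a| ≤ ε / 3 := by
    have := hf.1.dist_le_mul x a
    rw [NNReal.coe_one, one_mul, Real.dist_eq] at this
    linarith
  have h8 : |g ⟨y, hy⟩ a - g ⟨y, hy⟩ x| ≤ ε / 3 := by
    have := (hg ⟨y, hy⟩).1.dist_le_mul a x
    rw [NNReal.coe_one, one_mul, Real.dist_eq, dist_comm] at this
    linarith
  have h9 : f x - g ⟨y, hy⟩ x = (f x - f a) + (f a - g ⟨y, hy⟩ a) +
      (g ⟨y, hy⟩ a - g ⟨y, hy⟩ x) := by ring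
  rw [h9]
  refine (abs_add_three _ _ _).trans ?_
  linarith

end Pool.Agent.W529.ST
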