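import Pool.Agent.W529.ST.Fin
import Pool.Agent.W529.ST.Net

/-! One finite extension governs all Lipschitz test functions, for arbitrary families. -/

set_option autoImplicit false

namespace Pool.Agent.W529.ST

open NumberField IsDedekindDomain Filter Topology Polynomial Pool.Agent.H341R2
open Pool.Agent.W353.TP Pool.Agent.W353.AB
open Pool.Agent.H921R2.TatePole (nm two_le_nm R hc R_eq_hc R_le kerPrime hom_finite)

section
variable {K F : Type} [Field K] [NumberField K] [Field F] [NumberField F] [Algebra K F]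

/-- the system of a test function, `a` and `b` are its values at the class and at its image under
the involution -/
noncomputable def syG (a b : HX K → ℝ) (ha : ∀ x, |a x| ≤ 1) (hb : ∀ x, |b x| ≤ 1)
    (P : Finset Bool) : SN K where
  ι := Bool
  P := P
  r := 1
  A := fun j => if j then Finset.univ else ∅
  T := fun j x => if j then (a x - b x) / 2 else (a x + b x) / 2
  hT := by
    intro x
    refine (Finset.sum_le_sum_of_subset_of_nonneg (Finset.subset_univ P)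
      (fun _ _ _ => sq_nonneg _)).trans ?_
    rw [Fintype.sum_bool]
    simp only [if_true, Bool.false_eq_true, if_false]
    have h1 := abs_le.1 (ha x)
    have h2 := abs_le.1 (hb x)
    nlinarith [h1.1, h1.2, h2.1, h2.2]

variable (a b : HX K → ℝ) (ha : ∀ x, |a x| ≤ 1) (hb : ∀ x, |b x| ≤ 1) (P : Finset Bool)

theorem syG_D_true {R : Type*} [CommMonoid R] (d : Fin 1 → R) :
    (syG a b ha hb P).Y.D d true = d 0 := by
  change ∏ i ∈ (if true then Finset.univ else ∅ : Finset (Fin 1)), d i = d 0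
  simp

theorem syG_D_false {R : Type*} [CommMonoid R] (d : Fin 1 → R) :
    (syG a b ha hb P).Y.D d false = 1 := by
  change ∏ i ∈ (if false then Finset.univ else ∅ : Finset (Fin 1)), d i = 1
  simp

/-- the natural mean of the system, on the side of `F` -/
theorem corrN_G (d : Fin 1 → 𝓞 F) :
    ∀ φ : HX F → ℝ, (∀ p : Nat.Primes, ¬ ((p : ℕ) : ℤ) ∣ N0 (d 0) →
      ∀ ψ : 𝓞 F →+* ZMod (p : ℕ), φ ⟨p, ψ⟩ =
        ∑ j ∈ P, (if j then (a ⟨p, res K ψ⟩ - b ⟨p, res K ψ⟩) / 2 * qh (d 0) ⟨p, ψ⟩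
          else (a ⟨p, res K ψ⟩ + b ⟨p, res K ψ⟩) / 2)) →
      d 0 ≠ 0 →
      Tendsto (fun N => (Av N fun p => ∑ ψ : 𝓞 F →+* ZMod (p : ℕ), φ ⟨p, ψ⟩) -
        corrN (syG a b ha hb P) d N) atTop (𝓝 0) := by
  classical
  intro φ hφ hd
  let T0 : Bool → HX K → ℝ := (syG a b ha hb P).T
  let D0 : Bool → 𝓞 F := (syG a b ha hb P).Y.D d
  have h2 : NN fun p => (∑ ψ : 𝓞 F →+* ZMod (p : ℕ), φ ⟨p, ψ⟩) -
      ∑ j ∈ P, ∑ u : 𝓞 K →+* ZMod (p : ℕ), T0 j ⟨p, u⟩ * push K (qh (D0 j)) ⟨p, u⟩ := by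
    refine NN.of_dvd (N0_ne_zero hd) fun p hp => ?_
    have : Fact (p : ℕ).Prime := ⟨p.2⟩
    rw [sub_eq_zero]
    have e1 : ∀ j : Bool, ∑ u : 𝓞 K →+* ZMod (p : ℕ), T0 j ⟨p, u⟩ * push K (qh (D0 j)) ⟨p, u⟩ =
        ∑ ψ : 𝓞 F →+* ZMod (p : ℕ), T0 j ⟨p, res K ψ⟩ * qh (D0 j) ⟨p, ψ⟩ := by
      intro j
      rw [← sum_push (K := K) (fun x : HX F => T0 j ⟨x.1, res K x.2⟩ * qh (D0 j) x) p]
      refine Finset.sum_congr rfl fun u _ => ?_
      unfold push
      rw [Finset.mul_sum]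
      refine Finset.sum_congr rfl fun ψ hψ => ?_
      have h7 : res K ψ = u := (Finset.mem_filter.1 hψ).2
      have h9 : (⟨p, u⟩ : HX K) = ⟨p, res K ψ⟩ := by rw [← h7]
      exact congrArg (fun x : HX K => T0 j x * qh (D0 j) (⟨p, ψ⟩ : HX F)) h9
    rw [Finset.sum_congr rfl fun j _ => e1 j, Finset.sum_comm]
    refine Finset.sum_congr rfl fun ψ _ => ?_
    rw [hφ p hp ψ]
    refine Finset.sum_congr rfl fun j _ => ?_
    have hD1 : D0 true = d 0 := syG_D_true a b ha hb P d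
    have hD0 : D0 false = 1 := syG_D_false a b ha hb P d
    cases j
    · have hT0 : T0 false ⟨p, res K ψ⟩ = (a ⟨p, res K ψ⟩ + b ⟨p, res K ψ⟩) / 2 := rfl
      have hq0 : qh (D0 false) ⟨p, ψ⟩ = 1 := by
        rw [hD0, qh_eq, map_one, map_one]
        simp
      rw [hT0, hq0, mul_one]
      simp
    · have hT1 : T0 true ⟨p, res K ψ⟩ = (a ⟨p, res K ψ⟩ - b ⟨p, res K ψ⟩) / 2 := rfl
      rw [hT1, hD1]
      simp
  refine Tendsto.congr (fun N => ?_) h2
  have h4 : corrN (syG a b ha hb P) d N = ∑ j ∈ P, Av N fun p => ∑ u : 𝓞 K →+* ZMod (p : ℕ),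
    T0 j ⟨p, u⟩ * push K (qh (D0 j)) ⟨p, u⟩ := rfl
  rw [h4, Av_sub, Av_sum]

end

section
variable {K : Type} [Field K] [NumberField K]

theorem prG_true (a b : HX K → ℝ) (ha : ∀ x, |a x| ≤ 1) (hb : ∀ x, |b x| ≤ 1) (P : Finset Bool)
    (F : IntermediateField K (AlgebraicClosure K)) [NumberField F]
    (d : Fin 1 → 𝓞 F) : prA (syG a b ha hb P).Y d true = inj (d 0) := by
  have h5 : (syG a b ha hb P).Y.D d true = d 0 := syG_D_true a b ha hb P d
  unfold prA inj
  exact congrArg (fun z : 𝓞 F => ((z : F) : AlgebraicClosure K)) h5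

theorem prG_false (a b : HX K → ℝ) (ha : ∀ x, |a x| ≤ 1) (hb : ∀ x, |b x| ≤ 1) (P : Finset Bool)
    (F : IntermediateField K (AlgebraicClosure K)) [NumberField F]
    (d : Fin 1 → 𝓞 F) : prA (syG a b ha hb P).Y d false = 1 := by
  have h5 : (syG a b ha hb P).Y.D d false = 1 := syG_D_false a b ha hb P d
  unfold prA
  exact congrArg (fun z : 𝓞 F => ((z : F) : AlgebraicClosure K)) h5

theorem relG (a b : HX K → ℝ) (ha : ∀ x, |a x| ≤ 1) (hb : ∀ x, |b x| ≤ 1)
    (P : Finset Bool) (M F F₀ : IntermediateField K (AlgebraicClosure K)) [NumberField F]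
    [NumberField F₀] (d : 𝓞 F) (e : 𝓞 F₀) (h : Related M d e) :
    Rel (syG a b ha hb P).Y M (fun _ : Fin 1 => d) (fun _ : Fin 1 => e) := by
  intro j _
  have key : ∀ i : Bool, ((∃ u ∈ F, u ^ 2 = prA (syG a b ha hb P).Y (fun _ : Fin 1 => d) i *
      prA (syG a b ha hb P).Y (fun _ : Fin 1 => e) i) ∧
      ∃ t ∈ M, t ^ 2 = prA (syG a b ha hb P).Y (fun _ : Fin 1 => e) i) ∨
      ((∀ y ∈ F ⊔ M, y ^ 2 ≠ prA (syG a b ha hb P).Y (fun _ : Fin 1 => d) i) ∧
        ∀ y ∈ M, y ^ 2 ≠ prA (syG a b ha hb P).Y (fun _ : Fin 1 => e) i) := by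
    intro i
    cases i
    · left
      rw [prG_false a b ha hb P F (fun _ : Fin 1 => d),
        prG_false a b ha hb P F₀ (fun _ : Fin 1 => e)]
      exact ⟨⟨1, one_mem _, by ring⟩, 1, one_mem _, by ring⟩
    · rw [prG_true a b ha hb P F (fun _ : Fin 1 => d),
        prG_true a b ha hb P F₀ (fun _ : Fin 1 => e)]
      exact h
  exact key j

/-- one system -/
theorem stabG (a b : HX K → ℝ) (ha : ∀ x, |a x| ≤ 1) (hb : ∀ x, |b x| ≤ 1) (P : Finset Bool)
    (n k : ℕ) (U : Ultrafilter ℕ) (hU : (U : Filter ℕ) ≤ atTop) :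
    ∃ M : IntermediateField K (AlgebraicClosure K), FiniteDimensional K M ∧ Normal K M ∧
      Module.finrank K M ≤ (4 * n).factorial ^ (4 * n * k ^ 2) ∧
      (P = {true} → ∀ (F : IntermediateField K (AlgebraicClosure K)) [NumberField F]
        (d : 𝓞 F), Module.finrank K F ≤ n → d ≠ 0 → (∀ y ∈ F ⊔ M, y ^ 2 ≠ inj d) →
        k * |uN U (corrN (syG a b ha hb P) (fun _ : Fin 1 => d))| < 1) ∧
      (∀ (F F₀ : IntermediateField K (AlgebraicClosure K)) [NumberField F] [NumberField F₀],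
        F₀ = F ⊓ M → Module.finrank K F ≤ n → ∀ (d : 𝓞 F) (e : 𝓞 F₀), d ≠ 0 → e ≠ 0 →
        Related M d e →
        k * |uN U (corrN (syG a b ha hb P) (fun _ : Fin 1 => d)) -
          uN U (corrN (syG a b ha hb P) (fun _ : Fin 1 => e))| < 1) := by
  classical
  have hBd : ∀ (F : IntermediateField K (AlgebraicClosure K)) [NumberField F]
      (d : Fin (syG a b ha hb P).r → 𝓞 F), Module.finrank K F ≤ n →
      Bd (syG a b ha hb P).Y n F d := by
    intro F _ d h j _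
    exact (inum_le K F F _ _).trans h
  obtain ⟨M, hM1, hM2, hdeg, hA, hB⟩ := stabN (𝒮 := syG a b ha hb P) n k n U hU
    (fun A => (A.m true).F ≤ (A.m false).F ∧ Module.finrank K (A.m false).F ≤ n)
  refine ⟨M, hM1, hM2, ?_, ?_, ?_⟩
  · refine (hdeg fun A hA => hA).trans ?_
    have e1 : 4 ^ (syG a b ha hb P).r * n = 4 * n := rfl
    have e2 : (syG a b ha hb P).P.card ≤ 2 := by
      have : P.card ≤ Fintype.card Bool := Finset.card_le_univ P
      rwa [Fintype.card_bool] at this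
    rw [e1]
    refine Nat.pow_le_pow_right (Nat.factorial_pos _) ?_
    calc 2 * n * (syG a b ha hb P).P.card * k ^ 2 ≤ 2 * n * 2 * k ^ 2 :=
          Nat.mul_le_mul_right _ (Nat.mul_le_mul_left _ e2)
      _ = 4 * n * k ^ 2 := by ring
  · intro hP F _ d hF hd hsq
    refine hA (mkDt (syG a b ha hb P) F (fun _ : Fin 1 => d) (fun _ => hd)) (hBd F _ hF)
      ⟨le_rfl, hF⟩ ?_
    have key : ∀ i ∈ P, ∀ y ∈ F ⊔ M, y ^ 2 ≠ prA (syG a b ha hb P).Y (fun _ : Fin 1 => d) i := by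
      intro i hi y hy
      rw [hP, Finset.mem_singleton] at hi
      subst hi
      rw [prG_true a b ha hb P F (fun _ : Fin 1 => d)]
      exact hsq y hy
    exact key
  · intro F F₀ _ _ hF₀ hF d e hd he hR
    have hle : F₀ ≤ F := by
      rw [hF₀]
      exact inf_le_left
    have hF' : Module.finrank K F₀ ≤ n := (finrank_mono' hle).trans hF
    exact hB (mkDt (syG a b ha hb P) F (fun _ : Fin 1 => d) (fun _ => hd))
      (mkDt (syG a b ha hb P) F₀ (fun _ : Fin 1 => e) (fun _ => he)) hF₀ (hBd F _ hF)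
      (hBd F₀ _ hF') ⟨hle, hF⟩ (relG a b ha hb P M F F₀ d e hR)

theorem inj_ne {F : IntermediateField K (AlgebraicClosure K)} {d : 𝓞 F} (hd : d ≠ 0) :
    inj d ≠ 0 := by
  unfold inj
  intro h0
  apply hd
  have : ((d : F) : AlgebraicClosure K) = ((0 : F) : AlgebraicClosure K) := h0
  exact RingOfIntegers.coe_eq_zero_iff.1 (Subtype.ext this)

/-- transitivity of the relation -/
theorem related_down {M E F F₀ : IntermediateField K (AlgebraicClosure K)}
    [FiniteDimensional K M] [Normal K M] (hE : E ≤ M) (hF₀ : F₀ = F ⊓ M)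
    {F₁ : IntermediateField K (AlgebraicClosure K)} {d : 𝓞 F} {e : 𝓞 F₀} {c : 𝓞 F₁}
    (hd : d ≠ 0) (he : e ≠ 0) (hc : c ≠ 0) (h : Related M d e) (h' : Related E e c) :
    Related E d c := by
  have hd0 := inj_ne hd
  have he0 := inj_ne he
  have hc0 := inj_ne hc
  have hF₀F : F₀ ≤ F := by rw [hF₀]; exact inf_le_left
  have hF₀M : F₀ ≤ M := by rw [hF₀]; exact inf_le_right
  have heF : inj e ∈ F := hF₀F (e : F₀).2
  rcases h with ⟨⟨u, huF, hu⟩, t, htM, ht⟩ | ⟨h1, h2⟩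
  · rcases h' with ⟨⟨u', hu'F, hu'⟩, t', ht'E, ht'⟩ | ⟨h3, h4⟩
    · left
      refine ⟨⟨u * u' / inj e, div_mem (mul_mem huF (hF₀F hu'F)) heF, ?_⟩, t', ht'E, ht'⟩
      rw [div_pow, mul_pow, hu, hu']
      field_simp
    · right
      refine ⟨fun y hy hyd => ?_, h4⟩
      have hy0 : y ≠ 0 := by
        rintro rfl
        apply hd0
        rw [← hyd]
        ring
      have h5 : (u / y) ^ 2 = t ^ 2 := by
        rw [div_pow, hu, hyd, ht]
        field_simp
      have h6 : u / y ∈ F ⊔ E := div_mem ((le_sup_left : F ≤ F ⊔ E) huF) hy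
      have h7 : t ∈ F ⊔ E := by
        rcases sq_eq_sq_iff_eq_or_eq_neg.1 h5 with h | h
        · rw [← h]
          exact h6
        · have : t = -(u / y) := by rw [h, neg_neg]
          rw [this]
          exact neg_mem h6
      have h8 := modular F M E hE htM h7
      rw [← hF₀] at h8
      exact h3 t h8 ht
  · rcases h' with ⟨⟨u', hu'F, hu'⟩, t', ht'E, ht'⟩ | ⟨h3, h4⟩
    · exfalso
      refine h2 (u' / t') (div_mem (hF₀M hu'F) (hE ht'E)) ?_
      rw [div_pow, hu', ht']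
      field_simp
    · right
      exact ⟨fun y hy => h1 y ((sup_le_sup_left hE F) hy), h4⟩

end

end Pool.Agent.W529.ST
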