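import Pool.Agent.W529.ST.Count

/-! Counting the exceptional twists for all level sets of a function at once. -/

set_option autoImplicit false

namespace Pool.Agent.W529.ST

open NumberField IsDedekindDomain Filter Topology Polynomial Pool.Agent.H341R2
open Pool.Agent.W353.TP Pool.Agent.W353.AB
open Pool.Agent.H921R2.TatePole (nm two_le_nm R hc R_eq_hc R_le kerPrime hom_finite)

/-- an enumeration with nondecreasing values -/
theorem exists_enum {α : Type} (t : Finset α) (ρ : α → ℝ) :
    ∃ idx : α → ℕ, (∀ v ∈ t, idx v < t.card) ∧ (∀ v ∈ t, ∀ w ∈ t, idx v = idx w → v = w) ∧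
      ∀ v ∈ t, ∀ w ∈ t, idx v ≤ idx w → ρ v ≤ ρ w := by
  classical
  let e0 : Fin t.card ≃ t := t.equivFin.symm
  let σ := Tuple.sort (fun i : Fin t.card => ρ (e0 i))
  have hmono : Monotone ((fun i : Fin t.card => ρ (e0 i)) ∘ σ) := Tuple.monotone_sort _
  let e : Fin t.card ≃ t := σ.trans e0
  refine ⟨fun v => if h : v ∈ t then (e.symm ⟨v, h⟩ : ℕ) else 0, ?_, ?_, ?_⟩
  · intro v hv
    simp only [dif_pos hv]
    exact (e.symm ⟨v, hv⟩).2
  · intro v hv w hw h
    simp only [dif_pos hv, dif_pos hw] at h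
    have := e.symm.injective (Fin.ext h)
    exact congrArg Subtype.val this
  · intro v hv w hw h
    simp only [dif_pos hv, dif_pos hw] at h
    have h1 := hmono (show e.symm ⟨v, hv⟩ ≤ e.symm ⟨w, hw⟩ from h)
    have h2 : ∀ u : t, ((fun i : Fin t.card => ρ (e0 i)) ∘ σ) (e.symm u) = ρ u := by
      intro u
      change ρ (e (e.symm u)) = ρ u
      rw [e.apply_symm_apply]
    rw [h2, h2] at h1
    exact h1

/-- a block has at most `n / m + 1` elements -/
theorem card_block {n m b : ℕ} (hn : 0 < n) (S : Finset ℕ)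
    (hS : ∀ i ∈ S, i * m / n = b) : S.card * m ≤ n + m := by
  rcases S.eq_empty_or_nonempty with rfl | hne
  · simp
  set a := S.min' hne with ha
  set c := S.max' hne with hc
  have h1 : S ⊆ Finset.Icc a c := by
    intro i hi
    exact Finset.mem_Icc.2 ⟨S.min'_le i hi, S.le_max' i hi⟩
  have h2 := Finset.card_le_card h1
  rw [Nat.card_Icc] at h2
  have h3 := hS a (S.min'_mem hne)
  have h4 := hS c (S.max'_mem hne)
  have h5 : b * n ≤ a * m := by
    rw [← h3]
    exact Nat.div_mul_le_self _ _
  have h6 : c * m < (b + 1) * n := by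
    rw [← h4]
    have := Nat.lt_div_mul_add (a := c * m) hn
    calc c * m < c * m / n * n + n := this
      _ = (c * m / n + 1) * n := by ring
  have h7 : a ≤ c := S.min'_le_max' hne
  obtain ⟨e, he⟩ := Nat.exists_eq_add_of_le h7
  rw [he] at h2 h6
  have h8 : S.card ≤ e + 1 := by omega
  have h9 : e * m ≤ n := by
    have : (a + e) * m = a * m + e * m := by ring
    rw [this] at h6
    have : (b + 1) * n = b * n + n := by ring
    rw [this] at h6
    omega
  calc S.card * m ≤ (e + 1) * m := Nat.mul_le_mul_right _ h8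
    _ = e * m + m := by ring
    _ ≤ n + m := by omega

section
variable {F : Type} [Field F] [NumberField F]

open Classical in
/-- **Counting with level sets.** -/
theorem count_order {T : Finset (𝓞 F)} {N : ℕ} (hB : BP T 1 N) (k : ℕ) (hk : 1 ≤ k)
    (hn : 2 * k ≤ Nat.card {v : HeightOneSpectrum (𝓞 F) // Ideal.absNorm v.asIdeal ≤ N})
    (ρ s : HeightOneSpectrum (𝓞 F) → ℝ) (hs : ∀ v, |s v| ≤ 1) :
    (T.filter fun d => ∃ U : Set ℝ, IsUpperSet U ∧
      2 / (k : ℝ) ≤ |mean F (fun v => ch d v * (if ρ v ∈ U then s v else 0)) N|).card ≤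
      4 * k ^ 3 := by
  have hkR : (0 : ℝ) < k := by exact_mod_cast hk
  set E := T.filter fun d => ∃ U : Set ℝ, IsUpperSet U ∧
      2 / (k : ℝ) ≤ |mean F (fun v => ch d v * (if ρ v ∈ U then s v else 0)) N| with hE
  obtain ⟨t, ht, hcard, hmean⟩ := mean_def (F := F) (fun _ => 0) N
  rw [hcard] at hn
  obtain ⟨idx, hidx, hinj, hmono⟩ := exists_enum t ρ
  set n := t.card with hnn
  set m := 2 * k with hm
  have hm0 : 0 < m := by omega
  have hn0 : 0 < n := by omega
  let blk : HeightOneSpectrum (𝓞 F) → ℕ := fun v => idx v * m / n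
  have hblk : ∀ v ∈ t, blk v < m := by
    intro v hv
    refine (Nat.div_lt_iff_lt_mul hn0).2 ?_
    rw [mul_comm m n]
    exact Nat.mul_lt_mul_of_pos_right (hidx v hv) hm0
  let h : ℕ → HeightOneSpectrum (𝓞 F) → ℝ := fun c v => if v ∈ t ∧ blk v = c then s v else 0
  let y : ℕ → 𝓞 F → ℝ := fun c d => mean F (fun v => h c v * ch d v) N
  have hcongr : ∀ φ ψ : HeightOneSpectrum (𝓞 F) → ℝ, (∀ v ∈ t, φ v = ψ v) →
      mean F φ N = mean F ψ N := by
    intro φ ψ hφ
    rw [hmean, hmean, Finset.sum_congr rfl hφ]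
  have h1 : ∀ d ∈ E, 1 / (2 * (k : ℝ) ^ 3) ≤ ∑ c ∈ Finset.range m, y c d ^ 2 := by
    intro d hd
    obtain ⟨hdT, U, hU, hge⟩ := Finset.mem_filter.1 hd
    by_cases hex : ∃ i, ∃ v ∈ t, idx v = i ∧ ρ v ∈ U
    swap
    · exfalso
      have h0 : mean F (fun v => ch d v * (if ρ v ∈ U then s v else 0)) N =
          mean F (fun _ => 0) N := by
        refine hcongr _ _ fun v hv => ?_
        rw [if_neg (fun h => hex ⟨idx v, v, hv, rfl, h⟩), mul_zero]
      rw [h0, hmean, Finset.sum_const_zero, zero_div, abs_zero] at hge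
      have : (0 : ℝ) < 2 / k := by positivity
      linarith
    set i0 := Nat.find hex with hi0
    obtain ⟨v0, hv0, hv0i, hv0U⟩ := Nat.find_spec hex
    have hiff : ∀ v ∈ t, (ρ v ∈ U ↔ i0 ≤ idx v) := by
      intro v hv
      constructor
      · intro h
        exact Nat.find_min' hex ⟨v, hv, rfl, h⟩
      · intro h
        refine hU (hmono v0 hv0 v hv ?_) hv0U
        rw [hv0i]
        exact h
    set b0 := i0 * m / n with hb0
    have e1 : mean F (fun v => ch d v * (if ρ v ∈ U then s v else 0)) N =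
        (∑ c ∈ (Finset.range m).filter (fun c => b0 < c), y c d) +
        mean F (fun v => ch d v * (if v ∈ t ∧ blk v = b0 ∧ i0 ≤ idx v then s v else 0)) N := by
      have e2 : ∑ c ∈ (Finset.range m).filter (fun c => b0 < c), y c d =
          mean F (fun v => ∑ c ∈ (Finset.range m).filter (fun c => b0 < c), h c v * ch d v) N :=
        (mean_sum _ _ _).symm
      rw [e2, hmean, hmean, hmean, ← add_div, ← Finset.sum_add_distrib]
      congr 1
      refine Finset.sum_congr rfl fun v hv => ?_
      have e3 : ∑ c ∈ (Finset.range m).filter (fun c => b0 < c), h c v * ch d v =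
          if b0 < blk v then s v * ch d v else 0 := by
        have e4 : ∀ c ∈ (Finset.range m).filter (fun c => b0 < c), h c v * ch d v =
            if blk v = c then s v * ch d v else 0 := by
          intro c _
          change (if v ∈ t ∧ blk v = c then s v else 0) * ch d v = _
          by_cases h5 : blk v = c
          · rw [if_pos ⟨hv, h5⟩, if_pos h5]
          · rw [if_neg (fun h => h5 h.2), if_neg h5, zero_mul]
        rw [Finset.sum_congr rfl e4, Finset.sum_ite_eq]
        by_cases h5 : b0 < blk v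
        · rw [if_pos h5, if_pos (Finset.mem_filter.2 ⟨Finset.mem_range.2 (hblk v hv), h5⟩)]
        · rw [if_neg h5, if_neg (fun h => h5 (Finset.mem_filter.1 h).2)]
      rw [e3]
      by_cases h5 : i0 ≤ idx v
      · rw [if_pos ((hiff v hv).2 h5)]
        have h6 : b0 ≤ blk v := Nat.div_le_div_right (Nat.mul_le_mul_right m h5)
        rcases h6.eq_or_lt with h7 | h7
        · rw [if_neg (by rw [← h7]; exact lt_irrefl _), if_pos ⟨hv, h7.symm, h5⟩]
          ring
        · rw [if_pos h7, if_neg (fun h => h7.ne h.2.1.symm)]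
          ring
      · have h6 : blk v ≤ b0 := Nat.div_le_div_right (Nat.mul_le_mul_right m (Nat.le_of_not_ge h5))
        rw [if_neg (fun h => h5 ((hiff v hv).1 h)), if_neg (not_lt.2 h6),
          if_neg (fun h => h5 h.2.2)]
        ring
    have e2 : |mean F (fun v => ch d v *
        (if v ∈ t ∧ blk v = b0 ∧ i0 ≤ idx v then s v else 0)) N| ≤ 1 / k := by
      rw [hmean, abs_div, abs_of_nonneg (Nat.cast_nonneg t.card : (0 : ℝ) ≤ _)]
      have hnR : (0 : ℝ) < n := by exact_mod_cast hn0
      rw [div_le_iff₀ (by exact_mod_cast hn0)]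
      have e3 : |∑ v ∈ t, ch d v * (if v ∈ t ∧ blk v = b0 ∧ i0 ≤ idx v then s v else 0)| ≤
          ((t.filter fun v => blk v = b0).card : ℝ) := by
        refine (Finset.abs_sum_le_sum_abs _ _).trans ?_
        rw [← Finset.sum_boole]
        refine Finset.sum_le_sum fun v _ => ?_
        rw [abs_mul]
        by_cases h5 : blk v = b0
        · rw [if_pos h5]
          refine mul_le_one₀ (ch_abs d v) (abs_nonneg _) ?_
          split_ifs
          · exact hs v
          · simp
        · rw [if_neg h5, if_neg (fun h => h5 h.2.1), abs_zero, mul_zero]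
      have e4 : (t.filter fun v => blk v = b0).card * m ≤ n + m := by
        have h5 := card_block hn0 ((t.filter fun v => blk v = b0).image idx) (b := b0) (by
          intro i hi
          obtain ⟨v, hv, rfl⟩ := Finset.mem_image.1 hi
          exact (Finset.mem_filter.1 hv).2)
        rwa [Finset.card_image_of_injOn (by
          intro v hv w hw h
          exact hinj v (Finset.mem_filter.1 (Finset.mem_coe.1 hv)).1 w
            (Finset.mem_filter.1 (Finset.mem_coe.1 hw)).1 h)] at h5
      refine e3.trans ?_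
      have e5 : ((t.filter fun v => blk v = b0).card : ℝ) * m ≤ n + m := by exact_mod_cast e4
      have e6 : (m : ℝ) ≤ n := by exact_mod_cast hn
      have e7 : (m : ℝ) = 2 * k := by rw [hm]; push_cast; ring
      rw [e7] at e5 e6
      have e8 : ((t.filter fun v => blk v = b0).card : ℝ) * k ≤ n := by nlinarith
      rw [one_div, inv_mul_eq_div, le_div_iff₀ hkR]
      exact e8
    have e3 : 1 / (k : ℝ) ≤ |∑ c ∈ (Finset.range m).filter (fun c => b0 < c), y c d| := by
      rw [e1] at hge
      have e4 := abs_add_le (∑ c ∈ (Finset.range m).filter (fun c => b0 < c), y c d)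
        (mean F (fun v => ch d v * (if v ∈ t ∧ blk v = b0 ∧ i0 ≤ idx v then s v else 0)) N)
      have e5 : (2 : ℝ) / k = 1 / k + 1 / k := by ring
      linarith
    have e4 : |∑ c ∈ (Finset.range m).filter (fun c => b0 < c), y c d| ^ 2 ≤
        m * ∑ c ∈ Finset.range m, y c d ^ 2 := by
      rw [sq_abs]
      refine (sq_sum_le_card_mul_sum_sq (s := (Finset.range m).filter (fun c => b0 < c))
        (f := fun c => y c d)).trans ?_
      have e5 : (((Finset.range m).filter (fun c => b0 < c)).card : ℝ) ≤ m := by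
        have := Finset.card_filter_le (Finset.range m) (fun c => b0 < c)
        rw [Finset.card_range] at this
        exact_mod_cast this
      refine mul_le_mul e5 ?_ (Finset.sum_nonneg fun c _ => sq_nonneg _) (Nat.cast_nonneg _)
      exact Finset.sum_le_sum_of_subset_of_nonneg (Finset.filter_subset _ _)
        fun c _ _ => sq_nonneg _
    have e5 : (1 / (k : ℝ)) ^ 2 ≤ m * ∑ c ∈ Finset.range m, y c d ^ 2 :=
      (pow_le_pow_left₀ (by positivity) e3 2).trans e4
    have e7 : (m : ℝ) = 2 * k := by rw [hm]; push_cast; ring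
    rw [e7] at e5
    rw [div_le_iff₀ (by positivity)]
    have e8 : (1 / (k : ℝ)) ^ 2 * k ^ 2 = 1 := by field_simp
    calc (1 : ℝ) = (1 / (k : ℝ)) ^ 2 * k ^ 2 := e8.symm
      _ ≤ (2 * k * ∑ c ∈ Finset.range m, y c d ^ 2) * k ^ 2 :=
          mul_le_mul_of_nonneg_right e5 (sq_nonneg _)
      _ = _ := by ring
  have h2 : ∑ d ∈ E, ∑ c ∈ Finset.range m, y c d ^ 2 ≤ 2 := by
    calc ∑ d ∈ E, ∑ c ∈ Finset.range m, y c d ^ 2 ≤ ∑ d ∈ T, ∑ c ∈ Finset.range m, y c d ^ 2 :=
          Finset.sum_le_sum_of_subset_of_nonneg (Finset.filter_subset _ _)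
            fun d _ _ => Finset.sum_nonneg fun c _ => sq_nonneg _
      _ = ∑ c ∈ Finset.range m, ∑ d ∈ T, y c d ^ 2 := Finset.sum_comm
      _ ≤ ∑ c ∈ Finset.range m, (1 + 1) * mean F (fun v => h c v ^ 2) N :=
          Finset.sum_le_sum fun c _ => hB (h c)
      _ = mean F (fun v => ∑ c ∈ Finset.range m, (1 + 1) * h c v ^ 2) N := by
          rw [mean_sum]
          exact Finset.sum_congr rfl fun c _ => (mean_const_mul _ _ _).symm
      _ ≤ 2 := by
          refine mean_le_const zero_le_two (fun v => ?_) N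
          have e1 : ∀ c ∈ Finset.range m, (1 + 1) * h c v ^ 2 ≤ if blk v = c then 2 else 0 := by
            intro c _
            change (1 + 1) * (if v ∈ t ∧ blk v = c then s v else 0) ^ 2 ≤ _
            by_cases h5 : blk v = c
            · rw [if_pos h5]
              split_ifs
              · have := (sq_le_one_iff_abs_le_one _).2 (hs v)
                linarith
              · norm_num
            · rw [if_neg (fun h => h5 h.2), if_neg h5]
              norm_num
          refine (Finset.sum_le_sum e1).trans ?_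
          rw [Finset.sum_ite_eq]
          split_ifs <;> norm_num
  have h3 : (E.card : ℝ) * (1 / (2 * (k : ℝ) ^ 3)) ≤ 2 := by
    calc (E.card : ℝ) * (1 / (2 * (k : ℝ) ^ 3)) = ∑ d ∈ E, 1 / (2 * (k : ℝ) ^ 3) := by
          rw [Finset.sum_const, nsmul_eq_mul]
      _ ≤ ∑ d ∈ E, ∑ c ∈ Finset.range m, y c d ^ 2 := Finset.sum_le_sum h1
      _ ≤ 2 := h2
  have h4 : (E.card : ℝ) ≤ ((4 * k ^ 3 : ℕ) : ℝ) := by
    rw [mul_one_div, div_le_iff₀ (by positivity)] at h3
    push_cast
    linarith
  exact_mod_cast h4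

end

end Pool.Agent.W529.ST
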