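import Pool.Agent.W529.ST.Conv
import Pool.Agent.W401.Cheb.Full
import Pool.Agent.W401.Cheb.Frob

/-! Class functions of the finite quotients of the absolute Galois group at the Frobenius elements:
means over the primes, uniformly in the class function. -/

set_option autoImplicit false

namespace Pool.Agent.W529.ST

open NumberField IsDedekindDomain Filter Topology
open Pool.Agent.W401.Cheb (GK IsFrob dens ChebK chebK)

section
variable {K : Type} [Field K] [NumberField K]

/-- class functions of `Gal(K̄/K)` modulo `U` -/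
def IsClass (U : Subgroup (GK K)) (h : GK K → ℝ) : Prop :=
  (∀ σ τ : GK K, h (τ * σ * τ⁻¹) = h σ) ∧ ∀ σ : GK K, ∀ u ∈ U, h (σ * u) = h σ

/-- mean of a function over `Gal(K̄/K) / U` -/
noncomputable def avg (U : Subgroup (GK K)) (h : GK K → ℝ) : ℝ :=
  (∑ᶠ c : GK K ⧸ U, h c.out) / (Nat.card (GK K ⧸ U) : ℝ)

omit [NumberField K] in
theorem out_eq {U : Subgroup (GK K)} {h : GK K → ℝ} (hh : ∀ σ : GK K, ∀ u ∈ U, h (σ * u) = h σ)
    (σ : GK K) : h ((σ : GK K ⧸ U).out) = h σ := by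
  have h1 : ((σ : GK K ⧸ U).out : GK K ⧸ U) = σ := QuotientGroup.out_eq' _
  have h2 := QuotientGroup.eq.1 h1
  have h3 := hh (σ : GK K ⧸ U).out _ h2
  rw [mul_inv_cancel_left] at h3
  exact h3.symm

theorem fin_quot {U : Subgroup (GK K)} (hU : IsOpen (U : Set (GK K))) : Finite (GK K ⧸ U) :=
  U.quotient_finite_of_isOpen hU

omit [NumberField K] in
theorem avg_eq {U : Subgroup (GK K)} [Fintype (GK K ⧸ U)] (h : GK K → ℝ) :
    avg U h = (∑ c : GK K ⧸ U, h c.out) / (Fintype.card (GK K ⧸ U) : ℝ) := by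
  unfold avg
  rw [finsum_eq_sum_of_fintype, Nat.card_eq_fintype_card]

/-- the indicator of a proposition -/
noncomputable def ind (P : Prop) : ℝ := open Classical in if P then 1 else 0

theorem ind_pos {P : Prop} (h : P) : ind P = 1 := if_pos h

theorem ind_neg {P : Prop} (h : ¬ P) : ind P = 0 := if_neg h

theorem ind_nonneg (P : Prop) : 0 ≤ ind P := by
  by_cases h : P
  · rw [ind_pos h]; exact zero_le_one
  · rw [ind_neg h]

theorem ind_le_one (P : Prop) : ind P ≤ 1 := by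
  by_cases h : P
  · rw [ind_pos h]
  · rw [ind_neg h]; exact zero_le_one

theorem dens_eq (P : HeightOneSpectrum (𝓞 K) → Prop) (N : ℕ) :
    mean K (fun v => ind (P v)) N * dens (K := K) (fun _ => True) N = dens P N := by
  classical
  obtain ⟨t, ht, hcard, hmean⟩ := mean_def (F := K) (fun _ => 0) N
  have h1 : ∀ Q : HeightOneSpectrum (𝓞 K) → Prop,
      Nat.card {v : HeightOneSpectrum (𝓞 K) // Ideal.absNorm v.asIdeal ≤ N ∧ Q v} =
      (t.filter Q).card := by
    intro Q
    have h2 : {v : HeightOneSpectrum (𝓞 K) // Ideal.absNorm v.asIdeal ≤ N ∧ Q v} ≃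
        {v // v ∈ t.filter Q} := Equiv.subtypeEquivRight fun v => by
      rw [Finset.mem_filter, ht]
    rw [Nat.card_congr h2, Nat.card_eq_fintype_card, Fintype.card_coe]
  unfold dens
  have h4 : ∑ v ∈ t, ind (P v) = ((t.filter P).card : ℝ) := by
    rw [Finset.card_filter]
    push_cast
    refine Finset.sum_congr rfl fun v _ => ?_
    by_cases h : P v
    · rw [ind_pos h, if_pos h]
    · rw [ind_neg h, if_neg h]
  rw [h1 P, h1 fun _ => True, hmean, h4, Finset.filter_true]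
  rcases Nat.eq_zero_or_pos t.card with h0 | h0
  · have h3 : (t.filter P).card = 0 :=
      Nat.eq_zero_of_le_zero (h0 ▸ Finset.card_le_card (Finset.filter_subset _ _))
    rw [h3, h0]
    simp
  · have h3 : (t.card : ℝ) ≠ 0 := by exact_mod_cast h0.ne'
    field_simp

theorem dens_true : Tendsto (dens (K := K) fun _ => True) atTop (𝓝 1) := by
  have hF := Pool.Agent.W401.Frob.main K
  have h1 := chebK K ⊤ isOpen_univ Set.univ (fun _ _ _ => Set.mem_univ _)
    (fun _ _ _ _ => Set.mem_univ _)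
  have h2 : (fun v : HeightOneSpectrum (𝓞 K) => ∃ σ ∈ (Set.univ : Set (GK K)), IsFrob v σ) =
      fun _ => True := by
    funext v
    obtain ⟨σ, hσ⟩ := hF.1 v
    exact eq_true ⟨σ, Set.mem_univ _, hσ⟩
  rw [h2] at h1
  refine h1.trans_eq ?_
  have h3 : (QuotientGroup.mk : GK K → GK K ⧸ (⊤ : Subgroup (GK K))) '' Set.univ = Set.univ := by
    rw [Set.image_univ, Set.range_eq_univ]
    exact QuotientGroup.mk_surjective
  rw [h3, Set.ncard_univ, div_self]
  have : Finite (GK K ⧸ (⊤ : Subgroup (GK K))) := fin_quot isOpen_univ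
  exact_mod_cast Nat.card_pos.ne'

theorem dens_mono {P Q : HeightOneSpectrum (𝓞 K) → Prop} (h : ∀ v, P v → Q v) (N : ℕ) :
    dens P N ≤ dens Q N := by
  rw [← dens_eq P N, ← dens_eq Q N]
  refine mul_le_mul_of_nonneg_right (mean_mono (fun v => ?_) N) ?_
  · by_cases hP : P v
    · rw [ind_pos hP, ind_pos (h v hP)]
    · rw [ind_neg hP]
      exact ind_nonneg _
  · unfold dens
    positivity

/-- the proportion of the primes whose chosen Frobenius element is in a set of classes -/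
theorem mean_set {U : Subgroup (GK K)} [U.Normal] (hU : IsOpen (U : Set (GK K)))
    {Fr : HeightOneSpectrum (𝓞 K) → GK K} (hFr : ∀ v, IsFrob v (Fr v)) (C : Set (GK K))
    (hC : ∀ σ ∈ C, ∀ τ : GK K, τ * σ * τ⁻¹ ∈ C) (hCU : ∀ σ ∈ C, ∀ u ∈ U, σ * u ∈ C) :
    Tendsto (mean K fun v => ind (Fr v ∈ C)) atTop
      (𝓝 ((((QuotientGroup.mk : GK K → GK K ⧸ U) '' C).ncard : ℝ) / (Nat.card (GK K ⧸ U) : ℝ))) := by
  have hfin : Finite (GK K ⧸ U) := fin_quot hU
  have hC' : ∀ σ ∈ Cᶜ, ∀ τ : GK K, τ * σ * τ⁻¹ ∈ Cᶜ := by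
    intro σ hσ τ h
    apply hσ
    have h1 := hC _ h τ⁻¹
    have h2 : τ⁻¹ * (τ * σ * τ⁻¹) * τ⁻¹⁻¹ = σ := by group
    rwa [h2] at h1
  have hCU' : ∀ σ ∈ Cᶜ, ∀ u ∈ U, σ * u ∈ Cᶜ := by
    intro σ hσ u hu h
    apply hσ
    have h1 := hCU _ h u⁻¹ (U.inv_mem hu)
    rwa [mul_inv_cancel_right] at h1
  have h1 := chebK K U hU C hC hCU
  have h2 := chebK K U hU Cᶜ hC' hCU'
  have h0 := dens_true (K := K)
  set δ : ℝ := (((QuotientGroup.mk : GK K → GK K ⧸ U) '' C).ncard : ℝ) /
    (Nat.card (GK K ⧸ U) : ℝ) with hδ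
  have h3 : (((QuotientGroup.mk : GK K → GK K ⧸ U) '' Cᶜ).ncard : ℝ) /
      (Nat.card (GK K ⧸ U) : ℝ) = 1 - δ := by
    have h4 : (QuotientGroup.mk : GK K → GK K ⧸ U) '' Cᶜ =
        ((QuotientGroup.mk : GK K → GK K ⧸ U) '' C)ᶜ := by
      ext q
      constructor
      · rintro ⟨σ, hσ, rfl⟩ ⟨τ, hτ, h⟩
        apply hσ
        have h5 := hCU τ hτ _ (QuotientGroup.eq.1 h)
        rwa [mul_inv_cancel_left] at h5
      · intro hq
        obtain ⟨σ, rfl⟩ := QuotientGroup.mk_surjective q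
        exact ⟨σ, fun h => hq ⟨σ, h, rfl⟩, rfl⟩
    have h5 := Set.ncard_add_ncard_compl ((QuotientGroup.mk : GK K → GK K ⧸ U) '' C)
    have h6 : (Nat.card (GK K ⧸ U) : ℝ) ≠ 0 := by exact_mod_cast Nat.card_pos.ne'
    rw [h4, hδ, eq_sub_iff_add_eq, ← add_div, div_eq_one_iff_eq h6]
    have h7 : ((((QuotientGroup.mk : GK K → GK K ⧸ U) '' C)ᶜ).ncard : ℝ) +
        (((QuotientGroup.mk : GK K → GK K ⧸ U) '' C).ncard : ℝ) = (Nat.card (GK K ⧸ U) : ℝ) := by
      rw [← h5]
      push_cast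
      ring
    exact h7
  rw [h3] at h2
  -- the density of the chosen elements
  have h4 : Tendsto (dens fun v => Fr v ∈ C) atTop (𝓝 δ) := by
    refine tendsto_of_tendsto_of_tendsto_of_le_of_le (g := fun N => dens (K := K) (fun _ => True) N -
      dens (fun v => ∃ σ ∈ Cᶜ, IsFrob v σ) N) (h := dens fun v => ∃ σ ∈ C, IsFrob v σ) ?_ h1 ?_ ?_
    · have := h0.sub h2
      rwa [sub_sub_cancel] at this
    · intro N
      have h5 : dens (K := K) (fun _ => True) N = dens (fun v => Fr v ∈ C) N +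
          dens (fun v => Fr v ∈ Cᶜ) N := by
        have e1 := dens_eq (fun v => Fr v ∈ C) N
        have e2 := dens_eq (fun v => Fr v ∈ Cᶜ) N
        have e3 := dens_eq (fun _ : HeightOneSpectrum (𝓞 K) => True) N
        have e4 : mean K (fun v => ind (Fr v ∈ C)) N + mean K (fun v => ind (Fr v ∈ Cᶜ)) N =
            mean K (fun _ => ind True) N := by
          obtain ⟨t, _, _, hmean⟩ := mean_def (F := K) (fun _ => 0) N
          rw [hmean, hmean, hmean, ← add_div, ← Finset.sum_add_distrib]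
          congr 1
          refine Finset.sum_congr rfl fun v _ => ?_
          by_cases h : Fr v ∈ C
          · have h' : ¬ (Fr v ∈ Cᶜ) := fun h' => h' h
            rw [ind_pos h, ind_neg h', ind_pos trivial, add_zero]
          · have h' : Fr v ∈ Cᶜ := h
            rw [ind_neg h, ind_pos h', ind_pos trivial, zero_add]
        rw [← e1, ← e2, ← add_mul, e4, e3]
      have h6 : dens (fun v => Fr v ∈ Cᶜ) N ≤ dens (fun v => ∃ σ ∈ Cᶜ, IsFrob v σ) N :=
        dens_mono (fun v hv => ⟨Fr v, hv, hFr v⟩) N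
      change dens (K := K) (fun _ => True) N - dens (fun v => ∃ σ ∈ Cᶜ, IsFrob v σ) N ≤ _
      linarith
    · intro N
      exact dens_mono (fun v hv => ⟨Fr v, hv, hFr v⟩) N
  have h5 := h4.div h0 one_ne_zero
  rw [div_one] at h5
  refine h5.congr' ?_
  have h6 := h0.eventually_ne one_ne_zero
  filter_upwards [h6] with N hN
  rw [Pi.div_apply, div_eq_iff hN, dens_eq]

end

end Pool.Agent.W529.ST
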