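import Pool.Agent.W529.ST.Ort

/-! Bessel's inequality for class functions of finite quotients of the absolute Galois group. -/

set_option autoImplicit false

namespace Pool.Agent.W529.ST

open NumberField IsDedekindDomain Filter Topology
open Pool.Agent.W401.Cheb (GK IsFrob dens ChebK chebK)

section
variable {K : Type} [Field K] [NumberField K]

omit [NumberField K] in
theorem IsClass.mono {U V : Subgroup (GK K)} (h : V ≤ U) {f : GK K → ℝ} (hf : IsClass U f) :
    IsClass V f := ⟨hf.1, fun σ u hu => hf.2 σ u (h hu)⟩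

omit [NumberField K] in
theorem IsClass.mul {U : Subgroup (GK K)} {f g : GK K → ℝ} (hf : IsClass U f) (hg : IsClass U g) :
    IsClass U fun σ => f σ * g σ :=
  ⟨fun σ τ => congrArg₂ (· * ·) (hf.1 σ τ) (hg.1 σ τ),
    fun σ u hu => congrArg₂ (· * ·) (hf.2 σ u hu) (hg.2 σ u hu)⟩

omit [NumberField K] in
theorem IsClass.sq {U : Subgroup (GK K)} {f : GK K → ℝ} (hf : IsClass U f) :
    IsClass U fun σ => f σ ^ 2 :=
  ⟨fun σ τ => congrArg (· ^ 2) (hf.1 σ τ), fun σ u hu => congrArg (· ^ 2) (hf.2 σ u hu)⟩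

/-- **Chebotarev's theorem, uniform in the class function.** -/
theorem cheb_unif {U : Subgroup (GK K)} (hn : U.Normal) (hU : IsOpen (U : Set (GK K)))
    {Fr : HeightOneSpectrum (𝓞 K) → GK K} (hFr : ∀ v, IsFrob v (Fr v)) :
    ∃ ε : ℕ → ℝ, Tendsto ε atTop (𝓝 0) ∧ (∀ N, 0 ≤ ε N) ∧
      ∀ (N : ℕ) (h : GK K → ℝ) (B : ℝ), IsClass U h → (∀ σ, |h σ| ≤ B) →
        |mean K (fun v => h (Fr v)) N - avg U h| ≤ B * ε N := by
  classical
  have hfin : Finite (GK K ⧸ U) := fin_quot hU
  let _ : Fintype (GK K ⧸ U) := Fintype.ofFinite _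
  let C : GK K ⧸ U → Set (GK K) := fun c => {σ | IsConj (σ : GK K ⧸ U) c}
  let n : GK K ⧸ U → ℕ := fun c => (Finset.univ.filter fun q : GK K ⧸ U => IsConj q c).card
  have hn1 : ∀ c, (n c : ℝ) ≠ 0 := by
    intro c
    have : 0 < n c := Finset.card_pos.2 ⟨c, Finset.mem_filter.2 ⟨Finset.mem_univ _, IsConj.refl _⟩⟩
    exact_mod_cast this.ne'
  have hlim : ∀ c, Tendsto (mean K fun v => ind (Fr v ∈ C c)) atTop
      (𝓝 ((n c : ℝ) / Fintype.card (GK K ⧸ U))) := by
    intro c
    have h1 := mean_set hU hFr (C c) ?_ ?_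
    · have h2 : (QuotientGroup.mk : GK K → GK K ⧸ U) '' (C c) =
          ((Finset.univ.filter fun q : GK K ⧸ U => IsConj q c : Finset (GK K ⧸ U)) :
            Set (GK K ⧸ U)) := by
        ext q
        simp only [Finset.coe_filter, Finset.mem_univ, true_and, Set.mem_ofPred_eq]
        constructor
        · rintro ⟨g, hg, rfl⟩
          exact hg
        · intro hq
          obtain ⟨g, rfl⟩ := QuotientGroup.mk_surjective q
          exact ⟨g, hq, rfl⟩
      rw [h2, Set.ncard_coe_finset, Nat.card_eq_fintype_card] at h1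
      exact h1
    · intro σ hσ τ
      change IsConj ((τ * σ * τ⁻¹ : GK K) : GK K ⧸ U) c
      have h2 : IsConj (σ : GK K ⧸ U) ((τ * σ * τ⁻¹ : GK K) : GK K ⧸ U) :=
        isConj_iff.2 ⟨(τ : GK K ⧸ U), rfl⟩
      exact h2.symm.trans hσ
    · intro σ hσ u hu
      change IsConj ((σ * u : GK K) : GK K ⧸ U) c
      rw [QuotientGroup.mk_mul_of_mem σ hu]
      exact hσ
  refine ⟨fun N => ∑ c : GK K ⧸ U, |mean K (fun v => ind (Fr v ∈ C c)) N / n c -
    1 / Fintype.card (GK K ⧸ U)|, ?_, fun N => Finset.sum_nonneg fun c _ => abs_nonneg _, ?_⟩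
  · have h1 : Tendsto (fun N => ∑ c : GK K ⧸ U, |mean K (fun v => ind (Fr v ∈ C c)) N / n c -
        1 / Fintype.card (GK K ⧸ U)|) atTop (𝓝 (∑ c : GK K ⧸ U,
          |((n c : ℝ) / Fintype.card (GK K ⧸ U)) / n c - 1 / Fintype.card (GK K ⧸ U)|)) := by
      refine tendsto_finsetSum _ fun c _ => ?_
      exact (((hlim c).div_const _).sub_const _).abs
    refine h1.trans_eq ?_
    congr 1
    refine Finset.sum_eq_zero fun c _ => ?_
    rw [div_right_comm, div_self (hn1 c), sub_self, abs_zero]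
  · intro N h B hh hB
    have hB0 : 0 ≤ B := (abs_nonneg _).trans (hB 1)
    have hout : ∀ σ : GK K, h ((σ : GK K ⧸ U).out) = h σ := out_eq hh.2
    have hconj : ∀ q c : GK K ⧸ U, IsConj q c → h q.out = h c.out := by
      intro q c hqc
      obtain ⟨g, hg⟩ := isConj_iff.1 hqc
      obtain ⟨σ, rfl⟩ := QuotientGroup.mk_surjective q
      obtain ⟨τ, rfl⟩ := QuotientGroup.mk_surjective g
      rw [← hg, hout]
      change _ = h (((τ * σ * τ⁻¹ : GK K) : GK K ⧸ U)).out
      rw [hout, hh.1]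
    have e1 : (fun v => h (Fr v)) = fun v => ∑ c : GK K ⧸ U, h c.out / n c * ind (Fr v ∈ C c) := by
      funext v
      have e2 : ∀ c : GK K ⧸ U, h c.out / n c * ind (Fr v ∈ C c) =
          if IsConj c (Fr v : GK K ⧸ U) then h (Fr v) / n (Fr v : GK K ⧸ U) else 0 := by
        intro c
        by_cases hc : IsConj c (Fr v : GK K ⧸ U)
        · have h3 : Fr v ∈ C c := hc.symm
          rw [if_pos hc, ind_pos h3, mul_one, hconj _ _ hc, hout]
          have h4 : n c = n (Fr v : GK K ⧸ U) := by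
            change (Finset.univ.filter _).card = (Finset.univ.filter _).card
            congr 1
            ext q
            simp only [Finset.mem_filter, Finset.mem_univ, true_and]
            exact ⟨fun h => h.trans hc, fun h => h.trans hc.symm⟩
          rw [h4]
        · have h3 : ¬ (Fr v ∈ C c) := fun h => hc (IsConj.symm h)
          rw [if_neg hc, ind_neg h3, mul_zero]
      rw [Finset.sum_congr rfl fun c _ => e2 c, ← Finset.sum_filter, Finset.sum_const, nsmul_eq_mul]
      change h (Fr v) = (n (Fr v : GK K ⧸ U) : ℝ) * (h (Fr v) / n (Fr v : GK K ⧸ U))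
      rw [mul_div_cancel₀ _ (hn1 _)]
    rw [e1, mean_sum, avg_eq, Finset.sum_div, ← Finset.sum_sub_distrib, Finset.mul_sum]
    refine (Finset.abs_sum_le_sum_abs _ _).trans (Finset.sum_le_sum fun c _ => ?_)
    rw [mean_const_mul]
    have e3 : h c.out / n c * mean K (fun v => ind (Fr v ∈ C c)) N -
        h c.out / Fintype.card (GK K ⧸ U) = h c.out * (mean K (fun v => ind (Fr v ∈ C c)) N / n c -
          1 / Fintype.card (GK K ⧸ U)) := by ring
    rw [e3, abs_mul]
    exact mul_le_mul_of_nonneg_right (hB _) (abs_nonneg _)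

/-- the mean of a product of class functions of linearly disjoint extensions -/
theorem avg_prod {U V : Subgroup (GK K)} (hUn : U.Normal) (hVn : V.Normal)
    (hU : IsOpen (U : Set (GK K))) (hV : IsOpen (V : Set (GK K))) (hUV : U ⊔ V = ⊤)
    {f g : GK K → ℝ} (hf : IsClass U f) (hg : IsClass V g) :
    avg (U ⊓ V) (fun σ => f σ * g σ) = avg U f * avg V g := by
  classical
  have h1 : Finite (GK K ⧸ U) := fin_quot hU
  have h2 : Finite (GK K ⧸ V) := fin_quot hV
  have h3 : Finite (GK K ⧸ (U ⊓ V)) := fin_quot (hU.inter hV)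
  let _ : Fintype (GK K ⧸ U) := Fintype.ofFinite _
  let _ : Fintype (GK K ⧸ V) := Fintype.ofFinite _
  let _ : Fintype (GK K ⧸ (U ⊓ V)) := Fintype.ofFinite _
  let φ : GK K ⧸ (U ⊓ V) → (GK K ⧸ U) × (GK K ⧸ V) := fun c => (c.out, c.out)
  have hφ : ∀ σ : GK K, φ σ = ((σ : GK K ⧸ U), (σ : GK K ⧸ V)) := by
    intro σ
    have h4 : ((σ : GK K ⧸ (U ⊓ V)).out : GK K ⧸ (U ⊓ V)) = σ := QuotientGroup.out_eq' _
    have h5 := QuotientGroup.eq.1 h4
    exact Prod.ext (QuotientGroup.eq.2 h5.1) (QuotientGroup.eq.2 h5.2)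
  have hbij : Function.Bijective φ := by
    constructor
    · intro a b hab
      obtain ⟨σ, rfl⟩ := QuotientGroup.mk_surjective a
      obtain ⟨τ, rfl⟩ := QuotientGroup.mk_surjective b
      rw [hφ, hφ, Prod.mk.injEq] at hab
      exact QuotientGroup.eq.2 ⟨QuotientGroup.eq.1 hab.1, QuotientGroup.eq.1 hab.2⟩
    · rintro ⟨a, b⟩
      obtain ⟨σ, rfl⟩ := QuotientGroup.mk_surjective a
      obtain ⟨τ, rfl⟩ := QuotientGroup.mk_surjective b
      have h4 : σ⁻¹ * τ ∈ ((U ⊔ V : Subgroup (GK K)) : Set (GK K)) := by rw [hUV]; trivial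
      rw [Subgroup.mul_normal] at h4
      obtain ⟨u, hu, v, hv, huv⟩ := h4
      refine ⟨((σ * u : GK K) : GK K ⧸ (U ⊓ V)), ?_⟩
      rw [hφ]
      refine Prod.ext ?_ ?_
      · exact QuotientGroup.mk_mul_of_mem σ hu
      · have h5 : τ = σ * u * v := by
          have h6 : u * v = σ⁻¹ * τ := huv
          rw [mul_assoc, h6, mul_inv_cancel_left]
        change ((σ * u : GK K) : GK K ⧸ V) = (τ : GK K ⧸ V)
        rw [h5, QuotientGroup.mk_mul_of_mem _ hv]
  have hcard : (Fintype.card (GK K ⧸ (U ⊓ V)) : ℝ) =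
      Fintype.card (GK K ⧸ U) * Fintype.card (GK K ⧸ V) := by
    rw [Fintype.card_of_bijective hbij, Fintype.card_prod]
    push_cast
    rfl
  rw [avg_eq, avg_eq, avg_eq, div_mul_div_comm, ← hcard]
  congr 1
  rw [Finset.sum_mul_sum, ← Finset.sum_product']
  refine Fintype.sum_bijective φ hbij _ _ fun c => ?_
  obtain ⟨σ, rfl⟩ := QuotientGroup.mk_surjective c
  have hfg : IsClass (U ⊓ V) fun σ => f σ * g σ :=
    (hf.mono inf_le_left).mul (hg.mono inf_le_right)
  rw [hφ, out_eq hf.2, out_eq hg.2]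
  exact out_eq (h := fun σ => f σ * g σ) hfg.2 σ

/-- Bessel's inequality for almost orthonormal functions -/
theorem bessel_gen {ι : Type} (T : Finset ι) {η : ℝ} (hη : 0 < η) {N : ℕ}
    (e : ι → HeightOneSpectrum (𝓞 K) → ℝ) (hd : ∀ i ∈ T, mean K (fun v => e i v ^ 2) N ≤ 1 + η / 2)
    (ho : ∀ i ∈ T, ∀ j ∈ T, i ≠ j →
      (T.card + 1) * |mean K (fun v => e i v * e j v) N| ≤ η / 2)
    (h : HeightOneSpectrum (𝓞 K) → ℝ) :
    ∑ i ∈ T, mean K (fun v => h v * e i v) N ^ 2 ≤ (1 + η) * mean K (fun v => h v ^ 2) N := by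
  classical
  obtain ⟨t, _, _, hmean⟩ := mean_def (F := K) (fun _ => 0) N
  set y : ι → ℝ := fun i => mean K (fun v => h v * e i v) N with hy
  set S : ℝ := ∑ i ∈ T, y i ^ 2 with hS
  have hS0 : 0 ≤ S := Finset.sum_nonneg fun i _ => sq_nonneg _
  have hm0 : 0 ≤ mean K (fun v => h v ^ 2) N := by
    rw [hmean]
    exact div_nonneg (Finset.sum_nonneg fun v _ => sq_nonneg _) (Nat.cast_nonneg _)
  set W : HeightOneSpectrum (𝓞 K) → ℝ := fun v => ∑ i ∈ T, y i * e i v with hW
  have h2 : S = mean K (fun v => h v * W v) N := by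
    rw [hS, hmean]
    have e1 : ∀ i ∈ T, y i ^ 2 = (∑ v ∈ t, y i * (h v * e i v)) / (t.card : ℝ) := by
      intro i _
      rw [sq]
      nth_rewrite 2 [hy]
      simp only
      rw [hmean, ← mul_div_assoc, Finset.mul_sum]
    rw [Finset.sum_congr rfl e1, ← Finset.sum_div, Finset.sum_comm]
    congr 1
    refine Finset.sum_congr rfl fun v _ => ?_
    rw [hW, Finset.mul_sum]
    refine Finset.sum_congr rfl fun i _ => ?_
    ring
  have h3 : mean K (fun v => h v * W v) N ^ 2 ≤
      mean K (fun v => h v ^ 2) N * mean K (fun v => W v ^ 2) N := by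
    rw [hmean, hmean, hmean, div_pow, div_mul_div_comm, ← sq]
    exact div_le_div_of_nonneg_right (Finset.sum_mul_sq_le_sq_mul_sq _ _ _) (sq_nonneg _)
  have h4 : mean K (fun v => W v ^ 2) N =
      ∑ i ∈ T, ∑ j ∈ T, y i * y j * mean K (fun v => e i v * e j v) N := by
    have e1 : ∀ i ∈ T, ∀ j ∈ T, y i * y j * mean K (fun v => e i v * e j v) N =
        (∑ v ∈ t, y i * y j * (e i v * e j v)) / (t.card : ℝ) := by
      intro i _ j _
      rw [hmean, ← mul_div_assoc, Finset.mul_sum]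
    rw [Finset.sum_congr rfl fun i hi => Finset.sum_congr rfl fun j hj => e1 i hi j hj, hmean]
    simp only [← Finset.sum_div]
    congr 1
    rw [Finset.sum_congr rfl fun i _ => Finset.sum_comm, Finset.sum_comm]
    refine Finset.sum_congr rfl fun v _ => ?_
    rw [hW]
    simp only
    rw [sq, Finset.sum_mul_sum]
    refine Finset.sum_congr rfl fun i _ => Finset.sum_congr rfl fun j _ => ?_
    ring
  have h5 : mean K (fun v => W v ^ 2) N ≤ (1 + η) * S := by
    rw [h4]
    have e1 : ∀ i ∈ T, ∀ j ∈ T, y i * y j * mean K (fun v => e i v * e j v) N ≤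
        (if i = j then (1 + η / 2) * y i ^ 2 else 0) +
          η / 2 / (T.card + 1) * (|y i| * |y j|) := by
      intro i hi j hj
      have hc : (0 : ℝ) < (T.card : ℝ) + 1 := by positivity
      by_cases hne : i = j
      · subst hne
        rw [if_pos rfl]
        have h6 : mean K (fun v => e i v * e i v) N ≤ 1 + η / 2 := by
          refine le_trans (le_of_eq ?_) (hd i hi)
          congr 1
          funext v
          ring
        have h7 : y i * y i * mean K (fun v => e i v * e i v) N ≤ (1 + η / 2) * y i ^ 2 := by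
          nlinarith [mul_self_nonneg (y i)]
        have h8 : 0 ≤ η / 2 / (T.card + 1) * (|y i| * |y i|) := by positivity
        linarith
      · rw [if_neg hne, zero_add]
        have h6 := ho i hi j hj hne
        have h7 : |mean K (fun v => e i v * e j v) N| ≤ η / 2 / (T.card + 1) := by
          rw [le_div_iff₀ hc, mul_comm]
          exact h6
        calc y i * y j * mean K (fun v => e i v * e j v) N ≤
              |y i * y j * mean K (fun v => e i v * e j v) N| := le_abs_self _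
          _ = |mean K (fun v => e i v * e j v) N| * (|y i| * |y j|) := by
              rw [abs_mul, abs_mul]; ring
          _ ≤ _ := mul_le_mul_of_nonneg_right h7 (by positivity)
    refine (Finset.sum_le_sum fun i hi => Finset.sum_le_sum fun j hj => e1 i hi j hj).trans ?_
    have e2 : ∑ i ∈ T, ∑ j ∈ T, ((if i = j then (1 + η / 2) * y i ^ 2 else 0) +
        η / 2 / ((T.card : ℝ) + 1) * (|y i| * |y j|)) =
        (1 + η / 2) * S + η / 2 / ((T.card : ℝ) + 1) * (∑ i ∈ T, |y i|) ^ 2 := by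
      simp only [Finset.sum_add_distrib, Finset.sum_ite_eq]
      congr 1
      · rw [hS, Finset.mul_sum]
        exact Finset.sum_congr rfl fun i hi => if_pos hi
      · rw [sq, Finset.sum_mul_sum]
        simp only [Finset.mul_sum]
    rw [e2]
    have h6 : (∑ i ∈ T, |y i|) ^ 2 ≤ T.card * S := by
      have := sq_sum_le_card_mul_sum_sq (s := T) (f := fun i => |y i|)
      simpa only [sq_abs] using this
    have h7 : η / 2 / ((T.card : ℝ) + 1) * (∑ i ∈ T, |y i|) ^ 2 ≤ η / 2 * S := by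
      have hc : (0 : ℝ) < (T.card : ℝ) + 1 := by positivity
      calc η / 2 / ((T.card : ℝ) + 1) * (∑ i ∈ T, |y i|) ^ 2 ≤
            η / 2 / ((T.card : ℝ) + 1) * (T.card * S) :=
            mul_le_mul_of_nonneg_left h6 (by positivity)
        _ ≤ η / 2 / ((T.card : ℝ) + 1) * ((T.card + 1) * S) := by
            refine mul_le_mul_of_nonneg_left ?_ (by positivity)
            nlinarith
        _ = η / 2 * S := by field_simp
    linarith
  have h6 : S ^ 2 ≤ ((1 + η) * mean K (fun v => h v ^ 2) N) * S := by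
    calc S ^ 2 = mean K (fun v => h v * W v) N ^ 2 := by rw [h2]
      _ ≤ mean K (fun v => h v ^ 2) N * mean K (fun v => W v ^ 2) N := h3
      _ ≤ mean K (fun v => h v ^ 2) N * ((1 + η) * S) := mul_le_mul_of_nonneg_left h5 hm0
      _ = _ := by ring
  rcases hS0.eq_or_lt with h7 | h7
  · rw [← h7]
    positivity
  · have := h6
    rw [sq] at this
    exact le_of_mul_le_mul_right this h7

/-- the Bessel inequality at the scale `N` for the finite quotients in `T`, for all functions and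
all normalised class functions of mean zero -/
def JB (Fr : HeightOneSpectrum (𝓞 K) → GK K) (T : Finset (Subgroup (GK K))) (η : ℝ) (N : ℕ) :
    Prop :=
  ∀ e : Subgroup (GK K) → GK K → ℝ, (∀ U ∈ T, IsClass U (e U) ∧ avg U (e U) = 0 ∧
    avg U (fun σ => e U σ ^ 2) ≤ 1) → ∀ f : HeightOneSpectrum (𝓞 K) → ℝ,
    ∑ U ∈ T, mean K (fun v => f v * e U (Fr v)) N ^ 2 ≤ (1 + η) * mean K (fun v => f v ^ 2) N

theorem bound_of_avg {U : Subgroup (GK K)} (hU : IsOpen (U : Set (GK K))) {e : GK K → ℝ}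
    (he : IsClass U e) (h : avg U (fun σ => e σ ^ 2) ≤ 1) (σ : GK K) :
    |e σ| ≤ Nat.card (GK K ⧸ U) := by
  classical
  have h1 : Finite (GK K ⧸ U) := fin_quot hU
  let _ : Fintype (GK K ⧸ U) := Fintype.ofFinite _
  rw [avg_eq] at h
  have hc : (1 : ℝ) ≤ (Nat.card (GK K ⧸ U) : ℝ) := by exact_mod_cast Nat.card_pos
  rw [← Nat.card_eq_fintype_card, div_le_one (by linarith)] at h
  have h2 : e σ ^ 2 ≤ ∑ c : GK K ⧸ U, e c.out ^ 2 := by
    rw [← out_eq he.2 σ]
    exact Finset.single_le_sum (f := fun c : GK K ⧸ U => e c.out ^ 2)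
      (fun c _ => sq_nonneg _) (Finset.mem_univ _)
  have h3 : |e σ| ^ 2 ≤ (Nat.card (GK K ⧸ U) : ℝ) ^ 2 := by
    rw [sq_abs]
    nlinarith
  exact (pow_le_pow_iff_left₀ (abs_nonneg _) (by linarith) two_ne_zero).1 h3

/-- **Bessel's inequality for linearly disjoint Galois extensions**, uniform in the function. -/
theorem joint_bessel {Fr : HeightOneSpectrum (𝓞 K) → GK K} (hFr : ∀ v, IsFrob v (Fr v))
    (T : Finset (Subgroup (GK K))) (hT : ∀ U ∈ T, U.Normal ∧ IsOpen (U : Set (GK K)))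
    (hT' : ∀ U ∈ T, ∀ V ∈ T, U ≠ V → U ⊔ V = ⊤) {η : ℝ} (hη : 0 < η) :
    ∀ᶠ N : ℕ in atTop, JB Fr T η N := by
  classical
  have h1 : ∀ᶠ N : ℕ in atTop, ∀ U ∈ T, ∀ e : GK K → ℝ, IsClass U e →
      avg U (fun σ => e σ ^ 2) ≤ 1 → mean K (fun v => e (Fr v) ^ 2) N ≤ 1 + η / 2 := by
    rw [Filter.eventually_all_finset]
    intro U hU
    obtain ⟨ε, hε, hε0, hb⟩ := cheb_unif (hT U hU).1 (hT U hU).2 hFr
    have h2 : Tendsto (fun N => (Nat.card (GK K ⧸ U) : ℝ) ^ 2 * ε N) atTop
        (𝓝 ((Nat.card (GK K ⧸ U) : ℝ) ^ 2 * 0)) := hε.const_mul _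
    rw [mul_zero] at h2
    filter_upwards [h2.eventually_le_const (by positivity : (0 : ℝ) < η / 2)] with N hN e he he2
    have h3 := hb N (fun σ => e σ ^ 2) ((Nat.card (GK K ⧸ U) : ℝ) ^ 2)
      he.sq (fun σ => by
        rw [abs_pow]
        exact pow_le_pow_left₀ (abs_nonneg _) (bound_of_avg (hT U hU).2 he he2 σ) 2)
    have h4 := (abs_le.1 h3).2
    linarith
  have h2 : ∀ᶠ N : ℕ in atTop, ∀ U ∈ T, ∀ V ∈ T, U ≠ V → ∀ e f : GK K → ℝ, IsClass U e →
      IsClass V f → avg U (fun σ => e σ ^ 2) ≤ 1 → avg V (fun σ => f σ ^ 2) ≤ 1 → avg U e = 0 →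
      (T.card + 1) * |mean K (fun v => e (Fr v) * f (Fr v)) N| ≤ η / 2 := by
    rw [Filter.eventually_all_finset]
    intro U hU
    rw [Filter.eventually_all_finset]
    intro V hV
    by_cases hne : U = V
    · exact Eventually.of_forall fun N h => absurd hne h
    obtain ⟨hUn, hUo⟩ := hT U hU
    obtain ⟨hVn, hVo⟩ := hT V hV
    obtain ⟨ε, hε, hε0, hb⟩ := cheb_unif (U := U ⊓ V) (Subgroup.normal_inf_normal U V)
      (hUo.inter hVo) hFr
    set B : ℝ := (Nat.card (GK K ⧸ U) : ℝ) * Nat.card (GK K ⧸ V) with hB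
    have h2 : Tendsto (fun N => ((T.card : ℝ) + 1) * (B * ε N)) atTop
        (𝓝 (((T.card : ℝ) + 1) * (B * 0))) := (hε.const_mul _).const_mul _
    rw [mul_zero, mul_zero] at h2
    filter_upwards [h2.eventually_le_const (by positivity : (0 : ℝ) < η / 2)] with N hN
    intro _ e f he hf he2 hf2 he0
    refine le_trans (mul_le_mul_of_nonneg_left ?_ (by positivity)) hN
    have h3 := hb N (fun σ => e σ * f σ) B
      ((he.mono inf_le_left).mul (hf.mono inf_le_right)) (fun σ => by
        rw [abs_mul]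
        exact mul_le_mul (bound_of_avg hUo he he2 σ) (bound_of_avg hVo hf hf2 σ) (abs_nonneg _)
          (Nat.cast_nonneg _))
    rw [avg_prod hUn hVn hUo hVo (hT' U hU V hV hne) he hf, he0, zero_mul, sub_zero] at h3
    exact h3
  filter_upwards [h1, h2] with N hN1 hN2 e he f
  exact bessel_gen T hη (fun U v => e U (Fr v))
    (fun U hU => hN1 U hU (e U) (he U hU).1 (he U hU).2.2)
    (fun U hU V hV hne => hN2 U hU V hV hne (e U) (e V) (he U hU).1 (he V hV).1 (he U hU).2.2
      (he V hV).2.2 (he U hU).2.1) f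

end

end Pool.Agent.W529.ST
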