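import Pool.Agent.W529.ST.Ort2

/-! Counting the exceptional Galois extensions. -/

set_option autoImplicit false

namespace Pool.Agent.W529.ST

open NumberField IsDedekindDomain Filter Topology
open Pool.Agent.W401.Cheb (GK IsFrob dens ChebK chebK)

section
variable {K : Type} [Field K] [NumberField K]

theorem avg_close {U : Subgroup (GK K)} (hU : IsOpen (U : Set (GK K))) {f g : GK K → ℝ} {δ : ℝ}
    (h : ∀ σ, |f σ - g σ| ≤ δ) : |avg U f - avg U g| ≤ δ := by
  classical
  have h1 : Finite (GK K ⧸ U) := fin_quot hU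
  let _ : Fintype (GK K ⧸ U) := Fintype.ofFinite _
  have hc : (0 : ℝ) < Fintype.card (GK K ⧸ U) := by exact_mod_cast Fintype.card_pos
  rw [avg_eq, avg_eq, ← sub_div, ← Finset.sum_sub_distrib, abs_div, abs_of_pos hc,
    div_le_iff₀ hc]
  refine (Finset.abs_sum_le_sum_abs _ _).trans ((Finset.sum_le_sum fun c _ => h _).trans ?_)
  rw [Finset.sum_const, nsmul_eq_mul, mul_comm, Finset.card_univ]

theorem avg_center {U : Subgroup (GK K)} (hU : IsOpen (U : Set (GK K))) {f : GK K → ℝ}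
    (hf : IsClass U f) (hf1 : ∀ σ, |f σ| ≤ 1) :
    IsClass U (fun σ => f σ - avg U f) ∧ avg U (fun σ => f σ - avg U f) = 0 ∧
      avg U (fun σ => (f σ - avg U f) ^ 2) ≤ 1 := by
  classical
  have h1 : Finite (GK K ⧸ U) := fin_quot hU
  let _ : Fintype (GK K ⧸ U) := Fintype.ofFinite _
  have hc : (0 : ℝ) < Fintype.card (GK K ⧸ U) := by exact_mod_cast Fintype.card_pos
  set m := avg U f with hm
  have hsum : ∑ c : GK K ⧸ U, f c.out = Fintype.card (GK K ⧸ U) * m := by
    rw [hm, avg_eq]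
    field_simp
  refine ⟨⟨fun σ τ => congrArg (· - m) (hf.1 σ τ), fun σ u hu => congrArg (· - m) (hf.2 σ u hu)⟩,
    ?_, ?_⟩
  · rw [avg_eq, Finset.sum_sub_distrib, hsum, Finset.sum_const, nsmul_eq_mul, Finset.card_univ,
      sub_self, zero_div]
  · rw [avg_eq, div_le_one hc]
    have h2 : ∀ c : GK K ⧸ U, (f c.out - m) ^ 2 ≤ 1 + (-2 * m * f c.out + m ^ 2) := by
      intro c
      have h3 : f c.out ^ 2 ≤ 1 := (sq_le_one_iff_abs_le_one _).2 (hf1 _)
      nlinarith
    refine (Finset.sum_le_sum fun c _ => h2 c).trans ?_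
    rw [Finset.sum_add_distrib, Finset.sum_add_distrib, ← Finset.mul_sum, hsum, Finset.sum_const,
      Finset.sum_const, nsmul_eq_mul, nsmul_eq_mul, Finset.card_univ]
    nlinarith [sq_nonneg m]

theorem ind_sq (P : Prop) : ind P ^ 2 = ind P := by
  by_cases h : P
  · rw [ind_pos h, one_pow]
  · rw [ind_neg h]
    norm_num

theorem sum_ind {ν : ℕ} (i : Fin ν) : ∑ c, ind (i = c) = 1 := by
  classical
  have : ∀ c, ind (i = c) = if i = c then 1 else 0 := fun c => by
    by_cases h : i = c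
    · rw [ind_pos h, if_pos h]
    · rw [ind_neg h, if_neg h]
  rw [Finset.sum_congr rfl fun c _ => this c, Finset.sum_ite_eq, if_pos (Finset.mem_univ _)]

theorem sum_ind_mul {ν : ℕ} (i : Fin ν) (r : Fin ν → ℝ) : ∑ c, ind (i = c) * r c = r i := by
  classical
  have : ∀ c, ind (i = c) * r c = if i = c then r c else 0 := fun c => by
    by_cases h : i = c
    · rw [ind_pos h, if_pos h, one_mul]
    · rw [ind_neg h, if_neg h, zero_mul]
  rw [Finset.sum_congr rfl fun c _ => this c, Finset.sum_ite_eq, if_pos (Finset.mem_univ _)]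

theorem mean_sub' (φ ψ : HeightOneSpectrum (𝓞 K) → ℝ) (N : ℕ) :
    mean K (fun v => φ v - ψ v) N = mean K φ N - mean K ψ N := by
  obtain ⟨t, _, _, hmean⟩ := mean_def (F := K) (fun _ => 0) N
  rw [hmean, hmean, hmean, Finset.sum_sub_distrib, sub_div]

/-- the sum of the squares over the cells and over the extensions -/
theorem sum_sq_le {Fr : HeightOneSpectrum (𝓞 K) → GK K} {T : Finset (Subgroup (GK K))} {N : ℕ}
    (hB : JB Fr T 1 N) {ν : ℕ} (i : HeightOneSpectrum (𝓞 K) → Fin ν)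
    (e : Fin ν → Subgroup (GK K) → GK K → ℝ) (he : ∀ c, ∀ U ∈ T, IsClass U (e c U) ∧
      avg U (e c U) = 0 ∧ avg U (fun σ => e c U σ ^ 2) ≤ 1) :
    ∑ U ∈ T, ∑ c, mean K (fun v => ind (i v = c) * e c U (Fr v)) N ^ 2 ≤ 2 := by
  rw [Finset.sum_comm]
  calc ∑ c, ∑ U ∈ T, mean K (fun v => ind (i v = c) * e c U (Fr v)) N ^ 2
      ≤ ∑ c, (1 + 1) * mean K (fun v => ind (i v = c) ^ 2) N :=
        Finset.sum_le_sum fun c _ => hB (e c) (he c) fun v => ind (i v = c)
    _ = mean K (fun v => ∑ c, (1 + 1) * ind (i v = c)) N := by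
        rw [mean_sum]
        refine Finset.sum_congr rfl fun c _ => ?_
        rw [mean_const_mul]
        congr 2
        funext v
        exact ind_sq _
    _ ≤ 2 := by
        refine mean_le_const (by norm_num) (fun v => ?_) N
        rw [← Finset.mul_sum, sum_ind]
        norm_num

open Classical in
/-- **Counting the extensions in which the joint law is not the product law.** -/
theorem count_joint {Fr : HeightOneSpectrum (𝓞 K) → GK K} {T : Finset (Subgroup (GK K))}
    (hT : ∀ U ∈ T, U.Normal ∧ IsOpen (U : Set (GK K))) {N : ℕ} (hB : JB Fr T 1 N) (ν k : ℕ)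
    (hk : 1 ≤ k) (i : HeightOneSpectrum (𝓞 K) → Fin ν) :
    (T.filter fun U => ∃ (r : Fin ν → GK K → ℝ) (A : HeightOneSpectrum (𝓞 K) → GK K → ℝ),
      (∀ c, IsClass U (r c)) ∧ (∀ c σ, |r c σ| ≤ 1) ∧
      (∀ v σ, |A v σ - r (i v) σ| ≤ 1 / (4 * k)) ∧
      1 / (k : ℝ) ≤ |mean K (fun v => A v (Fr v)) N - mean K (fun v => avg U (A v)) N|).card ≤
      8 * ν * k ^ 2 := by
  have hkR : (0 : ℝ) < k := by exact_mod_cast hk
  set P : Subgroup (GK K) → (Fin ν → GK K → ℝ) → Prop := fun U r =>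
    ∃ A : HeightOneSpectrum (𝓞 K) → GK K → ℝ,
      (∀ c, IsClass U (r c)) ∧ (∀ c σ, |r c σ| ≤ 1) ∧
      (∀ v σ, |A v σ - r (i v) σ| ≤ 1 / (4 * k)) ∧
      1 / (k : ℝ) ≤ |mean K (fun v => A v (Fr v)) N - mean K (fun v => avg U (A v)) N| with hP
  set E := T.filter fun U => ∃ r : Fin ν → GK K → ℝ, P U r with hE
  let r : Subgroup (GK K) → Fin ν → GK K → ℝ := fun U =>
    if h : ∃ r : Fin ν → GK K → ℝ, P U r then h.choose else fun _ _ => 0
  have hr : ∀ U ∈ E, P U (r U) := by
    intro U hU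
    have h := (Finset.mem_filter.1 hU).2
    change P U (if h : ∃ r : Fin ν → GK K → ℝ, P U r then h.choose else fun _ _ => 0)
    rw [dif_pos h]
    exact h.choose_spec
  let e : Fin ν → Subgroup (GK K) → GK K → ℝ := fun c U σ => r U c σ - avg U (r U c)
  let y : Fin ν → Subgroup (GK K) → ℝ := fun c U =>
    mean K (fun v => ind (i v = c) * e c U (Fr v)) N
  have h1 : ∀ U ∈ E, 1 / (4 * (k : ℝ) ^ 2) ≤ ν * ∑ c, y c U ^ 2 := by
    intro U hU
    obtain ⟨A, hcl, hr1, hA, hge⟩ := hr U hU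
    have hUo := (hT U (Finset.mem_filter.1 hU).1).2
    have e1 : mean K (fun v => r U (i v) (Fr v)) N - mean K (fun v => avg U (r U (i v))) N =
        ∑ c, y c U := by
      rw [← mean_sub']
      have e2 : (fun v => r U (i v) (Fr v) - avg U (r U (i v))) =
          fun v => ∑ c, ind (i v = c) * e c U (Fr v) := by
        funext v
        rw [sum_ind_mul (i v) fun c => e c U (Fr v)]
      rw [e2, mean_sum]
    have e3 : |mean K (fun v => A v (Fr v)) N - mean K (fun v => r U (i v) (Fr v)) N| ≤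
        1 / (4 * k) := mean_close (fun v => hA v (Fr v)) N
    have e4 : |mean K (fun v => avg U (A v)) N - mean K (fun v => avg U (r U (i v))) N| ≤
        1 / (4 * k) := mean_close (fun v => avg_close hUo (hA v)) N
    have e5 : 1 / (2 * (k : ℝ)) ≤ |∑ c, y c U| := by
      rw [← e1]
      have e6 : (1 : ℝ) / k = 1 / (2 * k) + 1 / (4 * k) + 1 / (4 * k) := by
        field_simp
        norm_num
      have e7 : |mean K (fun v => A v (Fr v)) N - mean K (fun v => avg U (A v)) N| ≤
          |mean K (fun v => r U (i v) (Fr v)) N - mean K (fun v => avg U (r U (i v))) N| +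
          1 / (4 * k) + 1 / (4 * k) := by
        have h1 := abs_le.1 e3
        have h2 := abs_le.1 e4
        have h3 := abs_le.1 (le_refl
          |mean K (fun v => r U (i v) (Fr v)) N - mean K (fun v => avg U (r U (i v))) N|)
        rw [abs_le]
        constructor <;> linarith [h1.1, h1.2, h2.1, h2.2, h3.1, h3.2]
      linarith
    have e6 : (∑ c, y c U) ^ 2 ≤ ν * ∑ c, y c U ^ 2 := by
      have := sq_sum_le_card_mul_sum_sq (s := (Finset.univ : Finset (Fin ν))) (f := fun c => y c U)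
      rwa [Finset.card_univ, Fintype.card_fin] at this
    have e8 : (1 / (2 * (k : ℝ))) ^ 2 ≤ (∑ c, y c U) ^ 2 := by
      rw [← sq_abs (∑ c, y c U)]
      exact pow_le_pow_left₀ (by positivity) e5 2
    have e9 : (1 / (2 * (k : ℝ))) ^ 2 = 1 / (4 * (k : ℝ) ^ 2) := by
      field_simp
      norm_num
    rw [e9] at e8
    exact e8.trans e6
  have h2 : ∑ U ∈ E, ∑ c, y c U ^ 2 ≤ 2 := by
    -- extend by zero outside `E`
    let e' : Fin ν → Subgroup (GK K) → GK K → ℝ := fun c U σ => if U ∈ E then e c U σ else 0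
    have h3 := sum_sq_le hB i e' ?_
    · have hET : E ⊆ T := Finset.filter_subset _ _
      refine le_trans (le_of_eq ?_) ((Finset.sum_le_sum_of_subset_of_nonneg
        hET fun U _ _ => Finset.sum_nonneg fun c _ => sq_nonneg _).trans h3)
      refine Finset.sum_congr rfl fun U hU => Finset.sum_congr rfl fun c _ => ?_
      change mean K (fun v => ind (i v = c) * e c U (Fr v)) N ^ 2 =
        mean K (fun v => ind (i v = c) * (if U ∈ E then e c U (Fr v) else 0)) N ^ 2
      simp only [if_pos hU]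
    · intro c U hU
      by_cases hE' : U ∈ E
      · have h4 : e' c U = fun σ => r U c σ - avg U (r U c) := by
          funext σ
          exact if_pos hE'
        rw [h4]
        obtain ⟨A, hcl, hr1, _⟩ := hr U hE'
        exact avg_center (hT U hU).2 (hcl c) (hr1 c)
      · have h4 : e' c U = fun _ => 0 := by
          funext σ
          exact if_neg hE'
        rw [h4]
        refine ⟨⟨fun _ _ => rfl, fun _ _ _ => rfl⟩, ?_, ?_⟩
        · unfold avg
          simp
        · unfold avg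
          simp
  have h3 : (E.card : ℝ) * (1 / (4 * (k : ℝ) ^ 2)) ≤ ν * 2 := by
    calc (E.card : ℝ) * (1 / (4 * (k : ℝ) ^ 2)) = ∑ U ∈ E, 1 / (4 * (k : ℝ) ^ 2) := by
          rw [Finset.sum_const, nsmul_eq_mul]
      _ ≤ ∑ U ∈ E, ν * ∑ c, y c U ^ 2 := Finset.sum_le_sum h1
      _ = ν * ∑ U ∈ E, ∑ c, y c U ^ 2 := by rw [Finset.mul_sum]
      _ ≤ ν * 2 := mul_le_mul_of_nonneg_left h2 (Nat.cast_nonneg _)
  have h4 : (E.card : ℝ) ≤ ((8 * ν * k ^ 2 : ℕ) : ℝ) := by
    rw [mul_one_div, div_le_iff₀ (by positivity)] at h3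
    push_cast
    linarith
  exact_mod_cast h4

/-- the normalised indicator function of the split primes -/
theorem split_class {U : Subgroup (GK K)} (hn : U.Normal) (hU : IsOpen (U : Set (GK K))) :
    IsClass U (fun σ => Real.sqrt (Nat.card (GK K ⧸ U)) * (ind (σ ∈ U) -
      1 / (Nat.card (GK K ⧸ U) : ℝ))) ∧
    avg U (fun σ => Real.sqrt (Nat.card (GK K ⧸ U)) * (ind (σ ∈ U) -
      1 / (Nat.card (GK K ⧸ U) : ℝ))) = 0 ∧
    avg U (fun σ => (Real.sqrt (Nat.card (GK K ⧸ U)) * (ind (σ ∈ U) -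
      1 / (Nat.card (GK K ⧸ U) : ℝ))) ^ 2) ≤ 1 := by
  classical
  have h1 : Finite (GK K ⧸ U) := fin_quot hU
  let _ : Fintype (GK K ⧸ U) := Fintype.ofFinite _
  set n : ℝ := (Nat.card (GK K ⧸ U) : ℝ) with hn'
  have hn0 : 0 < n := by rw [hn']; exact_mod_cast Nat.card_pos
  have hcl : IsClass U fun σ => ind (σ ∈ U) := by
    constructor
    · intro σ τ
      change ind (τ * σ * τ⁻¹ ∈ U) = ind (σ ∈ U)
      by_cases h : σ ∈ U
      · rw [ind_pos h, ind_pos (hn.conj_mem σ h τ)]
      · have h' : ¬ (τ * σ * τ⁻¹ ∈ U) := by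
          intro h2
          apply h
          have h3 := hn.conj_mem _ h2 τ⁻¹
          have h4 : τ⁻¹ * (τ * σ * τ⁻¹) * τ⁻¹⁻¹ = σ := by group
          rwa [h4] at h3
        rw [ind_neg h, ind_neg h']
    · intro σ u hu
      change ind (σ * u ∈ U) = ind (σ ∈ U)
      by_cases h : σ ∈ U
      · rw [ind_pos h, ind_pos (U.mul_mem h hu)]
      · have h' : ¬ (σ * u ∈ U) := fun h2 => h ((U.mul_mem_cancel_right hu).1 h2)
        rw [ind_neg h, ind_neg h']
  have hsum : ∑ c : GK K ⧸ U, ind (c.out ∈ U) = 1 := by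
    rw [Finset.sum_eq_single (1 : GK K ⧸ U)]
    · refine ind_pos ?_
      have h2 : (((1 : GK K ⧸ U).out : GK K) : GK K ⧸ U) = 1 := QuotientGroup.out_eq' _
      exact (QuotientGroup.eq_one_iff _).1 h2
    · intro c _ hc
      refine ind_neg fun h => hc ?_
      have h2 : ((c.out : GK K) : GK K ⧸ U) = c := QuotientGroup.out_eq' _
      rw [← h2]
      exact (QuotientGroup.eq_one_iff _).2 h
    · intro h
      exact absurd (Finset.mem_univ _) h
  have hcard : (Fintype.card (GK K ⧸ U) : ℝ) = n := by rw [hn', Nat.card_eq_fintype_card]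
  refine ⟨⟨fun σ τ => congrArg (fun x => Real.sqrt n * (x - 1 / n)) (hcl.1 σ τ),
    fun σ u hu => congrArg (fun x => Real.sqrt n * (x - 1 / n)) (hcl.2 σ u hu)⟩, ?_, ?_⟩
  · rw [avg_eq, ← Finset.mul_sum, Finset.sum_sub_distrib, hsum, Finset.sum_const, nsmul_eq_mul,
      Finset.card_univ, hcard, mul_one_div, div_self hn0.ne', sub_self, mul_zero, zero_div]
  · rw [avg_eq, hcard, div_le_one hn0]
    have h2 : ∀ c : GK K ⧸ U, (Real.sqrt n * (ind (c.out ∈ U) - 1 / n)) ^ 2 =
        n * (ind (c.out ∈ U) * (1 - 2 / n) + 1 / n ^ 2) := by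
      intro c
      rw [mul_pow, Real.sq_sqrt hn0.le]
      congr 1
      have h3 := ind_sq (c.out ∈ U)
      have h4 : (ind (c.out ∈ U) - 1 / n) ^ 2 = ind (c.out ∈ U) ^ 2 - 2 / n * ind (c.out ∈ U) +
          1 / n ^ 2 := by
        field_simp
        ring
      rw [h4, h3]
      ring
    rw [Finset.sum_congr rfl fun c _ => h2 c, ← Finset.mul_sum, Finset.sum_add_distrib,
      ← Finset.sum_mul, hsum, Finset.sum_const, nsmul_eq_mul, Finset.card_univ, hcard]
    have h5 : n * (1 * (1 - 2 / n) + n * (1 / n ^ 2)) = n - 1 := by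
      field_simp
      ring
    rw [h5]
    linarith

open Classical in
/-- **Counting the extensions in which the law of the split primes is different.** -/
theorem count_split {Fr : HeightOneSpectrum (𝓞 K) → GK K} {T : Finset (Subgroup (GK K))}
    (hT : ∀ U ∈ T, U.Normal ∧ IsOpen (U : Set (GK K))) {N : ℕ} (hB : JB Fr T 1 N)
    (hS : ∀ U ∈ T, (Nat.card (GK K ⧸ U) : ℝ) * mean K (fun v => ind (Fr v ∈ U)) N ≤ 2)
    (ν k : ℕ) (hk : 1 ≤ k) (i : HeightOneSpectrum (𝓞 K) → Fin ν) :
    ∑ U ∈ T.filter fun U => ∃ (r : Fin ν → ℝ) (A : HeightOneSpectrum (𝓞 K) → ℝ),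
      (∀ c, |r c| ≤ 1) ∧ (∀ v, |A v - r (i v)| ≤ 1 / (4 * k)) ∧
      1 / (k : ℝ) ≤ |(Nat.card (GK K ⧸ U) : ℝ) * mean K (fun v => A v * ind (Fr v ∈ U)) N -
        mean K A N|, 1 / (Nat.card (GK K ⧸ U) : ℝ) ≤ 32 * ν * k ^ 2 := by
  have hkR : (0 : ℝ) < k := by exact_mod_cast hk
  set E := T.filter fun U => ∃ (r : Fin ν → ℝ) (A : HeightOneSpectrum (𝓞 K) → ℝ),
      (∀ c, |r c| ≤ 1) ∧ (∀ v, |A v - r (i v)| ≤ 1 / (4 * k)) ∧
      1 / (k : ℝ) ≤ |(Nat.card (GK K ⧸ U) : ℝ) * mean K (fun v => A v * ind (Fr v ∈ U)) N -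
        mean K A N| with hE
  let n : Subgroup (GK K) → ℝ := fun U => (Nat.card (GK K ⧸ U) : ℝ)
  let e : Fin ν → Subgroup (GK K) → GK K → ℝ := fun _ U σ =>
    Real.sqrt (n U) * (ind (σ ∈ U) - 1 / n U)
  let y : Fin ν → Subgroup (GK K) → ℝ := fun c U =>
    mean K (fun v => ind (i v = c) * e c U (Fr v)) N
  have h1 : ∀ U ∈ E, 1 / n U ≤ 16 * k ^ 2 * (ν * ∑ c, y c U ^ 2) := by
    intro U hU
    obtain ⟨hUT, r, A, hr1, hA, hge⟩ := Finset.mem_filter.1 hU
    have hfin : Finite (GK K ⧸ U) := fin_quot (hT U hUT).2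
    have hn0 : 0 < n U := by
      change (0 : ℝ) < (Nat.card (GK K ⧸ U) : ℝ)
      exact_mod_cast Nat.card_pos
    have hs0 : 0 < Real.sqrt (n U) := Real.sqrt_pos.2 hn0
    have hss : Real.sqrt (n U) * Real.sqrt (n U) = n U := Real.mul_self_sqrt hn0.le
    have e1 : n U * mean K (fun v => r (i v) * ind (Fr v ∈ U)) N - mean K (fun v => r (i v)) N =
        Real.sqrt (n U) * ∑ c, r c * y c U := by
      have e2 : ∑ c, r c * y c U = mean K (fun v => r (i v) * e (i v) U (Fr v)) N := by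
        have e3 : (fun v => r (i v) * e (i v) U (Fr v)) =
            fun v => ∑ c, r c * (ind (i v = c) * e c U (Fr v)) := by
          funext v
          rw [← sum_ind_mul (i v) fun c => r c * e c U (Fr v)]
          exact Finset.sum_congr rfl fun c _ => by ring
        rw [e3, mean_sum]
        exact Finset.sum_congr rfl fun c _ => (mean_const_mul _ _ _).symm
      rw [e2, ← mean_const_mul, ← mean_const_mul, ← mean_sub']
      congr 1
      funext v
      change n U * (r (i v) * ind (Fr v ∈ U)) - r (i v) =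
        Real.sqrt (n U) * (r (i v) * (Real.sqrt (n U) * (ind (Fr v ∈ U) - 1 / n U)))
      have e4 : Real.sqrt (n U) * (r (i v) * (Real.sqrt (n U) * (ind (Fr v ∈ U) - 1 / n U))) =
          (Real.sqrt (n U) * Real.sqrt (n U)) * (r (i v) * (ind (Fr v ∈ U) - 1 / n U)) := by ring
      rw [e4, hss]
      field_simp
    have e3 : |mean K A N - mean K (fun v => r (i v)) N| ≤ 1 / (4 * k) := mean_close hA N
    have e4 : |n U * mean K (fun v => A v * ind (Fr v ∈ U)) N -
        n U * mean K (fun v => r (i v) * ind (Fr v ∈ U)) N| ≤ 2 * (1 / (4 * k)) := by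
      rw [← mul_sub, ← mean_sub', abs_mul, abs_of_pos hn0]
      have e5 : |mean K (fun v => A v * ind (Fr v ∈ U) - r (i v) * ind (Fr v ∈ U)) N| ≤
          mean K (fun v => 1 / (4 * k) * ind (Fr v ∈ U)) N := by
        rw [abs_le]
        have e6 : ∀ v, |A v * ind (Fr v ∈ U) - r (i v) * ind (Fr v ∈ U)| ≤
            1 / (4 * k) * ind (Fr v ∈ U) := by
          intro v
          rw [← sub_mul, abs_mul, abs_of_nonneg (ind_nonneg _)]
          exact mul_le_mul_of_nonneg_right (hA v) (ind_nonneg _)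
        constructor
        · have e7 : -mean K (fun v => 1 / (4 * k) * ind (Fr v ∈ U)) N =
              mean K (fun v => (-1) * (1 / (4 * k) * ind (Fr v ∈ U))) N := by
            rw [mean_const_mul (-1)]
            ring
          rw [e7]
          refine mean_mono (fun v => ?_) N
          have := (abs_le.1 (e6 v)).1
          linarith
        · exact mean_mono (fun v => (abs_le.1 (e6 v)).2) N
      rw [mean_const_mul] at e5
      calc n U * |mean K (fun v => A v * ind (Fr v ∈ U) - r (i v) * ind (Fr v ∈ U)) N|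
          ≤ n U * (1 / (4 * k) * mean K (fun v => ind (Fr v ∈ U)) N) :=
            mul_le_mul_of_nonneg_left e5 hn0.le
        _ = (1 / (4 * k)) * (n U * mean K (fun v => ind (Fr v ∈ U)) N) := by ring
        _ ≤ (1 / (4 * k)) * 2 := mul_le_mul_of_nonneg_left (hS U hUT) (by positivity)
        _ = _ := by ring
    have e5 : 1 / (4 * (k : ℝ)) ≤ Real.sqrt (n U) * |∑ c, r c * y c U| := by
      have e6 : Real.sqrt (n U) * |∑ c, r c * y c U| = |Real.sqrt (n U) * ∑ c, r c * y c U| := by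
        rw [abs_mul, abs_of_pos hs0]
      rw [e6, ← e1]
      have e7 : (1 : ℝ) / k = 1 / (4 * k) + 2 * (1 / (4 * k)) + 1 / (4 * k) := by
        field_simp
        norm_num
      have e8 : |n U * mean K (fun v => A v * ind (Fr v ∈ U)) N - mean K A N| ≤
          |n U * mean K (fun v => r (i v) * ind (Fr v ∈ U)) N - mean K (fun v => r (i v)) N| +
          2 * (1 / (4 * k)) + 1 / (4 * k) := by
        have h1 := abs_le.1 e3
        have h2 := abs_le.1 e4
        have h3 := abs_le.1 (le_refl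
          |n U * mean K (fun v => r (i v) * ind (Fr v ∈ U)) N - mean K (fun v => r (i v)) N|)
        rw [abs_le]
        constructor <;> linarith [h1.1, h1.2, h2.1, h2.2, h3.1, h3.2]
      have e9 : 1 / (k : ℝ) ≤ |n U * mean K (fun v => A v * ind (Fr v ∈ U)) N - mean K A N| := hge
      linarith
    have e6 : (∑ c, r c * y c U) ^ 2 ≤ ν * ∑ c, y c U ^ 2 := by
      refine (Finset.sum_mul_sq_le_sq_mul_sq _ _ _).trans ?_
      refine mul_le_mul_of_nonneg_right ?_ (Finset.sum_nonneg fun c _ => sq_nonneg _)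
      refine (Finset.sum_le_sum fun c _ => (sq_le_one_iff_abs_le_one _).2 (hr1 c)).trans ?_
      simp
    have e7 : (1 / (4 * (k : ℝ))) ^ 2 ≤ n U * (∑ c, r c * y c U) ^ 2 := by
      have := pow_le_pow_left₀ (by positivity) e5 2
      rw [mul_pow, sq_abs, Real.sq_sqrt hn0.le] at this
      exact this
    have e8 : 1 / (16 * (k : ℝ) ^ 2) ≤ n U * (ν * ∑ c, y c U ^ 2) := by
      refine le_trans (le_of_eq ?_) (e7.trans (mul_le_mul_of_nonneg_left e6 hn0.le))
      field_simp
      norm_num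
    rw [div_le_iff₀ (by positivity)] at e8
    rw [div_le_iff₀ hn0]
    linarith
  have h2 : ∑ U ∈ E, ∑ c, y c U ^ 2 ≤ 2 := by
    refine (Finset.sum_le_sum_of_subset_of_nonneg (Finset.filter_subset _ _)
      fun U _ _ => Finset.sum_nonneg fun c _ => sq_nonneg _).trans (sum_sq_le hB i e ?_)
    intro c U hU
    exact split_class (hT U hU).1 (hT U hU).2
  calc ∑ U ∈ E, 1 / (Nat.card (GK K ⧸ U) : ℝ) ≤ ∑ U ∈ E, 16 * k ^ 2 * (ν * ∑ c, y c U ^ 2) :=
        Finset.sum_le_sum h1
    _ = 16 * k ^ 2 * ν * ∑ U ∈ E, ∑ c, y c U ^ 2 := by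
        rw [Finset.mul_sum]
        exact Finset.sum_congr rfl fun U _ => by ring
    _ ≤ 16 * k ^ 2 * ν * 2 := mul_le_mul_of_nonneg_left h2 (by positivity)
    _ = 32 * ν * k ^ 2 := by ring

/-- the split primes have the right proportion at all large scales -/
theorem split_le_two {Fr : HeightOneSpectrum (𝓞 K) → GK K} (hFr : ∀ v, IsFrob v (Fr v))
    (T : Finset (Subgroup (GK K))) (hT : ∀ U ∈ T, U.Normal ∧ IsOpen (U : Set (GK K))) :
    ∀ᶠ N : ℕ in atTop, ∀ U ∈ T,
      (Nat.card (GK K ⧸ U) : ℝ) * mean K (fun v => ind (Fr v ∈ U)) N ≤ 2 := by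
  classical
  rw [Filter.eventually_all_finset]
  intro U hU
  obtain ⟨hn, ho⟩ := hT U hU
  have hfin : Finite (GK K ⧸ U) := fin_quot ho
  have h1 := mean_set ho hFr (U : Set (GK K)) (fun σ hσ τ => hn.conj_mem σ hσ τ)
    (fun σ hσ u hu => U.mul_mem hσ hu)
  have h2 : (QuotientGroup.mk : GK K → GK K ⧸ U) '' (U : Set (GK K)) = {1} := by
    ext q
    constructor
    · rintro ⟨σ, hσ, rfl⟩
      exact (QuotientGroup.eq_one_iff σ).2 hσ
    · intro hq
      rw [Set.mem_singleton_iff] at hq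
      exact ⟨1, U.one_mem, by rw [hq]; rfl⟩
  rw [h2, Set.ncard_singleton] at h1
  have h3 := h1.const_mul (Nat.card (GK K ⧸ U) : ℝ)
  have h4 : (Nat.card (GK K ⧸ U) : ℝ) * (((1 : ℕ) : ℝ) / (Nat.card (GK K ⧸ U) : ℝ)) = 1 := by
    have : (Nat.card (GK K ⧸ U) : ℝ) ≠ 0 := by exact_mod_cast Nat.card_pos.ne'
    field_simp
    norm_num
  rw [h4] at h3
  exact h3.eventually_le_const (by norm_num)

end

end Pool.Agent.W529.ST
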