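import Pool.Agent.W529.ST.Ort3

/-! Joint laws with Frobenius elements: metric spaces. -/

set_option autoImplicit false

namespace Pool.Agent.W529.ST

open NumberField IsDedekindDomain Filter Topology
open Pool.Agent.W401.Cheb (GK IsFrob dens ChebK chebK)

section
variable {K : Type} [Field K] [NumberField K] {X : Type} [MetricSpace X]

/-- test functions on the product of `X` and the set of conjugacy classes of `Gal(K̄/K) / U` -/
def TestU (U : Subgroup (GK K)) (Φ : X → GK K → ℝ) : Prop :=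
  (∀ σ, Test fun y => Φ y σ) ∧ ∀ y, IsClass U (Φ y)

/-- the joint law of `x v` and of the Frobenius class at `v` in `Gal(K̄/K) / U` differs at the
scale `N` by at least `1/k` from the product law -/
def JointExc (Fr : HeightOneSpectrum (𝓞 K) → GK K) (x : HeightOneSpectrum (𝓞 K) → X) (k N : ℕ)
    (U : Subgroup (GK K)) : Prop :=
  ∃ Φ : X → GK K → ℝ, TestU U Φ ∧
    1 / (k : ℝ) ≤ |mean K (fun v => Φ (x v) (Fr v)) N - mean K (fun v => avg U (Φ (x v))) N|

/-- the law of `x v` for the primes that split completely in the fixed field of `U` differs at the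
scale `N` by at least `1/k` from the law for all primes -/
def SplitExc (Fr : HeightOneSpectrum (𝓞 K) → GK K) (x : HeightOneSpectrum (𝓞 K) → X) (k N : ℕ)
    (U : Subgroup (GK K)) : Prop :=
  ∃ φ : X → ℝ, Test φ ∧
    1 / (k : ℝ) ≤ |(Nat.card (GK K ⧸ U) : ℝ) * mean K (fun v => φ (x v) * ind (Fr v ∈ U)) N -
      mean K (fun v => φ (x v)) N|

/-- the joint law differs by at least `1/k` from the product of `I` and the uniform law -/
def JointDev (Fr : HeightOneSpectrum (𝓞 K) → GK K) (x : HeightOneSpectrum (𝓞 K) → X)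
    (I : (X → ℝ) → ℝ) (k N : ℕ) (U : Subgroup (GK K)) : Prop :=
  ∃ Φ : X → GK K → ℝ, TestU U Φ ∧
    1 / (k : ℝ) ≤ |mean K (fun v => Φ (x v) (Fr v)) N - I fun y => avg U (Φ y)|

/-- the law for the split primes differs by at least `1/k` from `I` -/
def SplitDev (Fr : HeightOneSpectrum (𝓞 K) → GK K) (x : HeightOneSpectrum (𝓞 K) → X)
    (I : (X → ℝ) → ℝ) (k N : ℕ) (U : Subgroup (GK K)) : Prop :=
  ∃ φ : X → ℝ, Test φ ∧
    1 / (k : ℝ) ≤ |(Nat.card (GK K ⧸ U) : ℝ) * mean K (fun v => φ (x v) * ind (Fr v ∈ U)) N - I φ|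

open Classical in
theorem joint_metric {Fr : HeightOneSpectrum (𝓞 K) → GK K} {T : Finset (Subgroup (GK K))}
    (hT : ∀ U ∈ T, U.Normal ∧ IsOpen (U : Set (GK K))) {N : ℕ} (hB : JB Fr T 1 N) (ν k : ℕ)
    (hk : 1 ≤ k) (κ : X → Fin ν) (cen : Fin ν → X) (x : HeightOneSpectrum (𝓞 K) → X)
    (hx : ∀ v, dist (x v) (cen (κ (x v))) ≤ 1 / (4 * k)) :
    (T.filter (JointExc Fr x k N)).card ≤ 8 * ν * k ^ 2 := by
  refine (Finset.card_le_card ?_).trans (count_joint hT hB ν k hk fun v => κ (x v))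
  intro U hU
  obtain ⟨hUT, Φ, hΦ, hge⟩ := Finset.mem_filter.1 hU
  refine Finset.mem_filter.2 ⟨hUT, fun c => Φ (cen c), fun v => Φ (x v), fun c => hΦ.2 _,
    fun c σ => (hΦ.1 σ).2 _, fun v σ => ?_, hge⟩
  have h1 := (hΦ.1 σ).1.dist_le_mul (x v) (cen (κ (x v)))
  rw [NNReal.coe_one, one_mul, Real.dist_eq] at h1
  exact h1.trans (hx v)

open Classical in
theorem split_metric {Fr : HeightOneSpectrum (𝓞 K) → GK K} {T : Finset (Subgroup (GK K))}
    (hT : ∀ U ∈ T, U.Normal ∧ IsOpen (U : Set (GK K))) {N : ℕ} (hB : JB Fr T 1 N)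
    (hS : ∀ U ∈ T, (Nat.card (GK K ⧸ U) : ℝ) * mean K (fun v => ind (Fr v ∈ U)) N ≤ 2) (ν k : ℕ)
    (hk : 1 ≤ k) (κ : X → Fin ν) (cen : Fin ν → X) (x : HeightOneSpectrum (𝓞 K) → X)
    (hx : ∀ v, dist (x v) (cen (κ (x v))) ≤ 1 / (4 * k)) :
    ∑ U ∈ T.filter (SplitExc Fr x k N), 1 / (Nat.card (GK K ⧸ U) : ℝ) ≤ 32 * ν * k ^ 2 := by
  refine (Finset.sum_le_sum_of_subset_of_nonneg ?_ fun U _ _ => by positivity).trans
    (count_split hT hB hS ν k hk fun v => κ (x v))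
  intro U hU
  obtain ⟨hUT, φ, hφ, hge⟩ := Finset.mem_filter.1 hU
  refine Finset.mem_filter.2 ⟨hUT, fun c => φ (cen c), fun v => φ (x v), fun c => hφ.2 _,
    fun v => ?_, hge⟩
  have h1 := hφ.1.dist_le_mul (x v) (cen (κ (x v)))
  rw [NNReal.coe_one, one_mul, Real.dist_eq] at h1
  exact h1.trans (hx v)

/-- the mean of a test function over the group is a test function -/
theorem test_avg {U : Subgroup (GK K)} (hU : IsOpen (U : Set (GK K))) {Φ : X → GK K → ℝ}
    (hΦ : TestU U Φ) : Test fun y => avg U (Φ y) := by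
  constructor
  · refine LipschitzWith.of_dist_le_mul fun y z => ?_
    rw [NNReal.coe_one, one_mul, Real.dist_eq]
    refine avg_close hU fun σ => ?_
    have h1 := (hΦ.1 σ).1.dist_le_mul y z
    rwa [NNReal.coe_one, one_mul, Real.dist_eq] at h1
  · intro y
    have h1 := avg_close (U := U) (f := Φ y) (g := fun _ => 0) (δ := 1) hU fun σ => by
      rw [sub_zero]
      exact (hΦ.1 σ).2 y
    have h2 : avg U (fun _ => (0 : ℝ)) = 0 := by
      unfold avg
      simp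
    rwa [h2, sub_zero] at h1

theorem jointDev_exc {Fr : HeightOneSpectrum (𝓞 K) → GK K} {x : HeightOneSpectrum (𝓞 K) → X}
    {I : (X → ℝ) → ℝ} {k N : ℕ} (hk : 1 ≤ k) {U : Subgroup (GK K)}
    (hU : IsOpen (U : Set (GK K)))
    (hI : ∀ φ : X → ℝ, Test φ → |mean K (fun v => φ (x v)) N - I φ| ≤ 1 / (2 * k))
    (h : JointDev Fr x I k N U) : JointExc Fr x (2 * k) N U := by
  have hkR : (0 : ℝ) < k := by exact_mod_cast hk
  obtain ⟨Φ, hΦ, hge⟩ := h
  refine ⟨Φ, hΦ, ?_⟩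
  have h1 := hI _ (test_avg hU hΦ)
  have h2 : (1 : ℝ) / k = 1 / (2 * k) + 1 / (2 * k) := by
    field_simp
    norm_num
  have h3 := abs_sub_le (mean K (fun v => Φ (x v) (Fr v)) N)
    (mean K (fun v => avg U (Φ (x v))) N) (I fun y => avg U (Φ y))
  push_cast
  linarith

theorem splitDev_exc {Fr : HeightOneSpectrum (𝓞 K) → GK K} {x : HeightOneSpectrum (𝓞 K) → X}
    {I : (X → ℝ) → ℝ} {k N : ℕ} (hk : 1 ≤ k) {U : Subgroup (GK K)}
    (hI : ∀ φ : X → ℝ, Test φ → |mean K (fun v => φ (x v)) N - I φ| ≤ 1 / (2 * k))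
    (h : SplitDev Fr x I k N U) : SplitExc Fr x (2 * k) N U := by
  have hkR : (0 : ℝ) < k := by exact_mod_cast hk
  obtain ⟨φ, hφ, hge⟩ := h
  refine ⟨φ, hφ, ?_⟩
  have h1 := hI φ hφ
  have h2 : (1 : ℝ) / k = 1 / (2 * k) + 1 / (2 * k) := by
    field_simp
    norm_num
  have h3 := abs_sub_le ((Nat.card (GK K ⧸ U) : ℝ) * mean K (fun v => φ (x v) * ind (Fr v ∈ U)) N)
    (mean K (fun v => φ (x v)) N) (I φ)
  push_cast
  linarith

/-- cells of a compact space -/
theorem exists_cells_compact (X : Type) [MetricSpace X] [CompactSpace X] (k : ℕ) (hk : 1 ≤ k) :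
    ∃ (ν : ℕ) (κ : X → Fin ν) (cen : Fin ν → X), ∀ y, dist y (cen (κ y)) ≤ 1 / (4 * k) := by
  classical
  have hkR : (0 : ℝ) < k := by exact_mod_cast hk
  obtain ⟨t, -, htf, ht⟩ := (isCompact_univ (X := X)).finite_cover_balls
    (e := 1 / (4 * (k : ℝ))) (by positivity)
  obtain ⟨n, ⟨e⟩⟩ := (Set.finite_coe_iff.2 htf : Finite t).exists_equiv_fin
  have h1 : ∀ y : X, ∃ c : Fin n, dist y (e.symm c : X) ≤ 1 / (4 * k) := by
    intro y
    have := ht (Set.mem_univ y)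
    rw [Set.mem_iUnion₂] at this
    obtain ⟨z, hz, hyz⟩ := this
    refine ⟨e ⟨z, hz⟩, ?_⟩
    rw [Equiv.symm_apply_apply]
    exact (Metric.mem_ball.1 hyz).le
  choose κ hκ using h1
  exact ⟨n, κ, fun c => e.symm c, hκ⟩

/-- cells of a box, with centres -/
theorem exists_cells_box (g R k : ℕ) (hk : 1 ≤ k) :
    ∃ (κ : (Fin g → ℝ) → Fin ((4 * R * k + 1) ^ g)) (cen : Fin ((4 * R * k + 1) ^ g) → Fin g → ℝ),
      ∀ y : Fin g → ℝ, (∀ m, |y m| ≤ R) → dist y (cen (κ y)) ≤ 1 / (4 * k) := by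
  have hkR : (0 : ℝ) < k := by exact_mod_cast hk
  let e : (Fin g → Fin (4 * R * k + 1)) ≃ Fin ((4 * R * k + 1) ^ g) := finFunctionFinEquiv
  refine ⟨fun y => e fun m => cell1 R k (y m), fun c m => cen1 R k (e.symm c m), fun y hy => ?_⟩
  simp only [e.symm_apply_apply]
  rw [dist_pi_le_iff (by positivity)]
  intro m
  rw [Real.dist_eq]
  exact cell1_spec R k hk (hy m)

/-- pointwise convergence of the means is uniform over the test functions, compact spaces -/
theorem unif_conv_compact [CompactSpace X] {x : HeightOneSpectrum (𝓞 K) → X} (I : (X → ℝ) → ℝ)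
    (hI : ∀ Φ, Test Φ → Tendsto (mean K fun v => Φ (x v)) atTop (𝓝 (I Φ))) {ε : ℝ} (hε : 0 < ε) :
    ∀ᶠ N : ℕ in atTop, ∀ Φ, Test Φ → |mean K (fun v => Φ (x v)) N - I Φ| ≤ ε := by
  obtain ⟨s, h, hh, hnet⟩ := exists_net X (ε := ε / 4) (by positivity)
  have hlim : ∀ᶠ N : ℕ in atTop, ∀ i, |mean K (fun v => h i (x v)) N - I (h i)| ≤ ε / 4 := by
    rw [eventually_all]
    intro i
    have h1 : Tendsto (fun N => |mean K (fun v => h i (x v)) N - I (h i)|) atTop (𝓝 0) := by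
      have := ((hI (h i) (hh i)).sub_const (I (h i))).abs
      rwa [sub_self, abs_zero] at this
    exact h1.eventually_le_const (by positivity)
  have hIclose : ∀ Φ i, Test Φ → (∀ y, |Φ y - h i y| ≤ ε / 4) → |I Φ - I (h i)| ≤ ε / 4 := by
    intro Φ i hΦ hc
    have h1 : Tendsto (fun N => |mean K (fun v => Φ (x v)) N - mean K (fun v => h i (x v)) N|) atTop
        (𝓝 |I Φ - I (h i)|) := ((hI Φ hΦ).sub (hI (h i) (hh i))).abs
    exact le_of_tendsto h1 (Eventually.of_forall fun N => mean_close (fun v => hc _) N)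
  filter_upwards [hlim] with N hN Φ hΦ
  obtain ⟨i, hi⟩ := hnet Φ hΦ
  have h1 : |mean K (fun v => Φ (x v)) N - mean K (fun v => h i (x v)) N| ≤ ε / 4 :=
    mean_close (fun v => hi _) N
  have h2 := hN i
  have h3 := hIclose Φ i hΦ hi
  rw [abs_le] at h1 h2 h3 ⊢
  constructor <;> linarith [h1.1, h1.2, h2.1, h2.2, h3.1, h3.2]

end

end Pool.Agent.W529.ST
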