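import Pool.Agent.W529.ST.Stab

/-! Means over the prime ideals, ordered by the norm, and means over the homomorphisms to prime
fields. -/

set_option autoImplicit false

namespace Pool.Agent.W529.ST

open Filter Topology NumberField IsDedekindDomain Pool.Agent.H341R2 Pool.Agent.W353.TP
open Pool.Agent.H921R2.TatePole (nm two_le_nm R hc R_eq_hc R_le kerPrime hom_finite below deg nm_eq
  below_le_nm fiber_finite fiber_card_le)

/-- `√N / π(N) → 0` -/
theorem sqrt_div_pc : Tendsto (fun N : ℕ => Real.sqrt N / (Nat.primeCounting N : ℝ)) atTop (𝓝 0) := by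
  have h1 : Tendsto (fun N : ℕ => 4 * (Real.log (N : ℝ) / Real.sqrt (N : ℝ))) atTop (𝓝 0) := by
    have e1 : Tendsto (fun x : ℝ => Real.log x / x ^ (1 / 2 : ℝ)) atTop (𝓝 0) :=
      (isLittleO_log_rpow_atTop (by norm_num)).tendsto_div_nhds_zero
    have e2 := (e1.comp (tendsto_natCast_atTop_atTop (R := ℝ))).const_mul 4
    rw [mul_zero] at e2
    refine e2.congr fun N => ?_
    simp only [Function.comp_apply]
    rw [Real.sqrt_eq_rpow]
  have h2 : ∀ᶠ N : ℕ in atTop, Real.log ((N : ℝ) + 1) ≤ N / 4 := by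
    have e1 : Tendsto (fun x : ℝ => Real.log x / x ^ (1 : ℝ)) atTop (𝓝 0) :=
      (isLittleO_log_rpow_atTop (by norm_num)).tendsto_div_nhds_zero
    have e2 := e1.comp ((tendsto_natCast_atTop_atTop (R := ℝ)).atTop_add (tendsto_const_nhds (x := (1 : ℝ))))
    filter_upwards [e2.eventually (gt_mem_nhds (show (0 : ℝ) < 1 / 8 by norm_num)),
      eventually_ge_atTop 1] with N hN hN1
    simp only [Function.comp_apply, Real.rpow_one] at hN
    have hp : (0 : ℝ) < (N : ℝ) + 1 := by positivity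
    rw [div_lt_iff₀ hp] at hN
    have : (1 : ℝ) ≤ N := by exact_mod_cast hN1
    linarith
  refine squeeze_zero' (Eventually.of_forall fun N => by positivity) ?_ h1
  filter_upwards [h2, eventually_ge_atTop 2] with N h3 h4
  have h5 := Chebyshev.pi_ge N
  have hN : (2 : ℝ) ≤ N := by exact_mod_cast h4
  have hlog : 0 < Real.log N := Real.log_pos (by linarith)
  have hs : 0 < Real.sqrt N := Real.sqrt_pos.2 (by linarith)
  have hl2 : (1 / 2 : ℝ) < Real.log 2 := by
    have := Real.log_two_gt_d9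
    linarith
  have h6 : (N : ℝ) / 4 ≤ N * Real.log 2 - Real.log (N + 1) := by nlinarith
  have h7 : (N : ℝ) / (4 * Real.log N) ≤ (Nat.primeCounting N : ℝ) := by
    refine le_trans ?_ h5
    rw [div_le_div_iff₀ (by positivity) hlog]
    nlinarith
  have hpc : (0 : ℝ) < (Nat.primeCounting N : ℝ) := lt_of_lt_of_le (by positivity) h7
  rw [div_le_iff₀ hpc]
  have e8 : 4 * (Real.log N / Real.sqrt N) * (N / (4 * Real.log N)) = Real.sqrt N := by
    have : (N : ℝ) = Real.sqrt N * Real.sqrt N := (Real.mul_self_sqrt (by linarith)).symm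
    field_simp
    nlinarith
  calc Real.sqrt N = 4 * (Real.log N / Real.sqrt N) * (N / (4 * Real.log N)) := e8.symm
    _ ≤ _ := mul_le_mul_of_nonneg_left h7 (by positivity)

section
variable (F : Type) [Field F] [NumberField F]

/-- mean over the prime ideals of norm at most `N` -/
noncomputable def mean (φ : HeightOneSpectrum (𝓞 F) → ℝ) (N : ℕ) : ℝ :=
  (∑ᶠ v : {v : HeightOneSpectrum (𝓞 F) // Ideal.absNorm v.asIdeal ≤ N}, φ v.1) /
    (Nat.card {v : HeightOneSpectrum (𝓞 F) // Ideal.absNorm v.asIdeal ≤ N} : ℝ)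

variable {F}

open Classical in
theorem finsum_eq (φ : HeightOneSpectrum (𝓞 F) → ℝ) (N : ℕ) :
    Finite {v : HeightOneSpectrum (𝓞 F) // Ideal.absNorm v.asIdeal ≤ N} ∧
    ∑ᶠ v : {v : HeightOneSpectrum (𝓞 F) // Ideal.absNorm v.asIdeal ≤ N}, φ v.1 =
      ∑ p ∈ PR N, ∑ v : {v : HeightOneSpectrum (𝓞 F) // below v = p},
        if nm v.1 ≤ N then φ v.1 else 0 := by
  set s : Finset (Σ p : Nat.Primes, {v : HeightOneSpectrum (𝓞 F) // below v = p}) :=
    ((PR N).sigma fun p => (Finset.univ : Finset {v : HeightOneSpectrum (𝓞 F) // below v = p})).filter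
      (fun x => nm x.2.1 ≤ N) with hs
  let e : {v : HeightOneSpectrum (𝓞 F) // Ideal.absNorm v.asIdeal ≤ N} ≃ s :=
    { toFun := fun v => ⟨⟨below v.1, v.1, rfl⟩, by
        rw [hs, Finset.mem_filter, Finset.mem_sigma]
        exact ⟨⟨mem_PR.2 ((below_le_nm v.1).trans v.2), Finset.mem_univ _⟩, v.2⟩⟩
      invFun := fun x => ⟨x.1.2.1, (Finset.mem_filter.1 x.2).2⟩
      left_inv := fun v => rfl
      right_inv := fun x => by
        rcases x with ⟨⟨p, v, rfl⟩, hx⟩
        rfl }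
  have hfin : Finite {v : HeightOneSpectrum (𝓞 F) // Ideal.absNorm v.asIdeal ≤ N} :=
    Finite.of_equiv _ e.symm
  refine ⟨hfin, ?_⟩
  let _ := Fintype.ofFinite {v : HeightOneSpectrum (𝓞 F) // Ideal.absNorm v.asIdeal ≤ N}
  have e1 : ∑ v : {v : HeightOneSpectrum (𝓞 F) // Ideal.absNorm v.asIdeal ≤ N}, φ v.1 =
      ∑ x : s, φ x.1.2.1 := Fintype.sum_equiv e _ _ fun v => rfl
  rw [finsum_eq_sum_of_fintype, e1,
    Finset.sum_coe_sort s (fun x => φ x.2.1), hs, Finset.sum_filter, Finset.sum_sigma]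

open Classical in
/-- the contribution of the primes of degree at least two -/
theorem sum_low (φ : HeightOneSpectrum (𝓞 F) → ℝ) {B : ℝ} (hφ : ∀ v, |φ v| ≤ B) (N : ℕ) :
    |(∑ᶠ v : {v : HeightOneSpectrum (𝓞 F) // Ideal.absNorm v.asIdeal ≤ N}, φ v.1) -
      ∑ p ∈ PR N, ∑ ψ : 𝓞 F →+* ZMod (p : ℕ), φ (kerPrime p ψ).1.1| ≤
      Module.finrank ℚ F * B * (Real.sqrt N + 1) := by
  have hB : 0 ≤ B := by
    obtain ⟨v⟩ := (sysK F).nonempty
    exact (abs_nonneg _).trans (hφ v)
  rw [(finsum_eq φ N).2, ← Finset.sum_sub_distrib]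
  have h1 : ∀ p ∈ PR N, |(∑ v : {v : HeightOneSpectrum (𝓞 F) // below v = p},
      if nm v.1 ≤ N then φ v.1 else 0) - ∑ ψ : 𝓞 F →+* ZMod (p : ℕ), φ (kerPrime p ψ).1.1| ≤
      if (p : ℕ) ^ 2 ≤ N then Module.finrank ℚ F * B else 0 := by
    intro p hp
    have hpN := mem_PR.1 hp
    rw [← low_kerPrime]
    unfold low
    rw [← Finset.sum_sub_distrib]
    have e1 : ∀ v : {v : HeightOneSpectrum (𝓞 F) // below v = p},
        |(if nm v.1 ≤ N then φ v.1 else 0) - (if deg v.1 = 1 then φ v.1 else 0)| ≤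
          if (p : ℕ) ^ 2 ≤ N then B else 0 := by
      rintro ⟨v, rfl⟩
      obtain ⟨h2, h3, _⟩ := nm_eq v
      by_cases h4 : deg v = 1
      · have h5 : nm v ≤ N := by rw [h2, h4, pow_one]; exact hpN
        rw [if_pos h5, if_pos h4, sub_self, abs_zero]
        split_ifs
        · exact hB
        · exact le_rfl
      · rw [if_neg h4, sub_zero]
        by_cases h5 : nm v ≤ N
        · have h6 : (below v : ℕ) ^ 2 ≤ N := by
            refine le_trans ?_ h5
            rw [h2]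
            exact Nat.pow_le_pow_right (below v).2.pos (by omega)
          rw [if_pos h5, if_pos h6]
          exact hφ v
        · rw [if_neg h5, abs_zero]
          split_ifs
          · exact hB
          · exact le_rfl
    refine (Finset.abs_sum_le_sum_abs _ _).trans ?_
    refine (Finset.sum_le_sum fun v _ => e1 v).trans ?_
    rw [Finset.sum_const, Finset.card_univ, nsmul_eq_mul]
    split_ifs
    · exact mul_le_mul_of_nonneg_right (by exact_mod_cast fiber_card_le p) hB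
    · rw [mul_zero]
  refine (Finset.abs_sum_le_sum_abs _ _).trans ((Finset.sum_le_sum h1).trans ?_)
  rw [← Finset.sum_filter, Finset.sum_const, nsmul_eq_mul, mul_comm]
  refine mul_le_mul_of_nonneg_left ?_ (mul_nonneg (Nat.cast_nonneg _) hB)
  have h2 : ((PR N).filter fun p : Nat.Primes => (p : ℕ) ^ 2 ≤ N).card ≤
      (Finset.range (Nat.sqrt N + 1)).card := by
    refine Finset.card_le_card_of_injOn (fun p : Nat.Primes => (p : ℕ)) ?_
      (fun a _ b _ h => Subtype.ext h)
    intro p hp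
    have h3 := (Finset.mem_filter.1 (Finset.mem_coe.1 hp)).2
    rw [Finset.coe_range, Set.mem_Iio, Nat.lt_succ_iff, Nat.le_sqrt']
    exact h3
  rw [Finset.card_range] at h2
  have h3 : (Nat.sqrt N : ℝ) ≤ Real.sqrt N := Real.nat_sqrt_le_real_sqrt
  have h4 : (((PR N).filter fun p : Nat.Primes => (p : ℕ) ^ 2 ≤ N).card : ℝ) ≤
      ((Nat.sqrt N + 1 : ℕ) : ℝ) := by exact_mod_cast h2
  push_cast at h4
  linarith

/-- the sum over the primes of norm at most `N`, divided by `π(N)` -/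
theorem sum_div_pc (φ : HeightOneSpectrum (𝓞 F) → ℝ) {B : ℝ} (hφ : ∀ v, |φ v| ≤ B) :
    Tendsto (fun N : ℕ =>
      (∑ᶠ v : {v : HeightOneSpectrum (𝓞 F) // Ideal.absNorm v.asIdeal ≤ N}, φ v.1) /
        (Nat.primeCounting N : ℝ) -
      Av N fun p => ∑ ψ : 𝓞 F →+* ZMod (p : ℕ), φ (kerPrime p ψ).1.1) atTop (𝓝 0) := by
  have h1 : Tendsto (fun N : ℕ => Module.finrank ℚ F * B * (Real.sqrt N /
      (Nat.primeCounting N : ℝ) + 1 / (Nat.primeCounting N : ℝ))) atTop (𝓝 0) := by
    have := (sqrt_div_pc.add (Tendsto.div_atTop (tendsto_const_nhds (x := (1 : ℝ))) pc_atTop)).const_mul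
      (Module.finrank ℚ F * B : ℝ)
    rwa [add_zero, mul_zero] at this
  refine squeeze_zero_norm (fun N => ?_) h1
  unfold Av
  rw [← sub_div, Real.norm_eq_abs, abs_div, abs_of_nonneg (Nat.cast_nonneg (Nat.primeCounting N) :
    (0 : ℝ) ≤ _), ← add_div, ← mul_div_assoc]
  exact div_le_div_of_nonneg_right (sum_low φ hφ N) (Nat.cast_nonneg _)

/-- the mean over prime ideals is asymptotically the mean over the homomorphisms -/
theorem mean_sub (φ : HeightOneSpectrum (𝓞 F) → ℝ) {B : ℝ} (hφ : ∀ v, |φ v| ≤ B) :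
    Tendsto (fun N : ℕ => mean F φ N -
      Av N fun p => ∑ ψ : 𝓞 F →+* ZMod (p : ℕ), φ (kerPrime p ψ).1.1) atTop (𝓝 0) := by
  set a : ℕ → ℝ := fun N =>
    (∑ᶠ v : {v : HeightOneSpectrum (𝓞 F) // Ideal.absNorm v.asIdeal ≤ N}, φ v.1) /
        (Nat.primeCounting N : ℝ) with ha
  set b : ℕ → ℝ := fun N =>
    (∑ᶠ v : {v : HeightOneSpectrum (𝓞 F) // Ideal.absNorm v.asIdeal ≤ N}, (1 : ℝ)) /
        (Nat.primeCounting N : ℝ) with hb
  have h1 := sum_div_pc φ hφ
  have h2 := sum_div_pc (F := F) (fun _ => (1 : ℝ)) (B := 1) (fun _ => by simp)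
  have h3 : Tendsto (fun N => Av N fun p => ∑ ψ : 𝓞 F →+* ZMod (p : ℕ), (1 : ℝ)) atTop (𝓝 1) := by
    have := tendsto_Av (mean_hc F)
    refine this.congr fun N => ?_
    congr 1
    funext p
    rw [Finset.sum_const, Finset.card_univ, card_hom_eq, R_eq_hc, nsmul_eq_mul, mul_one]
  have h4 : Tendsto b atTop (𝓝 1) := by
    have := h2.add h3
    rw [zero_add] at this
    refine this.congr fun N => ?_
    simp only [hb]
    ring
  have hbd : ∃ C : ℝ, ∀ᶠ N : ℕ in atTop, |a N| ≤ C := by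
    refine ⟨B * 2, ?_⟩
    have hB : 0 ≤ B := by
      obtain ⟨v⟩ := (sysK F).nonempty
      exact (abs_nonneg _).trans (hφ v)
    filter_upwards [h4.eventually (gt_mem_nhds (show (1 : ℝ) < 2 by norm_num))] with N hN
    have h5 : |a N| ≤ B * b N := by
      rw [ha, hb]
      simp only
      rw [abs_div, abs_of_nonneg (Nat.cast_nonneg (Nat.primeCounting N) : (0 : ℝ) ≤ _),
        ← mul_div_assoc]
      refine div_le_div_of_nonneg_right ?_ (Nat.cast_nonneg _)
      have hfin := (finsum_eq (F := F) φ N).1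
      let _ := Fintype.ofFinite {v : HeightOneSpectrum (𝓞 F) // Ideal.absNorm v.asIdeal ≤ N}
      rw [finsum_eq_sum_of_fintype, finsum_eq_sum_of_fintype, Finset.mul_sum]
      refine (Finset.abs_sum_le_sum_abs _ _).trans (Finset.sum_le_sum fun v _ => ?_)
      rw [mul_one]
      exact hφ v.1
    exact h5.trans (mul_le_mul_of_nonneg_left hN.le hB)
  have h5 : Tendsto (fun N => a N * ((b N)⁻¹ - 1)) atTop (𝓝 0) := by
    obtain ⟨C, hC⟩ := hbd
    have e1 : Tendsto (fun N => (b N)⁻¹ - 1) atTop (𝓝 0) := by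
      have := (h4.inv₀ one_ne_zero).sub_const 1
      rwa [inv_one, sub_self] at this
    have e2 : Tendsto (fun N => C * |(b N)⁻¹ - 1|) atTop (𝓝 0) := by
      have := e1.abs.const_mul C
      rwa [abs_zero, mul_zero] at this
    refine squeeze_zero_norm' ?_ e2
    filter_upwards [hC] with N hN
    rw [Real.norm_eq_abs, abs_mul]
    exact mul_le_mul_of_nonneg_right hN (abs_nonneg _)
  have h6 := h1.add h5
  rw [add_zero] at h6
  refine h6.congr' ?_
  have hp : ∀ᶠ N : ℕ in atTop, 0 < (Nat.primeCounting N : ℝ) := pc_atTop.eventually_gt_atTop 0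
  filter_upwards [hp, h4.eventually (lt_mem_nhds (show (0 : ℝ) < 1 by norm_num))] with N hN hbN
  have e1 : mean F φ N = a N * (b N)⁻¹ := by
    have hfin := (finsum_eq (F := F) φ N).1
    let _ := Fintype.ofFinite {v : HeightOneSpectrum (𝓞 F) // Ideal.absNorm v.asIdeal ≤ N}
    have e2 : (∑ᶠ v : {v : HeightOneSpectrum (𝓞 F) // Ideal.absNorm v.asIdeal ≤ N}, (1 : ℝ)) =
        (Nat.card {v : HeightOneSpectrum (𝓞 F) // Ideal.absNorm v.asIdeal ≤ N} : ℝ) := by
      rw [finsum_eq_sum_of_fintype, Finset.sum_const, Finset.card_univ, nsmul_eq_mul, mul_one,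
        Nat.card_eq_fintype_card]
    unfold mean
    rw [ha, hb]
    simp only
    rw [e2, inv_div]
    by_cases h0 : (Nat.card {v : HeightOneSpectrum (𝓞 F) // Ideal.absNorm v.asIdeal ≤ N} : ℝ) = 0
    · rw [h0, div_zero, div_zero, mul_zero]
    · field_simp
  rw [e1]
  ring

end

end Pool.Agent.W529.ST
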