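import Pool.Agent.W529.ST.Bes

/-! One finite extension governs the natural means over all extensions of bounded degree. -/

set_option autoImplicit false

namespace Pool.Agent.W529.ST

open Filter Topology NumberField IsDedekindDomain Pool.Agent.H341R2 Pool.Agent.W353.TP
  Pool.Agent.W353.AB
open Pool.Agent.H921R2.TatePole (nm two_le_nm R hc R_eq_hc R_le kerPrime hom_finite C0)
open scoped TensorProduct

/-- bounded sequences converge along ultrafilters -/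
theorem exists_limN {X : ℕ → ℝ} (h : ∃ C : ℝ, ∀ᶠ N : ℕ in atTop, |X N| ≤ C)
    (U : Ultrafilter ℕ) (hU : (U : Filter ℕ) ≤ atTop) : ∃ x : ℝ, Tendsto X U (𝓝 x) := by
  obtain ⟨C, hC⟩ := h
  have h1 : ∀ᶠ N in (U : Filter ℕ), X N ∈ Set.Icc (-C) C := by
    filter_upwards [hU hC] with N hN
    exact abs_le.1 hN
  have h2 : ((U.map X : Ultrafilter ℝ) : Filter ℝ) ≤ 𝓟 (Set.Icc (-C) C) := by
    rw [Filter.le_principal_iff]
    exact h1
  obtain ⟨x, _, hx⟩ := (isCompact_Icc (a := -C) (b := C)).ultrafilter_le_nhds (U.map X) h2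
  exact ⟨x, hx⟩

open Classical in
/-- the limit along an ultrafilter -/
noncomputable def uN (U : Ultrafilter ℕ) (X : ℕ → ℝ) : ℝ :=
  if h : ∃ x : ℝ, Tendsto X U (𝓝 x) then h.choose else 0

theorem tendsto_uN {X : ℕ → ℝ} (h : ∃ C : ℝ, ∀ᶠ N : ℕ in atTop, |X N| ≤ C)
    (U : Ultrafilter ℕ) (hU : (U : Filter ℕ) ≤ atTop) : Tendsto X U (𝓝 (uN U X)) := by
  have h1 := exists_limN h U hU
  unfold uN
  rw [dif_pos h1]
  exact h1.choose_spec

section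
variable {K : Type} [Field K] [NumberField K]

/-- the natural means are bounded -/
theorem corrN_bdd (𝒮 : SN K) {F : Type} [Field F] [NumberField F] [Algebra K F]
    (d : Fin 𝒮.r → 𝓞 F) (hd : ∀ i, d i ≠ 0) :
    ∃ C : ℝ, ∀ᶠ N : ℕ in atTop, |corrN 𝒮 d N| ≤ C := by
  refine ⟨GN 𝒮 d d + 1 + 1, ?_⟩
  have h := bessel 𝒮 (Finset.univ : Finset Unit) (fun _ => F) (fun _ => d) (fun _ _ => hd)
    (fun _ => 1) zero_lt_one
  filter_upwards [h] with N hN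
  simp only [Finset.univ_unique, Finset.sum_singleton, one_mul] at hN
  have h1 : |corrN 𝒮 d N| ^ 2 ≤ GN 𝒮 d d + 1 := by rwa [sq_abs]
  nlinarith [abs_nonneg (corrN 𝒮 d N), sq_nonneg (|corrN 𝒮 d N| - 1)]

/-- a twist as a datum with a size -/
noncomputable def mkDt (𝒮 : SN K) (F : IntermediateField K (Om K)) [NumberField F]
    (d : Fin 𝒮.r → 𝓞 F) (hd : ∀ i, d i ≠ 0) : Dt 𝒮.Y 0 where
  F := F
  nf := inferInstance
  d := d
  hd := hd
  X := fun ε => 𝒮.Y.corr d 0 ε / LL ε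
  hX := by
    unfold Sy.IsSize
    refine (Asymptotics.isLittleO_zero _ _).congr' ?_ (EventuallyEq.refl _ _)
    filter_upwards [LL_tendsto.eventually_gt_atTop 0] with ε h
    rw [div_mul_cancel₀ _ h.ne', sub_self]

variable {𝒮 : SN K}

/-- the value of a combination -/
noncomputable def val (U : Ultrafilter ℕ) (A : Co 𝒮.Y) : ℝ :=
  ∑ b : Bool, (A.s b : ℝ) * uN U (corrN 𝒮 (A.m b).d)

theorem GG_eq' {τ σ : ℝ} (h : τ = σ) (A : Dt 𝒮.Y τ) (B : Dt 𝒮.Y σ) : GG A B = GN 𝒮 A.d B.d := by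
  classical
  unfold Pool.Agent.W353.AB.GG
  rw [G_eq]
  unfold GN
  refine Finset.sum_congr rfl fun j _ => ?_
  rw [if_pos h]
  exact one_mul _

theorem co_ineqN (U : Ultrafilter ℕ) (hU : (U : Filter ℕ) ≤ atTop)
    (T : Finset (Co 𝒮.Y)) (hT : ∀ A ∈ T, A.τ = 0) (a : Co 𝒮.Y → ℝ) :
    (∑ A ∈ T, a A * val U A) ^ 2 ≤ ∑ A ∈ T, ∑ B ∈ T, a A * a B * ip A B := by
  classical
  have hmain := fun (η : ℝ) (hη : 0 < η) => bessel 𝒮 (T ×ˢ (Finset.univ : Finset Bool))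
    (fun k : Co 𝒮.Y × Bool => (k.1.m k.2).F) (fun k => (k.1.m k.2).d)
    (fun k _ i => (k.1.m k.2).hd i) (fun k => a k.1 * k.1.s k.2) hη
  have hlim : Tendsto (fun N : ℕ => (∑ k ∈ T ×ˢ (Finset.univ : Finset Bool),
      (a k.1 * k.1.s k.2) * corrN 𝒮 (k.1.m k.2).d N) ^ 2) U
      (𝓝 ((∑ k ∈ T ×ˢ (Finset.univ : Finset Bool),
        (a k.1 * k.1.s k.2) * uN U (corrN 𝒮 (k.1.m k.2).d)) ^ 2)) :=
    (tendsto_finsetSum _ fun k _ =>
      (tendsto_uN (corrN_bdd 𝒮 (k.1.m k.2).d (k.1.m k.2).hd) U hU).const_mul _).pow 2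
  have hle : ∀ η : ℝ, 0 < η → (∑ k ∈ T ×ˢ (Finset.univ : Finset Bool),
        (a k.1 * k.1.s k.2) * uN U (corrN 𝒮 (k.1.m k.2).d)) ^ 2 ≤
      (∑ k ∈ T ×ˢ (Finset.univ : Finset Bool),
        ∑ l ∈ T ×ˢ (Finset.univ : Finset Bool),
      (a k.1 * k.1.s k.2) * (a l.1 * l.1.s l.2) * GN 𝒮 (k.1.m k.2).d (l.1.m l.2).d) + η := by
    intro η hη
    exact le_of_tendsto hlim (hU (hmain η hη))
  have h1 := le_of_forall_pos_le_add hle
  have e1 : ∑ k ∈ T ×ˢ (Finset.univ : Finset Bool), (a k.1 * k.1.s k.2) *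
      uN U (corrN 𝒮 (k.1.m k.2).d) = ∑ A ∈ T, a A * val U A := by
    rw [Finset.sum_product]
    refine Finset.sum_congr rfl fun A hA => ?_
    unfold val
    rw [Finset.mul_sum]
    refine Finset.sum_congr rfl fun b _ => ?_
    rw [mul_assoc]
  have e2 : ∑ k ∈ T ×ˢ (Finset.univ : Finset Bool), ∑ l ∈ T ×ˢ (Finset.univ : Finset Bool),
      (a k.1 * k.1.s k.2) * (a l.1 * l.1.s l.2) * GN 𝒮 (k.1.m k.2).d (l.1.m l.2).d =
      ∑ A ∈ T, ∑ B ∈ T, a A * a B * ip A B := by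
    rw [Finset.sum_product]
    refine Finset.sum_congr rfl fun A hA => ?_
    have e3 : ∀ b : Bool, ∑ l ∈ T ×ˢ (Finset.univ : Finset Bool),
        (a A * A.s b) * (a l.1 * l.1.s l.2) * GN 𝒮 (A.m b).d (l.1.m l.2).d =
        ∑ B ∈ T, ∑ c : Bool, (a A * A.s b) * (a B * B.s c) * GN 𝒮 (A.m b).d (B.m c).d := by
      intro b
      rw [Finset.sum_product]
    rw [Finset.sum_congr rfl fun b _ => e3 b, Finset.sum_comm]
    refine Finset.sum_congr rfl fun B hB => ?_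
    unfold Pool.Agent.W353.AB.ip
    rw [Finset.mul_sum]
    refine Finset.sum_congr rfl fun b _ => ?_
    rw [Finset.mul_sum]
    refine Finset.sum_congr rfl fun c _ => ?_
    rw [GG_eq' ((hT A hA).trans (hT B hB).symm)]
    ring
  rw [← e1, ← e2]
  exact h1

/-- exceptional combinations -/
def ExcN (U : Ultrafilter ℕ) (Q : Co 𝒮.Y → Prop) (n k : ℕ) (A : Co 𝒮.Y) : Prop :=
  1 ≤ k * |val U A| ∧ ip A A ≤ n ∧ A.τ = 0 ∧ Q A

theorem exc_cardN (U : Ultrafilter ℕ) (hU : (U : Filter ℕ) ≤ atTop)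
    (Q : Co 𝒮.Y → Prop) (n k : ℕ) (T : Finset (Co 𝒮.Y)) (hT : ∀ A ∈ T, ExcN U Q n k A)
    (horth : ∀ A ∈ T, ∀ B ∈ T, A ≠ B → ip A B = 0) : T.card ≤ n * k ^ 2 := by
  classical
  have h1 := orth_bound T (fun A => val U A) ip 1 n
    zero_le_one (Nat.cast_nonneg n)
    (fun c => by rw [one_mul]; exact co_ineqN U hU T (fun A hA => (hT A hA).2.2.1) c)
    (fun A hA => by rw [mul_one]; exact (hT A hA).2.1) horth
  rw [one_pow, mul_one] at h1
  have h2 : (T.card : ℝ) ≤ k ^ 2 * ∑ A ∈ T, (val U A) ^ 2 := by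
    rw [Finset.card_eq_sum_ones, Finset.mul_sum]
    push_cast
    refine Finset.sum_le_sum fun A hA => ?_
    have h4 := (hT A hA).1
    have h5 : (k : ℝ) ^ 2 * (val U A) ^ 2 = (k * |val U A|) ^ 2 := by
      rw [mul_pow, sq_abs]
    rw [h5]
    exact one_le_pow₀ h4
  have h3 : (T.card : ℝ) ≤ k ^ 2 * n :=
    h2.trans (mul_le_mul_of_nonneg_left h1 (by positivity))
  have h4 : ((n * k ^ 2 : ℕ) : ℝ) = k ^ 2 * n := by
    push_cast
    ring
  rw [← h4] at h3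
  exact_mod_cast h3

/-- a maximal orthogonal family of exceptional combinations -/
theorem exists_maxN (U : Ultrafilter ℕ) (hU : (U : Filter ℕ) ≤ atTop)
    (Q : Co 𝒮.Y → Prop) (n k : ℕ) :
    ∃ T : Finset (Co 𝒮.Y), T.card ≤ n * k ^ 2 ∧ (∀ A ∈ T, Q A) ∧
      ∀ B : Co 𝒮.Y, ExcN U Q n k B → ¬ ∀ A ∈ T, ip A B = 0 ∧ ip B A = 0 := by
  classical
  by_contra hcon
  push Not at hcon
  have key : ∀ l : ℕ, ∃ T : Finset (Co 𝒮.Y), T.card = l ∧ (∀ A ∈ T, ExcN U Q n k A) ∧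
      ∀ A ∈ T, ∀ B ∈ T, A ≠ B → ip A B = 0 := by
    intro l
    induction l with
    | zero => exact ⟨∅, rfl, by simp, by simp⟩
    | succ l ih =>
      obtain ⟨T, hc, hT, ho⟩ := ih
      obtain ⟨B, hB, hBo⟩ := hcon T (exc_cardN U hU Q n k T hT ho)
        (fun A hA => (hT A hA).2.2.2)
      have hBT : B ∉ T := by
        intro hBT
        have h1 := co_ineqN U hU {B} (by simpa using hB.2.2.1) (fun _ => 1)
        simp only [Finset.sum_singleton, one_mul] at h1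
        rw [(hBo B hBT).1] at h1
        have h2 := pow_eq_zero_iff (two_ne_zero) |>.1 (le_antisymm h1 (sq_nonneg _))
        have h3 := hB.1
        rw [h2, abs_zero, mul_zero] at h3
        linarith
      refine ⟨insert B T, ?_, ?_, ?_⟩
      · rw [Finset.card_insert_of_notMem hBT, hc]
      · intro A hA
        rcases Finset.mem_insert.1 hA with rfl | hA
        · exact hB
        · exact hT A hA
      · intro A hA A' hA' hne
        rcases Finset.mem_insert.1 hA with h1 | h1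
        · rcases Finset.mem_insert.1 hA' with h2 | h2
          · exact absurd (h1.trans h2.symm) hne
          · rw [h1]
            exact (hBo A' h2).2
        · rcases Finset.mem_insert.1 hA' with h2 | h2
          · rw [h2]
            exact (hBo A h1).1
          · exact ho A h1 A' h2 hne
  obtain ⟨T, hc, hT, ho⟩ := key (n * k ^ 2 + 1)
  have := exc_cardN U hU Q n k T hT ho
  omega

theorem ip_two_selfN (n : ℕ) (D D₀ : Dt 𝒮.Y 0) (t : ℤ)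
    (ht : t = 0 ∨ t = -1) (h1 : Bd 𝒮.Y n D.F D.d) (h2 : Bd 𝒮.Y n D₀.F D₀.d) :
    ip (Co.two D D₀ t) (Co.two D D₀ t) ≤ ((2 * n * 𝒮.P.card : ℕ) : ℝ) := by
  have h := ip_two_self n 𝒮.P.card (by
    change ((𝒮.P.card : ℕ) : ℝ) = ∑ j ∈ 𝒮.P, (1 : ℝ)
    rw [Finset.sum_const, nsmul_eq_mul, mul_one]) D D₀ t ht h1 h2
  refine h.trans (le_of_eq ?_)
  push_cast
  ring

/-- **Stabilisation.** -/
theorem stabN (n k m : ℕ) (U : Ultrafilter ℕ) (hU : (U : Filter ℕ) ≤ atTop)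
    (Q : Co 𝒮.Y → Prop) :
    ∃ (M : IntermediateField K (Om K)), FiniteDimensional K M ∧ Normal K M ∧
      ((∀ A, Q A → (A.m true).F ≤ (A.m false).F ∧ Module.finrank K (A.m false).F ≤ m) →
        Module.finrank K M ≤ (4 ^ 𝒮.r * m).factorial ^ (2 * n * 𝒮.P.card * k ^ 2)) ∧
      (∀ (D : Dt 𝒮.Y 0), Bd 𝒮.Y n D.F D.d → Q (Co.two D D 0) →
        (∀ j ∈ 𝒮.P, ∀ y ∈ D.F ⊔ M, y ^ 2 ≠ prA 𝒮.Y D.d j) →
        k * |uN U (corrN 𝒮 D.d)| < 1) ∧
      (∀ (D D₀ : Dt 𝒮.Y 0), D₀.F = D.F ⊓ M → Bd 𝒮.Y n D.F D.d →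
        Bd 𝒮.Y n D₀.F D₀.d → Q (Co.two D D₀ (-1)) → Rel 𝒮.Y M D.d D₀.d →
        k * |uN U (corrN 𝒮 D.d) - uN U (corrN 𝒮 D₀.d)| < 1) := by
  classical
  obtain ⟨T, hTc, hTQ, hT⟩ := exists_maxN U hU Q (2 * n * 𝒮.P.card) k
  obtain ⟨M, hM1, hM2, hM, hM3⟩ := exists_field T m
  refine ⟨M, hM1, hM2, ?_, ?_, ?_⟩
  · intro hQ
    refine (hM3 fun A hA => hQ A (hTQ A hA)).trans ?_
    exact Nat.pow_le_pow_right (Nat.factorial_pos _) hTc
  · intro D hB hQ hcond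
    by_contra hne
    push Not at hne
    refine hT (Co.two D D 0) ⟨?_, ip_two_selfN n D D 0 (Or.inl rfl) hB hB, rfl, hQ⟩ ?_
    · have e1 : val U (Co.two D D 0) = uN U (corrN 𝒮 D.d) := by
        unfold val
        rw [Fintype.sum_bool]
        change ((0 : ℤ) : ℝ) * uN U (corrN 𝒮 D.d) + ((1 : ℤ) : ℝ) * uN U (corrN 𝒮 D.d) = _
        push_cast
        ring
      rw [e1]
      exact hne
    · intro A hA
      rw [ip_symm (Co.two D D 0) A, and_self]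
      refine ip_two_eq_zero M A (hM A hA) D D 0 ?_
      intro G _ _ _ g hg c hc hs j hj
      rw [new_zero M D.F D.hd j (hcond j hj) G g hg c hc hs]
      simp
  · intro D D₀ hFF hB hB' hQ hcond
    by_contra hne
    push Not at hne
    refine hT (Co.two D D₀ (-1)) ⟨?_, ip_two_selfN n D D₀ (-1) (Or.inr rfl) hB hB', rfl, hQ⟩ ?_
    · have e1 : val U (Co.two D D₀ (-1)) = uN U (corrN 𝒮 D.d) - uN U (corrN 𝒮 D₀.d) := by
        unfold val
        rw [Fintype.sum_bool]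
        change ((-1 : ℤ) : ℝ) * uN U (corrN 𝒮 D₀.d) + ((1 : ℤ) : ℝ) * uN U (corrN 𝒮 D.d) = _
        push_cast
        ring
      rw [e1]
      exact hne
    · intro A hA
      rw [ip_symm (Co.two D D₀ (-1)) A, and_self]
      refine ip_two_eq_zero M A (hM A hA) D D₀ (-1) ?_
      intro G _ _ _ g hg c hc hs j hj
      rcases hcond j hj with ⟨h1, h2⟩ | ⟨h1, h2⟩
      · rw [old_eq M D.F D₀.F hFF D.hd D₀.hd j h1 h2 G g hg c hc hs]
        ring
      · have hFM : D₀.F ⊔ M = M := by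
          rw [hFF]
          exact sup_eq_right.2 inf_le_right
        rw [new_zero M D.F D.hd j h1 G g hg c hc hs,
          new_zero M D₀.F D₀.hd j (by rw [hFM]; exact h2) G g hg c hc hs]
        simp

theorem freq_of_limN {U : Ultrafilter ℕ} {𝓛 : Filter ℕ} (hU : (U : Filter ℕ) ≤ 𝓛) {X : ℕ → ℝ}
    {x c δ : ℝ} (h : Tendsto X U (𝓝 x)) (hx : |x - c| < δ) : ∃ᶠ N : ℕ in 𝓛, |X N - c| < δ := by
  have h1 : Tendsto (fun ε => |X ε - c|) U (𝓝 |x - c|) := (h.sub_const c).abs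
  exact (h1.eventually_lt_const hx).frequently.filter_mono hU

/-- `X` is asymptotically the natural mean of the twist by `d` -/
def IsMean (𝒮 : SN K) {F : Type} [Field F] [NumberField F] [Algebra K F]
    (d : Fin 𝒮.r → 𝓞 F) (X : ℕ → ℝ) : Prop :=
  Tendsto (fun N => X N - corrN 𝒮 d N) atTop (𝓝 0)

theorem IsMean.lim {F : Type} [Field F] [NumberField F] [Algebra K F]
    {d : Fin 𝒮.r → 𝓞 F} (hd : ∀ i, d i ≠ 0) {X : ℕ → ℝ} (h : IsMean 𝒮 d X) (U : Ultrafilter ℕ)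
    (hU : (U : Filter ℕ) ≤ atTop) : Tendsto X U (𝓝 (uN U (corrN 𝒮 d))) := by
  have h1 := (h.mono_left hU).add (tendsto_uN (corrN_bdd 𝒮 d hd) U hU)
  rw [zero_add] at h1
  refine h1.congr fun N => ?_
  ring

/-- **One finite extension governs the natural means**, at the scales of the filter `𝓛`. -/
theorem governN (𝒮 : SN K) (n k m : ℕ) (hk : 1 ≤ k) (𝓛 : Filter ℕ) [𝓛.NeBot] (h𝓛 : 𝓛 ≤ atTop)
    (P : ∀ (F : IntermediateField K (Om K)) [NumberField F], (Fin 𝒮.r → 𝓞 F) → Prop)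
    (hP : ∀ (F : IntermediateField K (Om K)) [NumberField F] (d : Fin 𝒮.r → 𝓞 F),
      P F d → Bd 𝒮.Y n F d) :
    ∃ (M : IntermediateField K (Om K)), FiniteDimensional K M ∧ IsGalois K M ∧
      Normal K M ∧
      ((∀ (F : IntermediateField K (Om K)) [NumberField F] (d : Fin 𝒮.r → 𝓞 F),
        P F d → Module.finrank K F ≤ m) →
          Module.finrank K M ≤ (4 ^ 𝒮.r * m).factorial ^ (2 * n * 𝒮.P.card * k ^ 2)) ∧
      (∀ (F : IntermediateField K (Om K)) [NumberField F] (d : Fin 𝒮.r → 𝓞 F)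
        (_ : ∀ i, d i ≠ 0) (X : ℕ → ℝ) (_ : IsMean 𝒮 d X), P F d →
        (∀ j ∈ 𝒮.P, ∀ y ∈ F ⊔ M, y ^ 2 ≠ prA 𝒮.Y d j) →
        (∃ᶠ N : ℕ in 𝓛, |X N| < 1 / k) ∧
          ∀ x : ℝ, Tendsto X 𝓛 (𝓝 x) → |x| < 1 / k) ∧
      (∀ (F F₀ : IntermediateField K (Om K)) [NumberField F] [NumberField F₀],
        F₀ = F ⊓ M → ∀ (d : Fin 𝒮.r → 𝓞 F) (e : Fin 𝒮.r → 𝓞 F₀) (_ : ∀ i, d i ≠ 0)
        (_ : ∀ i, e i ≠ 0) (X Y : ℕ → ℝ) (_ : IsMean 𝒮 d X) (_ : IsMean 𝒮 e Y),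
        P F d → P F₀ e → Rel 𝒮.Y M d e →
        (∃ᶠ N : ℕ in 𝓛, |X N - Y N| < 1 / k) ∧
          (∀ y : ℝ, Tendsto Y 𝓛 (𝓝 y) → ∃ᶠ N : ℕ in 𝓛, |X N - y| < 1 / k) ∧
          ∀ x y : ℝ, Tendsto X 𝓛 (𝓝 x) → Tendsto Y 𝓛 (𝓝 y) → |x - y| < 1 / k) := by
  classical
  obtain ⟨U, hU0⟩ : ∃ U : Ultrafilter ℕ, (U : Filter ℕ) ≤ 𝓛 :=
    ⟨Ultrafilter.of _, Ultrafilter.of_le _⟩
  have hU : (U : Filter ℕ) ≤ atTop := hU0.trans h𝓛
  have hkR : (0 : ℝ) < k := by exact_mod_cast hk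
  have hdiv : ∀ {x : ℝ}, (k : ℝ) * |x| < 1 → |x| < 1 / k := by
    intro x hx
    rw [lt_div_iff₀ hkR, mul_comm]
    exact hx
  obtain ⟨M, hM1, hM2, hdeg, hA, hB⟩ := stabN (𝒮 := 𝒮) n k m U hU
    (fun A => (A.m true).F ≤ (A.m false).F ∧ P (A.m false).F (A.m false).d)
  have hsep : Algebra.IsSeparable K M := inferInstance
  refine ⟨M, hM1, IsGalois.mk, hM2, fun h => hdeg fun A hA => ⟨hA.1, h _ _ hA.2⟩,
    fun F _ d hd X hX hPF hcond => ?_,
    fun F F₀ _ _ hF₀ d e hd he X Y hX hY hPF hPF₀ hR => ?_⟩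
  · have h1 := hA (mkDt 𝒮 F d hd) (hP F d hPF) ⟨le_rfl, hPF⟩ hcond
    have h0 : Tendsto X U (𝓝 (uN U (corrN 𝒮 d))) := hX.lim hd U hU
    have h3 : |uN U (corrN 𝒮 d)| < 1 / k := hdiv h1
    constructor
    · have h2 : ∃ᶠ N : ℕ in 𝓛, |X N - 0| < 1 / k :=
        freq_of_limN hU0 h0 (by rw [sub_zero]; exact h3)
      simpa using h2
    · intro x hx
      have h4 := tendsto_nhds_unique h0 (hx.mono_left hU0)
      rw [← h4]
      exact h3
  · have hle : F₀ ≤ F := by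
      rw [hF₀]
      exact inf_le_left
    have h1 := hB (mkDt 𝒮 F d hd) (mkDt 𝒮 F₀ e he) hF₀ (hP F d hPF) (hP F₀ e hPF₀) ⟨hle, hPF⟩ hR
    have h0 : Tendsto X U (𝓝 (uN U (corrN 𝒮 d))) := hX.lim hd U hU
    have h0' : Tendsto Y U (𝓝 (uN U (corrN 𝒮 e))) := hY.lim he U hU
    have h3 : |uN U (corrN 𝒮 d) - uN U (corrN 𝒮 e)| < 1 / k := hdiv h1
    refine ⟨?_, ?_, ?_⟩
    · have h2 : ∃ᶠ N : ℕ in 𝓛, |(X N - Y N) - 0| < 1 / k :=
        freq_of_limN hU0 (h0.sub h0') (by rw [sub_zero]; exact h3)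
      simpa using h2
    · intro y hy
      have h5 := tendsto_nhds_unique h0' (hy.mono_left hU0)
      refine freq_of_limN hU0 h0 ?_
      rw [← h5]
      exact h3
    · intro x y hx hy
      have h4 := tendsto_nhds_unique h0 (hx.mono_left hU0)
      have h5 := tendsto_nhds_unique h0' (hy.mono_left hU0)
      rw [← h4, ← h5]
      exact h3

end

end Pool.Agent.W529.ST
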