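import Pool.Agent.W529.ST.Lim

/-! Bessel's inequality for the quadratic characters of a number field, uniform in the function. -/

set_option autoImplicit false

namespace Pool.Agent.W529.ST

open NumberField IsDedekindDomain Filter Topology Polynomial Pool.Agent.H341R2
open Pool.Agent.W353.TP Pool.Agent.W353.AB
open Pool.Agent.H921R2.TatePole (nm two_le_nm R hc R_eq_hc R_le kerPrime hom_finite)

section
variable {F : Type} [Field F] [NumberField F]

/-- the quadratic character of `F(√d)/F` at `v`, zero if `2 d ∈ v` -/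
noncomputable def ch (d : 𝓞 F) (v : HeightOneSpectrum (𝓞 F)) : ℝ :=
  open Classical in if 2 * d ∈ v.asIdeal then 0 else (chi d v : ℝ)

theorem ch_abs (d : 𝓞 F) (v : HeightOneSpectrum (𝓞 F)) : |ch d v| ≤ 1 := by
  unfold ch
  split_ifs
  · simp
  · exact chi_abs d v

theorem ch_sq (d : 𝓞 F) (v : HeightOneSpectrum (𝓞 F)) : ch d v ^ 2 ≤ 1 :=
  (sq_le_one_iff_abs_le_one _).2 (ch_abs d v)

theorem ch_dichotomy (d : 𝓞 F) {v : HeightOneSpectrum (𝓞 F)} (h : 2 * d ∉ v.asIdeal) :
    (IsSquare (Ideal.Quotient.mk v.asIdeal d) ∧ ch d v = 1) ∨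
    (¬ IsSquare (Ideal.Quotient.mk v.asIdeal d) ∧ ch d v = -1) := by
  have hd : Ideal.Quotient.mk v.asIdeal d ≠ 0 := by
    intro h0
    exact h (Ideal.mul_mem_left _ _ (Ideal.Quotient.eq_zero_iff_mem.1 h0))
  have h6 : chi d v = 1 ↔ IsSquare (Ideal.Quotient.mk v.asIdeal d) :=
    quadraticChar_one_iff_isSquare hd
  unfold ch
  rw [if_neg h]
  have h7 : chi d v = 1 ∨ chi d v = -1 := quadraticChar_dichotomy hd
  rcases h7 with h8 | h8
  · exact Or.inl ⟨h6.1 h8, by rw [h8]; norm_num⟩
  · refine Or.inr ⟨fun hs => ?_, by rw [h8]; norm_num⟩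
    have := h6.2 hs
    rw [h8] at this
    norm_num at this

theorem ch_mul (d d' : 𝓞 F) (v : HeightOneSpectrum (𝓞 F)) :
    ch (d * d') v = ch d v * ch d' v := by
  classical
  unfold ch
  have hp := v.isPrime
  have h1 : 2 * (d * d') ∈ v.asIdeal ↔ 2 * d ∈ v.asIdeal ∨ 2 * d' ∈ v.asIdeal := by
    constructor
    · intro h
      rcases hp.mem_or_mem h with h | h
      · exact Or.inl (Ideal.mul_mem_right _ _ h)
      · rcases hp.mem_or_mem h with h | h
        · exact Or.inl (Ideal.mul_mem_left _ _ h)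
        · exact Or.inr (Ideal.mul_mem_left _ _ h)
    · rintro (h | h)
      · rw [← mul_assoc]
        exact Ideal.mul_mem_right _ _ h
      · have : 2 * (d * d') = d * (2 * d') := by ring
        rw [this]
        exact Ideal.mul_mem_left _ _ h
  by_cases h2 : 2 * d ∈ v.asIdeal
  · rw [if_pos (h1.2 (Or.inl h2)), if_pos h2, zero_mul]
  · by_cases h3 : 2 * d' ∈ v.asIdeal
    · rw [if_pos (h1.2 (Or.inr h3)), if_pos h3, mul_zero]
    · rw [if_neg (fun h => (h1.1 h).elim h2 h3), if_neg h2, if_neg h3, chi_mul]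
      push_cast
      rfl

open Classical in
/-- the mean of a quadratic character -/
theorem mean_ch {d : 𝓞 F} (hd : d ≠ 0) :
    Tendsto (mean F (ch d)) atTop (𝓝 (if IsSquare (d : F) then 1 else 0)) := by
  have h1 := mean_sub (ch d) (B := 1) (ch_abs d)
  have h2 : NN fun p => (∑ ψ : 𝓞 F →+* ZMod (p : ℕ), ch d (kerPrime p ψ).1.1) -
      (if IsSquare (d : F) then 1 else 0) := by
    refine (mean_qh hd).congr (N0_ne_zero hd) fun p hp => ?_
    have : Fact (p : ℕ).Prime := ⟨p.2⟩
    congr 1
    refine Finset.sum_congr rfl fun ψ _ => ?_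
    have h3 : 2 * d ∉ (kerPrime p ψ).1.1.asIdeal := by
      intro h0
      have h0' : ψ (2 * d) = 0 := h0
      obtain ⟨e, he⟩ := dvd_N0 d
      apply hp
      have h8 := congrArg ψ he
      rw [map_mul, h0', mul_zero, map_intCast, ZMod.intCast_zmod_eq_zero_iff_dvd] at h8
      exact h8
    unfold ch
    rw [if_neg h3, chi_kerPrime, qh_eq]
  have h3 := h1.add (tendsto_Av h2)
  rw [zero_add] at h3
  refine h3.congr fun N => ?_
  ring

theorem mean_def (φ : HeightOneSpectrum (𝓞 F) → ℝ) (N : ℕ) :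
    ∃ t : Finset (HeightOneSpectrum (𝓞 F)),
      (∀ v, v ∈ t ↔ Ideal.absNorm v.asIdeal ≤ N) ∧
      Nat.card {v : HeightOneSpectrum (𝓞 F) // Ideal.absNorm v.asIdeal ≤ N} = t.card ∧
      ∀ φ : HeightOneSpectrum (𝓞 F) → ℝ, mean F φ N = (∑ v ∈ t, φ v) / (t.card : ℝ) := by
  classical
  have hfin := (finsum_eq (F := F) φ N).1
  let _ := Fintype.ofFinite {v : HeightOneSpectrum (𝓞 F) // Ideal.absNorm v.asIdeal ≤ N}
  let t : Finset (HeightOneSpectrum (𝓞 F)) :=
    (Finset.univ : Finset {v : HeightOneSpectrum (𝓞 F) // Ideal.absNorm v.asIdeal ≤ N}).map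
      (Function.Embedding.subtype _)
  have hcard : Nat.card {v : HeightOneSpectrum (𝓞 F) // Ideal.absNorm v.asIdeal ≤ N} = t.card := by
    rw [Finset.card_map, Finset.card_univ, Nat.card_eq_fintype_card]
  refine ⟨t, fun v => ?_, hcard, fun φ => ?_⟩
  · rw [Finset.mem_map]
    constructor
    · rintro ⟨w, _, rfl⟩
      exact w.2
    · intro h
      exact ⟨⟨v, h⟩, Finset.mem_univ _, rfl⟩
  · unfold mean
    rw [finsum_eq_sum_of_fintype, hcard, Finset.sum_map]
    rfl

/-- the Bessel inequality at the scale `N`, for the twists in `T`, for all functions -/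
def BP (T : Finset (𝓞 F)) (η : ℝ) (N : ℕ) : Prop :=
  ∀ h : HeightOneSpectrum (𝓞 F) → ℝ,
    ∑ d ∈ T, mean F (fun v => h v * ch d v) N ^ 2 ≤ (1 + η) * mean F (fun v => h v ^ 2) N

/-- **Bessel's inequality for quadratic twists**, uniform in the function. -/
theorem bessel_unif (T : Finset (𝓞 F)) (hT : ∀ d ∈ T, d ≠ 0)
    (hT' : ∀ d ∈ T, ∀ d' ∈ T, d ≠ d' → ¬ IsSquare ((d * d' : 𝓞 F) : F)) {η : ℝ} (hη : 0 < η) :
    ∀ᶠ N : ℕ in atTop, BP T η N := by
  classical
  -- the off-diagonal entries are small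
  have h1 : ∀ᶠ N : ℕ in atTop, ∀ d ∈ T, ∀ d' ∈ T, d ≠ d' →
      (T.card + 1) * |mean F (ch (d * d')) N| < η := by
    rw [Filter.eventually_all_finset]
    intro d hd
    rw [Filter.eventually_all_finset]
    intro d' hd'
    by_cases hne : d = d'
    · exact Eventually.of_forall fun N h => absurd hne h
    · have h2 := mean_ch (mul_ne_zero (hT d hd) (hT d' hd'))
      rw [if_neg (hT' d hd d' hd' hne)] at h2
      have h3 : Tendsto (fun N => ((T.card : ℝ) + 1) * |mean F (ch (d * d')) N|) atTop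
          (𝓝 (((T.card : ℝ) + 1) * |(0 : ℝ)|)) := h2.abs.const_mul _
      rw [abs_zero, mul_zero] at h3
      filter_upwards [h3.eventually_lt_const hη] with N hN _
      exact hN
  filter_upwards [h1] with N hN h
  obtain ⟨t, _, _, hmean⟩ := mean_def (F := F) (fun _ => 0) N
  set y : 𝓞 F → ℝ := fun d => mean F (fun v => h v * ch d v) N with hy
  set S : ℝ := ∑ d ∈ T, y d ^ 2 with hS
  have hS0 : 0 ≤ S := Finset.sum_nonneg fun d _ => sq_nonneg _
  have hm0 : 0 ≤ mean F (fun v => h v ^ 2) N := by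
    rw [hmean]
    exact div_nonneg (Finset.sum_nonneg fun v _ => sq_nonneg _) (Nat.cast_nonneg _)
  -- the combination
  set W : HeightOneSpectrum (𝓞 F) → ℝ := fun v => ∑ d ∈ T, y d * ch d v with hW
  have h2 : S = mean F (fun v => h v * W v) N := by
    rw [hS, hmean]
    have e1 : ∀ d ∈ T, y d ^ 2 = (∑ v ∈ t, y d * (h v * ch d v)) / (t.card : ℝ) := by
      intro d _
      rw [sq]
      nth_rewrite 2 [hy]
      simp only
      rw [hmean, ← mul_div_assoc, Finset.mul_sum]
    rw [Finset.sum_congr rfl e1, ← Finset.sum_div, Finset.sum_comm]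
    congr 1
    refine Finset.sum_congr rfl fun v _ => ?_
    rw [hW, Finset.mul_sum]
    refine Finset.sum_congr rfl fun d _ => ?_
    ring
  have h3 : mean F (fun v => h v * W v) N ^ 2 ≤
      mean F (fun v => h v ^ 2) N * mean F (fun v => W v ^ 2) N := by
    rw [hmean, hmean, hmean, div_pow, div_mul_div_comm, ← sq]
    exact div_le_div_of_nonneg_right (Finset.sum_mul_sq_le_sq_mul_sq _ _ _) (sq_nonneg _)
  have h4 : mean F (fun v => W v ^ 2) N =
      ∑ d ∈ T, ∑ d' ∈ T, y d * y d' * mean F (ch (d * d')) N := by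
    have e1 : ∀ d ∈ T, ∀ d' ∈ T, y d * y d' * mean F (ch (d * d')) N =
        (∑ v ∈ t, y d * y d' * (ch d v * ch d' v)) / (t.card : ℝ) := by
      intro d _ d' _
      rw [hmean, ← mul_div_assoc, Finset.mul_sum]
      congr 1
      exact Finset.sum_congr rfl fun v _ => by rw [ch_mul]
    rw [Finset.sum_congr rfl fun d hd => Finset.sum_congr rfl fun d' hd' => e1 d hd d' hd', hmean]
    simp only [← Finset.sum_div]
    congr 1
    rw [Finset.sum_congr rfl fun d _ => Finset.sum_comm, Finset.sum_comm]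
    refine Finset.sum_congr rfl fun v _ => ?_
    rw [hW]
    simp only
    rw [sq, Finset.sum_mul_sum]
    refine Finset.sum_congr rfl fun d _ => Finset.sum_congr rfl fun d' _ => ?_
    ring
  have h5 : mean F (fun v => W v ^ 2) N ≤ (1 + η) * S := by
    rw [h4]
    have e1 : ∀ d ∈ T, ∀ d' ∈ T, y d * y d' * mean F (ch (d * d')) N ≤
        (if d = d' then y d ^ 2 else 0) + η / (T.card + 1) * (|y d| * |y d'|) := by
      intro d hd d' hd'
      have hc : (0 : ℝ) < (T.card : ℝ) + 1 := by positivity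
      by_cases hne : d = d'
      · subst hne
        rw [if_pos rfl]
        have h6 : mean F (ch (d * d)) N ≤ 1 := by
          rw [hmean]
          refine div_le_one_of_le₀ ?_ (Nat.cast_nonneg _)
          refine (Finset.sum_le_sum fun v _ => (le_abs_self _).trans (ch_abs (d * d) v)).trans ?_
          rw [Finset.sum_const, nsmul_eq_mul, mul_one]
        have h7 : y d * y d * mean F (ch (d * d)) N ≤ y d ^ 2 := by
          nlinarith [mul_self_nonneg (y d)]
        have h8 : 0 ≤ η / (T.card + 1) * (|y d| * |y d|) := by positivity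
        linarith
      · rw [if_neg hne, zero_add]
        have h6 := hN d hd d' hd' hne
        have h7 : |mean F (ch (d * d')) N| ≤ η / (T.card + 1) := by
          rw [le_div_iff₀ hc, mul_comm]
          exact h6.le
        calc y d * y d' * mean F (ch (d * d')) N ≤ |y d * y d' * mean F (ch (d * d')) N| :=
              le_abs_self _
          _ = |mean F (ch (d * d')) N| * (|y d| * |y d'|) := by rw [abs_mul, abs_mul]; ring
          _ ≤ _ := mul_le_mul_of_nonneg_right h7 (by positivity)
    refine (Finset.sum_le_sum fun d hd => Finset.sum_le_sum fun d' hd' => e1 d hd d' hd').trans ?_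
    have e2 : ∑ d ∈ T, ∑ d' ∈ T, ((if d = d' then y d ^ 2 else 0) +
        η / ((T.card : ℝ) + 1) * (|y d| * |y d'|)) =
        S + η / ((T.card : ℝ) + 1) * (∑ d ∈ T, |y d|) ^ 2 := by
      simp only [Finset.sum_add_distrib, Finset.sum_ite_eq]
      congr 1
      · rw [hS]
        exact Finset.sum_congr rfl fun d hd => if_pos hd
      · rw [sq, Finset.sum_mul_sum]
        simp only [Finset.mul_sum]
    rw [e2]
    have h6 : (∑ d ∈ T, |y d|) ^ 2 ≤ T.card * S := by
      have := sq_sum_le_card_mul_sum_sq (s := T) (f := fun d => |y d|)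
      simpa only [sq_abs] using this
    have h7 : η / ((T.card : ℝ) + 1) * (∑ d ∈ T, |y d|) ^ 2 ≤ η * S := by
      have hc : (0 : ℝ) < (T.card : ℝ) + 1 := by positivity
      calc η / ((T.card : ℝ) + 1) * (∑ d ∈ T, |y d|) ^ 2 ≤ η / ((T.card : ℝ) + 1) * (T.card * S) :=
            mul_le_mul_of_nonneg_left h6 (by positivity)
        _ ≤ η / ((T.card : ℝ) + 1) * ((T.card + 1) * S) := by
            refine mul_le_mul_of_nonneg_left ?_ (by positivity)
            nlinarith
        _ = η * S := by field_simp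
    linarith
  -- conclusion
  have h6 : S ^ 2 ≤ ((1 + η) * mean F (fun v => h v ^ 2) N) * S := by
    calc S ^ 2 = mean F (fun v => h v * W v) N ^ 2 := by rw [h2]
      _ ≤ mean F (fun v => h v ^ 2) N * mean F (fun v => W v ^ 2) N := h3
      _ ≤ mean F (fun v => h v ^ 2) N * ((1 + η) * S) := mul_le_mul_of_nonneg_left h5 hm0
      _ = _ := by ring
  rcases hS0.eq_or_lt with h7 | h7
  · rw [← h7]
    positivity
  · have := h6
    rw [sq] at this
    exact le_of_mul_le_mul_right this h7

end

end Pool.Agent.W529.ST
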