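import Pool.Agent.W529.ST.Order

/-! Counting the exceptional twists: classes and their images under the involution. -/

set_option autoImplicit false

namespace Pool.Agent.W529.ST

open NumberField IsDedekindDomain Filter Topology Polynomial Pool.Agent.H341R2
open Pool.Agent.W353.TP Pool.Agent.W353.AB
open Pool.Agent.H921R2.TatePole (nm two_le_nm R hc R_eq_hc R_le kerPrime hom_finite)

section
variable {F : Type} [Field F] [NumberField F]

theorem card_atTop (F : Type) [Field F] [NumberField F] :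
    Tendsto (fun N : ℕ => (Nat.card {v : HeightOneSpectrum (𝓞 F) // Ideal.absNorm v.asIdeal ≤ N} : ℝ))
      atTop atTop := by
  have h2 := sum_div_pc (F := F) (fun _ => (1 : ℝ)) (B := 1) (fun _ => by simp)
  have h3 : Tendsto (fun N => Av N fun p => ∑ ψ : 𝓞 F →+* ZMod (p : ℕ), (1 : ℝ)) atTop (𝓝 1) := by
    have := tendsto_Av (mean_hc F)
    refine this.congr fun N => ?_
    congr 1
    funext p
    rw [Finset.sum_const, Finset.card_univ, card_hom_eq, R_eq_hc, nsmul_eq_mul, mul_one]
  have h4 := h2.add h3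
  rw [zero_add] at h4
  have h5 : Tendsto (fun N : ℕ => (Nat.card {v : HeightOneSpectrum (𝓞 F) //
      Ideal.absNorm v.asIdeal ≤ N} : ℝ) / (Nat.primeCounting N : ℝ)) atTop (𝓝 1) := by
    refine h4.congr fun N => ?_
    have hfin := (finsum_eq (F := F) (fun _ => 0) N).1
    let _ := Fintype.ofFinite {v : HeightOneSpectrum (𝓞 F) // Ideal.absNorm v.asIdeal ≤ N}
    have e2 : (∑ᶠ v : {v : HeightOneSpectrum (𝓞 F) // Ideal.absNorm v.asIdeal ≤ N}, (1 : ℝ)) =
        (Nat.card {v : HeightOneSpectrum (𝓞 F) // Ideal.absNorm v.asIdeal ≤ N} : ℝ) := by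
      rw [finsum_eq_sum_of_fintype, Finset.sum_const, Finset.card_univ, nsmul_eq_mul, mul_one,
        Nat.card_eq_fintype_card]
    rw [e2]
    ring
  have h6 := h5.pos_mul_atTop zero_lt_one pc_atTop
  refine h6.congr' ?_
  filter_upwards [pc_atTop.eventually_gt_atTop 0] with N hN
  rw [div_mul_cancel₀ _ hN.ne']

/-- functions that agree off a finite set have close means, uniformly -/
theorem mean_off {Z : Set (HeightOneSpectrum (𝓞 F))} (hZ : Z.Finite) {ε : ℝ} (hε : 0 < ε) :
    ∀ᶠ N : ℕ in atTop, ∀ φ ψ : HeightOneSpectrum (𝓞 F) → ℝ, (∀ v, |φ v - ψ v| ≤ 2) →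
      (∀ v, v ∉ Z → φ v = ψ v) → |mean F φ N - mean F ψ N| ≤ ε := by
  classical
  filter_upwards [(card_atTop F).eventually_ge_atTop (2 * hZ.toFinset.card / ε),
    card_pos F] with N hN hpos φ ψ h1 h2
  obtain ⟨t, _, hcard, hmean⟩ := mean_def (F := F) (fun _ => 0) N
  rw [hcard] at hN hpos
  have hposR : (0 : ℝ) < t.card := by exact_mod_cast hpos
  rw [hmean, hmean, ← sub_div, ← Finset.sum_sub_distrib, abs_div,
    abs_of_nonneg (Nat.cast_nonneg t.card : (0 : ℝ) ≤ _), div_le_iff₀ hposR]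
  have h3 : |∑ v ∈ t, (φ v - ψ v)| ≤ 2 * hZ.toFinset.card := by
    refine (Finset.abs_sum_le_sum_abs _ _).trans ?_
    have h4 : ∀ v ∈ t, |φ v - ψ v| ≤ if v ∈ hZ.toFinset then 2 else 0 := by
      intro v _
      split_ifs with h
      · exact h1 v
      · rw [h2 v (fun hv => h (hZ.mem_toFinset.2 hv)), sub_self, abs_zero]
    refine (Finset.sum_le_sum h4).trans ?_
    rw [← Finset.sum_filter, Finset.sum_const, nsmul_eq_mul, mul_comm]
    refine mul_le_mul_of_nonneg_left ?_ zero_le_two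
    have : (t.filter fun v => v ∈ hZ.toFinset) ⊆ hZ.toFinset := fun v hv =>
      (Finset.mem_filter.1 hv).2
    exact_mod_cast Finset.card_le_card this
  refine h3.trans ?_
  rw [div_le_iff₀ hε] at hN
  linarith

/-- the primes containing a nonzero element -/
theorem finite_mem {a : 𝓞 F} (ha : a ≠ 0) :
    {v : HeightOneSpectrum (𝓞 F) | a ∈ v.asIdeal}.Finite := by
  have h1 := Ideal.finite_factors (I := Ideal.span {a}) (by
    rw [Ne, Ideal.zero_eq_bot, Ideal.span_singleton_eq_bot]
    exact ha)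
  refine h1.subset fun v hv => ?_
  change v.asIdeal ∣ Ideal.span {a}
  rw [Ideal.dvd_iff_le, Ideal.span_singleton_le_iff_mem]
  exact hv

theorem finite_bad (T : Finset (𝓞 F)) (hT : ∀ d ∈ T, d ≠ 0) {Z : Set (HeightOneSpectrum (𝓞 F))}
    (hZ : Z.Finite) : (Z ∪ ⋃ d ∈ T, {v : HeightOneSpectrum (𝓞 F) | 2 * d ∈ v.asIdeal}).Finite := by
  refine hZ.union (Set.Finite.biUnion T.finite_toSet fun d hd => ?_)
  exact finite_mem (mul_ne_zero two_ne_zero (hT d hd))

open Classical in
/-- **Counting the exceptional twists**, for the space of classes divided in `ν` cells. -/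
theorem count_classes (T : Finset (𝓞 F)) (hT : ∀ d ∈ T, d ≠ 0)
    (hT' : ∀ d ∈ T, ∀ d' ∈ T, d ≠ d' → ¬ IsSquare ((d * d' : 𝓞 F) : F))
    {Z : Set (HeightOneSpectrum (𝓞 F))} (hZ : Z.Finite) (ν k : ℕ) (hk : 1 ≤ k) :
    ∀ᶠ N : ℕ in atTop, ∀ (X : Type) (σ : X → X) (κ : X → Fin ν)
      (s : HeightOneSpectrum (𝓞 F) → X) (sd : 𝓞 F → HeightOneSpectrum (𝓞 F) → X),
      (∀ d ∈ T, ∀ v, v ∉ Z → 2 * d ∉ v.asIdeal →
        (ch d v = 1 → sd d v = s v) ∧ (ch d v = -1 → sd d v = σ (s v))) →
      (T.filter fun d => ∃ Φ : X → ℝ, (∀ y, |Φ y| ≤ 1) ∧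
        (∃ r : Fin ν → ℝ, (∀ c, |r c| ≤ 1) ∧ ∀ v, v ∉ Z →
          |Φ (s v) - r (κ (s v))| ≤ 1 / (4 * k) ∧
          |Φ (σ (s v)) - r (κ (σ (s v)))| ≤ 1 / (4 * k)) ∧
        1 / (k : ℝ) ≤ |mean F (fun v => Φ (sd d v)) N -
          mean F (fun v => (Φ (s v) + Φ (σ (s v))) / 2) N|).card ≤ 16 * ν * k ^ 2 := by
  have hkR : (0 : ℝ) < k := by exact_mod_cast hk
  filter_upwards [bessel_unif T hT hT' zero_lt_one,
    mean_off (finite_bad T hT hZ) (ε := 1 / (4 * k)) (by positivity)] with N hB hoff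
  intro X σ κ s sd hsd
  have hc := count_cells hB ν (2 * k) (by omega) (fun v => κ (s v)) (fun v => κ (σ (s v)))
  have e0 : 4 * ν * (2 * k) ^ 2 = 16 * ν * k ^ 2 := by ring
  rw [e0] at hc
  refine (Finset.card_le_card ?_).trans hc
  intro d hd
  obtain ⟨hdT, Φ, hΦ, ⟨r, hr, hrep⟩, hge⟩ := Finset.mem_filter.1 hd
  have e1 : (1 : ℝ) / (2 * ((2 * k : ℕ) : ℝ)) = 1 / (4 * k) := by
    push_cast
    congr 1
    ring
  set A : HeightOneSpectrum (𝓞 F) → ℝ := fun v => if v ∈ Z then r (κ (s v)) else Φ (s v) with hA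
  set B : HeightOneSpectrum (𝓞 F) → ℝ := fun v => if v ∈ Z then r (κ (σ (s v))) else Φ (σ (s v))
    with hB'
  have hA1 : ∀ v, |A v| ≤ 1 := by
    intro v
    rw [hA]
    simp only
    split_ifs
    · exact hr _
    · exact hΦ _
  have hB1 : ∀ v, |B v| ≤ 1 := by
    intro v
    rw [hB']
    simp only
    split_ifs
    · exact hr _
    · exact hΦ _
  refine Finset.mem_filter.2 ⟨hdT, r, A, B, hr, ?_, ?_, ?_⟩
  · intro v
    rw [hA, e1]
    simp only
    split_ifs with h
    · rw [sub_self, abs_zero]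
      positivity
    · exact (hrep v h).1
  · intro v
    rw [hB', e1]
    simp only
    split_ifs with h
    · rw [sub_self, abs_zero]
      positivity
    · exact (hrep v h).2
  · have h1 : |mean F (fun v => Φ (sd d v)) N -
        mean F (fun v => (A v + B v) / 2 + ch d v * ((A v - B v) / 2)) N| ≤ 1 / (4 * k) := by
      refine hoff _ _ (fun v => ?_) (fun v hv => ?_)
      · have h2 : |(A v + B v) / 2 + ch d v * ((A v - B v) / 2)| ≤ 1 := by
          have h3 := abs_le.1 (hA1 v)
          have h4 := abs_le.1 (hB1 v)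
          have h5 := abs_le.1 (ch_abs d v)
          rw [abs_le]
          constructor <;> nlinarith [h3.1, h3.2, h4.1, h4.2, h5.1, h5.2]
        refine (abs_sub _ _).trans ?_
        linarith [hΦ (sd d v)]
      · have hv1 : v ∉ Z := fun h => hv (Or.inl h)
        have hv2 : 2 * d ∉ v.asIdeal := fun h => hv (Or.inr (Set.mem_biUnion hdT h))
        obtain ⟨h2, h3⟩ := hsd d hdT v hv1 hv2
        have hAv : A v = Φ (s v) := if_neg hv1
        have hBv : B v = Φ (σ (s v)) := if_neg hv1
        rw [hAv, hBv]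
        rcases ch_dichotomy d hv2 with ⟨_, h4⟩ | ⟨_, h4⟩
        · rw [h2 h4, h4]
          ring
        · rw [h3 h4, h4]
          ring
    have h2 : |mean F (fun v => (Φ (s v) + Φ (σ (s v))) / 2) N -
        mean F (fun v => (A v + B v) / 2) N| ≤ 1 / (4 * k) := by
      refine hoff _ _ (fun v => ?_) (fun v hv => ?_)
      · have h3 := abs_le.1 (hA1 v)
        have h4 := abs_le.1 (hB1 v)
        have h5 := abs_le.1 (hΦ (s v))
        have h6 := abs_le.1 (hΦ (σ (s v)))
        rw [abs_le]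
        constructor <;> linarith [h3.1, h3.2, h4.1, h4.2, h5.1, h5.2, h6.1, h6.2]
      · have hv1 : v ∉ Z := fun h => hv (Or.inl h)
        have hAv : A v = Φ (s v) := if_neg hv1
        have hBv : B v = Φ (σ (s v)) := if_neg hv1
        rw [hAv, hBv]
    have h3 : mean F (fun v => (A v + B v) / 2 + ch d v * ((A v - B v) / 2)) N =
        mean F (fun v => (A v + B v) / 2) N + mean F (fun v => ch d v * ((A v - B v) / 2)) N := by
      obtain ⟨t, _, _, hmean⟩ := mean_def (F := F) (fun _ => 0) N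
      simp only [hmean]
      rw [Finset.sum_add_distrib, add_div]
    have e2 : (1 : ℝ) / ((2 * k : ℕ) : ℝ) = 1 / k - (1 / (4 * k) + 1 / (4 * k)) := by
      push_cast
      field_simp
      norm_num
    rw [e2]
    rw [h3] at h1
    have h4 := abs_le.1 h1
    have h5 := abs_le.1 h2
    rcases le_abs.1 hge with h6 | h6
    · refine le_trans ?_ (le_abs_self _)
      linarith [h4.1, h4.2, h5.1, h5.2]
    · refine le_trans ?_ (neg_le_abs _)
      linarith [h4.1, h4.2, h5.1, h5.2]

/-- the sign of a real number, as a real number -/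
noncomputable def sg (y : ℝ) : ℝ := if y < 0 then -1 else if 0 < y then 1 else 0

theorem sg_neg {y : ℝ} (h : y < 0) : sg y = -1 := if_pos h

theorem sg_pos {y : ℝ} (h : 0 < y) : sg y = 1 := by
  unfold sg
  rw [if_neg (not_lt.2 h.le), if_pos h]

theorem sg_zero : sg 0 = 0 := by
  unfold sg
  rw [if_neg (lt_irrefl _), if_neg (lt_irrefl _)]

theorem sg_abs (y : ℝ) : |sg y| ≤ 1 := by
  unfold sg
  split_ifs <;> simp

open Classical in
/-- **Counting the exceptional twists**, for the distribution functions of a coefficient. -/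
theorem count_levels (T : Finset (𝓞 F)) (hT : ∀ d ∈ T, d ≠ 0)
    (hT' : ∀ d ∈ T, ∀ d' ∈ T, d ≠ d' → ¬ IsSquare ((d * d' : 𝓞 F) : F))
    {Z : Set (HeightOneSpectrum (𝓞 F))} (hZ : Z.Finite) (k : ℕ) (hk : 1 ≤ k) :
    ∀ᶠ N : ℕ in atTop, ∀ (a : HeightOneSpectrum (𝓞 F) → ℝ)
      (ad : 𝓞 F → HeightOneSpectrum (𝓞 F) → ℝ),
      (∀ d ∈ T, ∀ v, v ∉ Z → 2 * d ∉ v.asIdeal → ad d v = ch d v * a v) →
      (T.filter fun d => ∃ x : ℝ,
        1 / (k : ℝ) ≤ |mean F (fun v => if ad d v ≤ x then 1 else 0) N -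
          mean F (fun v => ((if a v ≤ x then 1 else 0) + (if -a v ≤ x then 1 else 0)) / 2) N|).card ≤
        32 * k ^ 3 := by
  have hkR : (0 : ℝ) < k := by exact_mod_cast hk
  have hev : ∀ᶠ N : ℕ in atTop, 2 * (2 * k) ≤
      Nat.card {v : HeightOneSpectrum (𝓞 F) // Ideal.absNorm v.asIdeal ≤ N} := by
    filter_upwards [(card_atTop F).eventually_ge_atTop ((2 * (2 * k) : ℕ) : ℝ)] with N hN
    exact_mod_cast hN
  filter_upwards [bessel_unif T hT hT' zero_lt_one,
    mean_off (finite_bad T hT hZ) (ε := 1 / (2 * k)) (by positivity), hev] with N hB hoff hn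
  intro a ad had
  have hc := count_order hB (2 * k) (by omega) hn (fun v => |a v|)
    (fun v => sg (a v)) (fun v => sg_abs _)
  have e0 : 4 * (2 * k) ^ 3 = 32 * k ^ 3 := by ring
  rw [e0] at hc
  refine (Finset.card_le_card ?_).trans hc
  intro d hd
  obtain ⟨hdT, x, hge⟩ := Finset.mem_filter.1 hd
  -- the upper set
  obtain ⟨U, hU, hUeq⟩ : ∃ U : Set ℝ, IsUpperSet U ∧ ∀ y : ℝ,
      ((if y ≤ x then 1 else 0) - (if -y ≤ x then (1 : ℝ) else 0)) / 2 =
      -(1 / 2) * (if |y| ∈ U then sg y else 0) := by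
    rcases le_or_gt 0 x with hx | hx
    · refine ⟨Set.Ioi x, isUpperSet_Ioi x, fun y => ?_⟩
      simp only [Set.mem_Ioi]
      rcases lt_trichotomy y 0 with h | h | h
      · rw [sg_neg h, abs_of_neg h, if_pos (by linarith)]
        by_cases h2 : -y ≤ x
        · rw [if_pos h2, if_neg (by linarith)]
          norm_num
        · rw [if_neg h2, if_pos (by linarith)]
          norm_num
      · rw [h]
        simp [sg_zero]
      · rw [sg_pos h, abs_of_pos h, if_pos (show -y ≤ x by linarith)]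
        by_cases h2 : y ≤ x
        · rw [if_pos h2, if_neg (by linarith)]
          norm_num
        · rw [if_neg h2, if_pos (by linarith)]
          norm_num
    · refine ⟨Set.Ici (-x), isUpperSet_Ici (-x), fun y => ?_⟩
      simp only [Set.mem_Ici]
      rcases lt_trichotomy y 0 with h | h | h
      · rw [sg_neg h, abs_of_neg h, if_neg (show ¬ -y ≤ x by linarith)]
        by_cases h2 : y ≤ x
        · rw [if_pos h2, if_pos (by linarith)]
          norm_num
        · rw [if_neg h2, if_neg (by linarith)]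
          norm_num
      · rw [h]
        simp [sg_zero]
      · rw [sg_pos h, abs_of_pos h, if_neg (show ¬ y ≤ x by linarith)]
        by_cases h2 : -y ≤ x
        · rw [if_pos h2, if_pos (by linarith)]
          norm_num
        · rw [if_neg h2, if_neg (by linarith)]
          norm_num
  refine Finset.mem_filter.2 ⟨hdT, U, hU, ?_⟩
  set G : HeightOneSpectrum (𝓞 F) → ℝ := fun v =>
    ((if a v ≤ x then 1 else 0) + (if -a v ≤ x then 1 else 0)) / 2 with hG
  set H : HeightOneSpectrum (𝓞 F) → ℝ := fun v =>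
    ((if a v ≤ x then 1 else 0) - (if -a v ≤ x then 1 else 0)) / 2 with hH
  have h1 : |mean F (fun v => if ad d v ≤ x then 1 else 0) N -
      mean F (fun v => G v + ch d v * H v) N| ≤ 1 / (2 * k) := by
    refine hoff _ _ (fun v => ?_) (fun v hv => ?_)
    · have h5 := abs_le.1 (ch_abs d v)
      rw [hG, hH]
      simp only
      rw [abs_le]
      split_ifs <;> constructor <;> linarith [h5.1, h5.2]
    · have hv1 : v ∉ Z := fun h => hv (Or.inl h)
      have hv2 : 2 * d ∉ v.asIdeal := fun h => hv (Or.inr (Set.mem_biUnion hdT h))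
      rw [had d hdT v hv1 hv2, hG, hH]
      simp only
      rcases ch_dichotomy d hv2 with ⟨_, h4⟩ | ⟨_, h4⟩
      · rw [h4, one_mul]
        ring
      · rw [h4, neg_one_mul]
        ring
  have h3 : mean F (fun v => G v + ch d v * H v) N =
      mean F G N + mean F (fun v => ch d v * H v) N := by
    obtain ⟨t, _, _, hmean⟩ := mean_def (F := F) (fun _ => 0) N
    simp only [hmean]
    rw [Finset.sum_add_distrib, add_div]
  have h4 : mean F (fun v => ch d v * H v) N = -(1 / 2) *
      mean F (fun v => ch d v * (if |a v| ∈ U then sg (a v) else 0)) N := by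
    rw [← mean_const_mul]
    congr 1
    funext v
    rw [hH]
    simp only
    rw [hUeq]
    ring
  rw [h3] at h1
  have h5 : 1 / (2 * (k : ℝ)) ≤ |mean F (fun v => ch d v * H v) N| := by
    have e2 : 1 / (2 * (k : ℝ)) = 1 / k - 1 / (2 * k) := by
      field_simp
      norm_num
    rw [e2]
    have h4 := abs_le.1 h1
    rcases le_abs.1 hge with h6 | h6
    · refine le_trans ?_ (le_abs_self _)
      linarith [h4.1, h4.2]
    · refine le_trans ?_ (neg_le_abs _)
      linarith [h4.1, h4.2]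
  rw [h4, abs_mul] at h5
  have e3 : |(-(1 / 2) : ℝ)| = 1 / 2 := by rw [abs_neg, abs_of_pos (by norm_num)]
  rw [e3] at h5
  have e4 : (2 : ℝ) / ((2 * k : ℕ) : ℝ) = 2 * (1 / (2 * k)) := by
    push_cast
    ring
  rw [e4]
  linarith

end

end Pool.Agent.W529.ST
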